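import Pool.Agent.H73.Flag.Point
import Pool.Agent.H73.Flag.Psd

/-! # The certificate as an inequality between densities -/

set_option maxRecDepth 100000
set_option autoImplicit false
namespace Pool.Agent.H73.Flag

open Finset

/-! ### Sums over 5-tuples -/

section sums
variable {V : Type*} [Fintype V]

lemma sum5 {M : Type*} [AddCommMonoid M] (G : V → V → V → V → V → M) :
    ∑ x : Fin 5 → V, G (x 0) (x 1) (x 2) (x 3) (x 4) =
      ∑ a, ∑ b, ∑ c, ∑ d, ∑ e, G a b c d e := by
  let E : (Fin 5 → V) ≃ V × V × V × V × V :=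
    { toFun := fun x => (x 0, x 1, x 2, x 3, x 4)
      invFun := fun p => ![p.1, p.2.1, p.2.2.1, p.2.2.2.1, p.2.2.2.2]
      left_inv := fun x => by
        funext i
        fin_cases i <;> rfl
      right_inv := fun p => rfl }
  rw [← Equiv.sum_comp E.symm]
  rw [Fintype.sum_prod_type]
  refine Finset.sum_congr rfl fun a _ => ?_
  rw [Fintype.sum_prod_type]
  refine Finset.sum_congr rfl fun b _ => ?_
  rw [Fintype.sum_prod_type]
  refine Finset.sum_congr rfl fun c _ => ?_
  rw [Fintype.sum_prod_type]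
  rfl

end sums

/-! ### The tables are sums of squares -/

lemma allb_spec {f : ℕ → Bool} : ∀ {n : ℕ}, allb f n = true → ∀ i < n, f i = true
  | 0, _, i, hi => by omega
  | n + 1, h, i, hi => by
    unfold allb at h
    by_cases hf : f n = true
    · rw [hf] at h
      simp only [cond_true] at h
      rcases Nat.lt_succ_iff_lt_or_eq.1 hi with h1 | h1
      · exact allb_spec h i h1
      · rw [h1]; exact hf
    · simp only [Bool.not_eq_true] at hf
      rw [hf] at h
      simp at h

lemma sumk_eq (f : ℕ → ℤ) : ∀ n : ℕ, sumk f n = ∑ k ∈ range n, f k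
  | 0 => rfl
  | n + 1 => by
    rw [Finset.sum_range_succ, ← sumk_eq f n]
    exact Int.add_comm _ _

lemma psd_all : ∀ t < 27, psd t = true := by
  intro t ht
  interval_cases t
  · exact psd_0
  · exact psd_1
  · exact psd_2
  · exact psd_3
  · exact psd_4
  · exact psd_5
  · exact psd_6
  · exact psd_7
  · exact psd_8
  · exact psd_9
  · exact psd_10
  · exact psd_11
  · exact psd_12
  · exact psd_13
  · exact psd_14
  · exact psd_15
  · exact psd_16
  · exact psd_17
  · exact psd_18
  · exact psd_19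
  · exact psd_20
  · exact psd_21
  · exact psd_22
  · exact psd_23
  · exact psd_24
  · exact psd_25
  · exact psd_26

lemma psd_spec {t x y : ℕ} (ht : t < 27) (hx : x < 27) (hy : y < 27) :
    (look3 t x y : ℤ) - 18014398509481984 =
      ∑ k ∈ range (rk t), ell (bas t) k x * ell (bas t) k y := by
  have h := allb_spec (allb_spec (psd_all t ht) x hx) y hy
  have h2 := of_decide_eq_true h
  rw [sumk_eq, Int.subNatNat_eq_coe] at h2
  exact h2

lemma psd1_spec {x y : ℕ} (hx : x < 27) (hy : y < 27) :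
    (look1 x y : ℤ) - 18014398509481984 = ∑ k ∈ range 7, ell1 k x * ell1 k y := by
  have h := allb_spec (allb_spec psd1_t x hx) y hy
  have h2 := of_decide_eq_true h
  rw [sumk_eq, Int.subNatNat_eq_coe] at h2
  exact h2

lemma cd_eq (a b c : ℕ) : cd a b c = 9 * a + 3 * b + c := by
  unfold cd
  simp only [Nat.add_eq, Nat.mul_eq]
  ring

section
variable {V : Type*} {r : V → V → Fin 3}

lemma c_lt (u v : V) : c r u v < 3 := (r u v).isLt

lemma cd_lt (a b c' d e f : V) : cd (c r a b) (c r c' d) (c r e f) < 27 := by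
  rw [cd_eq]
  have := c_lt (r := r) a b
  have := c_lt (r := r) c' d
  have := c_lt (r := r) e f
  omega

variable [Fintype V]

lemma sq_sum {ι : Type*} (s : Finset ι) (g : ι → V → ℤ) :
    ∑ z, ∑ y, ∑ k ∈ s, g k z * g k y = ∑ k ∈ s, (∑ z, g k z) ^ 2 := by
  have : ∀ z, ∑ y, ∑ k ∈ s, g k z * g k y = ∑ k ∈ s, g k z * ∑ y, g k y := by
    intro z
    rw [Finset.sum_comm]
    refine Finset.sum_congr rfl fun k _ => ?_
    rw [Finset.mul_sum]
  simp_rw [this]
  rw [Finset.sum_comm]
  refine Finset.sum_congr rfl fun k _ => ?_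
  rw [← Finset.sum_mul, sq]

lemma L3_ge :
    18014398509481984 * (Fintype.card V : ℤ) ^ 5 ≤
      ((∑ x : Fin 5 → V, L3 r (x 0) (x 1) (x 2) (x 3) (x 4) : ℕ) : ℤ) := by
  rw [sum5]
  push_cast
  have key : ∀ u v w : V, 0 ≤ ∑ z, ∑ y, ((L3 r u v w z y : ℤ) - 18014398509481984) := by
    intro u v w
    have : ∀ z y : V, (L3 r u v w z y : ℤ) - 18014398509481984 =
        ∑ k ∈ range (rk (cd (c r u v) (c r u w) (c r v w))),
          ell (bas (cd (c r u v) (c r u w) (c r v w))) k
            (cd (c r u z) (c r v z) (c r w z)) *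
          ell (bas (cd (c r u v) (c r u w) (c r v w))) k
            (cd (c r u y) (c r v y) (c r w y)) := by
      intro z y
      exact psd_spec (cd_lt _ _ _ _ _ _) (cd_lt _ _ _ _ _ _) (cd_lt _ _ _ _ _ _)
    simp_rw [this]
    rw [sq_sum _ (fun k z => ell (bas (cd (c r u v) (c r u w) (c r v w))) k
            (cd (c r u z) (c r v z) (c r w z)))]
    exact Finset.sum_nonneg fun k _ => sq_nonneg _
  have h2 : 0 ≤ ∑ u : V, ∑ v : V, ∑ w : V, ∑ z, ∑ y,
      ((L3 r u v w z y : ℤ) - 18014398509481984) :=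
    Finset.sum_nonneg fun u _ => Finset.sum_nonneg fun v _ => Finset.sum_nonneg fun w _ =>
      key u v w
  simp only [Finset.sum_sub_distrib, Finset.sum_const, Finset.card_univ, nsmul_eq_mul] at h2
  ring_nf at h2 ⊢
  linarith

lemma L1_ge :
    18014398509481984 * (Fintype.card V : ℤ) ^ 5 ≤
      ((∑ x : Fin 5 → V, L1 r (x 0) (x 1) (x 2) (x 3) (x 4) : ℕ) : ℤ) := by
  rw [sum5]
  push_cast
  have key : ∀ u : V, 0 ≤ ∑ p, ∑ q, ∑ s, ∑ t,
      ((L1 r u p q s t : ℤ) - 18014398509481984) := by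
    intro u
    have h1 : ∀ p q s t : V, (L1 r u p q s t : ℤ) - 18014398509481984 =
        ∑ k ∈ range 7, ell1 k (cd (c r u p) (c r u q) (c r p q)) *
          ell1 k (cd (c r u s) (c r u t) (c r s t)) := by
      intro p q s t
      exact psd1_spec (cd_lt _ _ _ _ _ _) (cd_lt _ _ _ _ _ _)
    simp_rw [h1]
    have h2 : ∑ p, ∑ q, ∑ s, ∑ t, ∑ k ∈ range 7,
        ell1 k (cd (c r u p) (c r u q) (c r p q)) * ell1 k (cd (c r u s) (c r u t) (c r s t)) =
        ∑ pq : V × V, ∑ st : V × V, ∑ k ∈ range 7,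
          ell1 k (cd (c r u pq.1) (c r u pq.2) (c r pq.1 pq.2)) *
          ell1 k (cd (c r u st.1) (c r u st.2) (c r st.1 st.2)) := by
      rw [Fintype.sum_prod_type]
      refine Finset.sum_congr rfl fun p _ => Finset.sum_congr rfl fun q _ => ?_
      rw [Fintype.sum_prod_type]
    rw [h2, sq_sum (V := V × V) _ (fun k pq => ell1 k (cd (c r u pq.1) (c r u pq.2)
      (c r pq.1 pq.2)))]
    exact Finset.sum_nonneg fun k _ => sq_nonneg _
  have h2 : 0 ≤ ∑ u : V, ∑ p, ∑ q, ∑ s, ∑ t, ((L1 r u p q s t : ℤ) - 18014398509481984) :=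
    Finset.sum_nonneg fun u _ => key u
  simp only [Finset.sum_sub_distrib, Finset.sum_const, Finset.card_univ, nsmul_eq_mul] at h2
  ring_nf at h2 ⊢
  linarith

end

end Pool.Agent.H73.Flag
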