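import Pool.Agent.H73.Flag.Cert

/-! # The certificate in terms of induced paths -/

set_option maxRecDepth 100000
set_option autoImplicit false
namespace Pool.Agent.H73.Flag

open Finset

/-- Three vertices `x, y, z` with relations `a` from `x` to `y`, `b` from `y` to `z` and `c` from
`z` to `x` span an induced directed path with two arcs. -/
def pb (a b c : Fin 3) : Bool :=
  decide ((a = 1 ∧ b = 1 ∧ c = 0) ∨ (a = 2 ∧ b = 2 ∧ c = 0) ∨ (a = 1 ∧ b = 0 ∧ c = 1) ∨
    (a = 2 ∧ b = 0 ∧ c = 2) ∨ (a = 0 ∧ b = 1 ∧ c = 1) ∨ (a = 0 ∧ b = 2 ∧ c = 2))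

section defs
variable {V : Type*} (r : V → V → Fin 3)

/-- Indicator of induced paths (as unordered triples). -/
noncomputable def P (x y z : V) : ℝ := if pb (r x y) (r y z) (r z x) = true then 1 else 0

/-- Ordered triples of `S` spanning an induced path. -/
noncomputable def tS (S : Finset V) : ℝ := ∑ x ∈ S, ∑ y ∈ S, ∑ z ∈ S, P r x y z

/-- `u → v → w` with `u, w` non adjacent. -/
def isP (u v w : V) : Prop := r u v = 1 ∧ r v w = 1 ∧ r u w = 0

instance (u v w : V) : Decidable (isP r u v w) := by unfold isP; infer_instance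

/-- The class of `z` with respect to `(u, v, w)`. -/
noncomputable def cls (u v w z : V) : ℕ := clsC (cd (c r u z) (c r v z) (c r w z))

end defs

/-- normal relation between the classes `1, 2, 3, 4` -/
def nr (i j : ℕ) : Fin 3 := if (j + 4 - i) % 4 = 1 then 1 else if (j + 4 - i) % 4 = 3 then 2 else 0

/-- relation from the vertices of the main classes to the uniform classes `5, 6, 7` -/
def un (j : ℕ) : Fin 3 := if j = 5 then 1 else if j = 6 then 0 else 2

/-- The defect of an ordered pair. -/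
def bb (i j : ℕ) (ρ : Fin 3) : ℤ :=
  (if i = 0 then 1000000 else 0) + (if 5 ≤ i then 7000 else 0) +
  (if (1 ≤ i ∧ i ≤ 4) ∧ (1 ≤ j ∧ j ≤ 4) then
    (if i ≠ j ∧ ρ ≠ nr i j then 3000000 else 0) + (if i = j then 45000000 else -15000000)
    else 0) +
  (if (1 ≤ i ∧ i ≤ 4) ∧ 5 ≤ j ∧ ρ ≠ un j then 10000000 else 0)

lemma lookB_spec : ∀ i < 8, ∀ j < 8, ∀ ρ : Fin 3, (lookB i j ρ.val : ℤ) =
    3000000 * (bb i j ρ + bb j i (-ρ) - 9000) + 15 * 51630700000000 := by
  decide +kernel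

lemma clsC_lt : ∀ x < 27, clsC x < 8 := by decide +kernel

lemma p3b_spec : ∀ a b c : Fin 3, p3b (cd a.val b.val c.val) = if pb a c (-b) = true then 1 else 0 := by
  decide +kernel

lemma rterm_spec : ∀ (d a₁ b₁ a₂ b₂ a₃ b₃ : Fin 3) (q : ℕ), q = 0 ∨ q = 1 →
    ∀ (s : ℕ), p3b s = q →
    (rterm d.val (Nat.add (Nat.mul 3 a₁.val) b₁.val) (Nat.add (Nat.mul 3 a₂.val) b₂.val)
      (Nat.add (Nat.mul 3 a₃.val) b₃.val) s : ℤ) = 1342786500000000 +
      (if (a₁ = a₂ ∧ b₁ = b₂) ∧ (a₂ = a₃ ∧ b₂ = b₃) ∧ pb d b₁ (-a₁) = true then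
        3 * (if d = 0 then 73577100000000 else 149198500000000) * (2 - 5 * (q : ℤ)) else 0) := by
  intro d a₁ b₁ a₂ b₂ a₃ b₃ q hq s hs
  unfold rterm rterm2
  rw [hs]
  clear hs s
  rcases hq with rfl | rfl
  · revert d a₁ b₁ a₂ b₂ a₃ b₃
    decide +kernel
  · revert d a₁ b₁ a₂ b₂ a₃ b₃
    decide +kernel

section main
variable {V : Type*} {r : V → V → Fin 3}

lemma P_zero_or (x y z : V) : P r x y z = 0 ∨ P r x y z = 1 := by
  unfold P; split_ifs <;> simp

lemma P_nonneg (x y z : V) : 0 ≤ P r x y z := by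
  rcases P_zero_or (r := r) x y z with h | h
  · rw [h]
  · rw [h]; exact zero_le_one

lemma P_le_one (x y z : V) : P r x y z ≤ 1 := by
  rcases P_zero_or (r := r) x y z with h | h
  · rw [h]; exact zero_le_one
  · rw [h]

lemma pb_rot : ∀ a b c : Fin 3, pb a b c = pb b c a := by decide

lemma pb_flip : ∀ a b c : Fin 3, pb (-c) (-b) (-a) = pb a b c := by decide

lemma P_rot (x y z : V) : P r y z x = P r x y z := by
  unfold P; rw [pb_rot (r x y)]

lemma P_swap (hr : ∀ u v, r v u = -r u v) (x y z : V) : P r x z y = P r x y z := by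
  unfold P
  rw [hr z x, hr y z, hr x y, pb_flip]

/-- splitting the indicator over the six orderings -/
lemma P_eq (hr : ∀ u v, r v u = -r u v) (x y z : V) : P r x y z =
    (if isP r x y z then (1 : ℝ) else 0) + (if isP r x z y then 1 else 0) +
    (if isP r y x z then 1 else 0) + (if isP r y z x then 1 else 0) +
    (if isP r z x y then 1 else 0) + (if isP r z y x then 1 else 0) := by
  have key : ∀ a b c : Fin 3, (if pb a b c = true then 1 else 0 : ℕ) =
      (if a = 1 ∧ b = 1 ∧ -c = 0 then 1 else 0) + (if -c = 1 ∧ -b = 1 ∧ a = 0 then 1 else 0) +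
      (if -a = 1 ∧ -c = 1 ∧ b = 0 then 1 else 0) + (if b = 1 ∧ c = 1 ∧ -a = 0 then 1 else 0) +
      (if c = 1 ∧ a = 1 ∧ -b = 0 then 1 else 0) + (if -b = 1 ∧ -a = 1 ∧ c = 0 then 1 else 0) := by
    decide
  have h := key (r x y) (r y z) (r z x)
  unfold P isP
  rw [← hr x y, ← hr y z, ← hr z x] at h
  exact_mod_cast h

/-- good configurations for the region recursion -/
noncomputable def g5 (r : V → V → Fin 3) (u v x y z : V) : ℕ :=
  if (r u x = r u y ∧ r v x = r v y) ∧ (r u y = r u z ∧ r v y = r v z) ∧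
    pb (r u v) (r v x) (-r u x) = true then 1 else 0

lemma LR_eq (hr : ∀ u v, r v u = -r u v) (u v x y z : V) :
    (LR r u v x y z : ℝ) = 1342786500000000 + 3 *
      (if r u v = 0 then 73577100000000 else 149198500000000) * (2 - 5 * P r x y z) *
        (g5 r u v x y z : ℝ) := by
  have hP : (P r x y z : ℝ) = ((p3b (cd (c r x y) (c r x z) (c r y z)) : ℕ) : ℝ) := by
    unfold c P
    rw [p3b_spec, hr x z]
    split_ifs <;> simp
  have hq : p3b (cd (c r x y) (c r x z) (c r y z)) = 0 ∨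
      p3b (cd (c r x y) (c r x z) (c r y z)) = 1 := by
    unfold c; rw [p3b_spec]; split_ifs <;> simp
  have h := rterm_spec (r u v) (r u x) (r v x) (r u y) (r v y) (r u z) (r v z) _ hq _ rfl
  have h2 : (LR r u v x y z : ℤ) = _ := h
  have h3 : ((LR r u v x y z : ℤ) : ℝ) = _ := congrArg (Int.cast : ℤ → ℝ) h2
  rw [Int.cast_natCast] at h3
  rw [h3, hP]
  unfold g5
  push_cast
  split_ifs <;> simp

lemma g5_excl (hr : ∀ u v, r v u = -r u v) (x₀ x₁ x₂ x₃ x₄ : V) :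
    g5 r x₀ x₁ x₂ x₃ x₄ + g5 r x₀ x₂ x₁ x₃ x₄ + g5 r x₁ x₂ x₀ x₃ x₄ ≤ 1 := by
  have e1 : ∀ a b : Fin 3, pb a b (-a) = false := by decide
  have e2 : ∀ a b : Fin 3, pb a (-a) b = false := by decide
  unfold g5
  split_ifs with hA hB hC hC hB hC hC
  · exfalso
    obtain ⟨⟨a1, -⟩, -, a3⟩ := hA
    obtain ⟨⟨b1, -⟩, -, -⟩ := hB
    rw [a1, ← b1, e1] at a3
    exact Bool.noConfusion a3
  · exfalso
    obtain ⟨⟨a1, -⟩, -, a3⟩ := hA
    obtain ⟨⟨b1, -⟩, -, -⟩ := hB
    rw [a1, ← b1, e1] at a3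
    exact Bool.noConfusion a3
  · exfalso
    obtain ⟨⟨-, a2⟩, -, a3⟩ := hA
    obtain ⟨⟨c1, -⟩, -, -⟩ := hC
    rw [a2, ← c1, hr x₀ x₁, e2] at a3
    exact Bool.noConfusion a3
  · norm_num
  · exfalso
    obtain ⟨⟨-, b2⟩, -, b3⟩ := hB
    obtain ⟨⟨-, c2⟩, -, -⟩ := hC
    rw [b2, ← c2, hr x₀ x₂, e2] at b3
    exact Bool.noConfusion b3
  · norm_num
  · norm_num
  · norm_num

lemma g5_sum [Fintype V] [DecidableEq V] (hr : ∀ u v, r v u = -r u v) :
    3 * (∑ x : Fin 5 → V, g5 r (x 0) (x 1) (x 2) (x 3) (x 4)) ≤ Fintype.card V ^ 5 := by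
  have h := Finset.sum_le_sum (s := Finset.univ) (fun (x : Fin 5 → V) _ =>
    g5_excl hr (x 0) (x 1) (x 2) (x 3) (x 4))
  simp only [Finset.sum_add_distrib, Finset.sum_const,
    Finset.card_univ, Fintype.card_pi, Finset.prod_const, Fintype.card_fin, smul_eq_mul,
    mul_one] at h
  rw [perm_sum (g5 r) 0 2 1 3 4 (by decide)] at h
  rw [perm_sum (g5 r) 1 2 0 3 4 (by decide)] at h
  linarith

lemma ind_sum [Fintype V] [DecidableEq V] (S : Finset V) (F : V → ℝ) :
    ∑ x, (if x ∈ S then (1 : ℝ) else 0) * F x = ∑ x ∈ S, F x := by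
  simp [ite_mul]

lemma comm4 [Fintype V] {ι : Type*} (T : Finset ι) (F : ι → V → V → V → ℝ) :
    ∑ x, ∑ y, ∑ z, ∑ i ∈ T, F i x y z = ∑ i ∈ T, ∑ x, ∑ y, ∑ z, F i x y z := by
  have h1 : ∀ x y, ∑ z, ∑ i ∈ T, F i x y z = ∑ i ∈ T, ∑ z, F i x y z :=
    fun x y => Finset.sum_comm
  simp_rw [h1]
  have h2 : ∀ x, ∑ y, ∑ i ∈ T, ∑ z, F i x y z = ∑ i ∈ T, ∑ y, ∑ z, F i x y z :=
    fun x => Finset.sum_comm
  simp_rw [h2]
  exact Finset.sum_comm

/-- the recursion hypothesis applied to the regions of a pair -/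
lemma region [Fintype V] [DecidableEq V] {L : ℝ}
    (hS : ∀ S : Finset V, tS r S ≤ L * (S.card : ℝ) ^ 3) (u v : V) :
    ∑ x, ∑ y, ∑ z, (g5 r u v x y z : ℝ) * P r x y z ≤
      L * ∑ x, ∑ y, ∑ z, (g5 r u v x y z : ℝ) := by
  let R : Fin 3 × Fin 3 → Finset V := fun ab => univ.filter (fun x => r u x = ab.1 ∧ r v x = ab.2)
  let T : Finset (Fin 3 × Fin 3) := univ.filter (fun ab => pb (r u v) ab.2 (-ab.1) = true)
  have hg : ∀ x y z : V, (g5 r u v x y z : ℝ) =
      ∑ ab ∈ T, (if x ∈ R ab then (1 : ℝ) else 0) * ((if y ∈ R ab then 1 else 0) *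
        (if z ∈ R ab then 1 else 0)) := by
    intro x y z
    rw [Finset.sum_filter]
    rw [Finset.sum_eq_single (r u x, r v x)]
    · unfold g5
      simp only [R, Finset.mem_filter, Finset.mem_univ, true_and, and_self, if_true, one_mul]
      by_cases h1 : pb (r u v) (r v x) (-r u x) = true
      · simp only [h1, if_true, and_true]
        by_cases h2 : r u x = r u y ∧ r v x = r v y
        · by_cases h3 : r u x = r u z ∧ r v x = r v z
          · have h4 : r u y = r u z ∧ r v y = r v z := ⟨h2.1 ▸ h3.1, h2.2 ▸ h3.2⟩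
            simp [h2.1.symm, h2.2.symm, h3.1.symm, h3.2.symm]
          · have h3' : ¬ (r u z = r u x ∧ r v z = r v x) := fun h => h3 ⟨h.1.symm, h.2.symm⟩
            have h4 : ¬ (r u y = r u z ∧ r v y = r v z) := fun h =>
              h3 ⟨h2.1.trans h.1, h2.2.trans h.2⟩
            simp [h3', h4]
        · have h2' : ¬ (r u y = r u x ∧ r v y = r v x) := fun h => h2 ⟨h.1.symm, h.2.symm⟩
          simp [h2, h2']
      · simp [h1]
    · intro ab _ hne
      have : x ∉ R ab := by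
        simp only [R, Finset.mem_filter, Finset.mem_univ, true_and]
        rintro ⟨h1, h2⟩
        exact hne (Prod.ext h1.symm h2.symm)
      simp [this]
    · intro h
      exact absurd (Finset.mem_univ _) h
  have h1 : ∀ ab : Fin 3 × Fin 3, ∀ f : V → V → V → ℝ, ∑ x, ∑ y, ∑ z,
      ((if x ∈ R ab then (1 : ℝ) else 0) * ((if y ∈ R ab then 1 else 0) *
        (if z ∈ R ab then 1 else 0))) * f x y z = ∑ x ∈ R ab, ∑ y ∈ R ab, ∑ z ∈ R ab, f x y z := by
    intro ab f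
    rw [← ind_sum (R ab) (fun x => ∑ y ∈ R ab, ∑ z ∈ R ab, f x y z)]
    refine Finset.sum_congr rfl fun x _ => ?_
    rw [← ind_sum (R ab) (fun y => ∑ z ∈ R ab, f x y z), Finset.mul_sum]
    refine Finset.sum_congr rfl fun y _ => ?_
    rw [← ind_sum (R ab) (fun z => f x y z), Finset.mul_sum, Finset.mul_sum]
    refine Finset.sum_congr rfl fun z _ => ?_
    ring
  have h2 : ∀ f : V → V → V → ℝ, ∑ x, ∑ y, ∑ z, (g5 r u v x y z : ℝ) * f x y z =
      ∑ ab ∈ T, ∑ x ∈ R ab, ∑ y ∈ R ab, ∑ z ∈ R ab, f x y z := by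
    intro f
    simp_rw [hg, Finset.sum_mul]
    rw [← Finset.sum_congr rfl (fun ab _ => h1 ab f)]
    exact comm4 T _
  have h3 := h2 (P r)
  have h4 := h2 (fun _ _ _ => 1)
  simp only [mul_one] at h4
  rw [h3, h4, Finset.mul_sum]
  refine Finset.sum_le_sum fun ab _ => ?_
  have := hS (R ab)
  unfold tS at this
  simp only [Finset.sum_const, nsmul_eq_mul, mul_one]
  refine this.trans (le_of_eq ?_)
  ring

lemma LR_sum [Fintype V] [DecidableEq V] (hr : ∀ u v, r v u = -r u v) {L : ℝ}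
    (hL : 2 / 5 ≤ L) (hS : ∀ S : Finset V, tS r S ≤ L * (S.card : ℝ) ^ 3) :
    (1342786500000000 + 149198500000000 * (2 - 5 * L)) * (Fintype.card V : ℝ) ^ 5 ≤
      ((∑ x : Fin 5 → V, LR r (x 0) (x 1) (x 2) (x 3) (x 4) : ℕ) : ℝ) := by
  have hg := g5_sum (r := r) hr
  have hg' : (3 : ℝ) * ∑ u : V, ∑ v : V, ∑ x : V, ∑ y : V, ∑ z : V, (g5 r u v x y z : ℝ) ≤
      (Fintype.card V : ℝ) ^ 5 := by
    rw [sum5] at hg
    exact_mod_cast hg
  have h1 : ∀ u v : V, 1342786500000000 * (Fintype.card V : ℝ) ^ 3 +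
      149198500000000 * (2 - 5 * L) * (3 * ∑ x : V, ∑ y : V, ∑ z : V, (g5 r u v x y z : ℝ)) ≤
      ∑ x : V, ∑ y : V, ∑ z : V, (LR r u v x y z : ℝ) := by
    intro u v
    have h2 : ∑ x : V, ∑ y : V, ∑ z : V, (LR r u v x y z : ℝ) =
        1342786500000000 * (Fintype.card V : ℝ) ^ 3 + 3 *
        (if r u v = 0 then 73577100000000 else 149198500000000) *
        (2 * (∑ x : V, ∑ y : V, ∑ z : V, (g5 r u v x y z : ℝ)) -
          5 * ∑ x, ∑ y, ∑ z, (g5 r u v x y z : ℝ) * P r x y z) := by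
      simp_rw [LR_eq hr, Finset.mul_sum]
      simp_rw [← Finset.sum_sub_distrib, Finset.mul_sum]
      simp_rw [Finset.sum_add_distrib]
      simp only [Finset.sum_const, Finset.card_univ, nsmul_eq_mul]
      have : ∀ x y z : V, 3 * (if r u v = 0 then (73577100000000 : ℝ) else 149198500000000) *
          (2 - 5 * P r x y z) * (g5 r u v x y z : ℝ) =
          3 * (if r u v = 0 then (73577100000000 : ℝ) else 149198500000000) *
          (2 * (g5 r u v x y z : ℝ) - 5 * ((g5 r u v x y z : ℝ) * P r x y z)) := by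
        intro x y z; ring
      simp_rw [this]
      ring
    have h3 := region hS u v
    have h4 : (0 : ℝ) ≤ ∑ x : V, ∑ y : V, ∑ z : V, (g5 r u v x y z : ℝ) :=
      Finset.sum_nonneg fun _ _ => Finset.sum_nonneg fun _ _ => Finset.sum_nonneg fun _ _ =>
        Nat.cast_nonneg _
    rw [h2]
    generalize (∑ x : V, ∑ y : V, ∑ z : V, (g5 r u v x y z : ℝ)) = G at h3 h4 ⊢
    generalize (∑ x, ∑ y, ∑ z, (g5 r u v x y z : ℝ) * P r x y z) = H at h3 ⊢
    have h5 : 0 ≤ (5 * L - 2) * G := mul_nonneg (by linarith) h4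
    split_ifs
    · nlinarith
    · nlinarith
  rw [sum5]
  push_cast
  calc _ ≤ ∑ u : V, ∑ v : V, (1342786500000000 * (Fintype.card V : ℝ) ^ 3 +
      149198500000000 * (2 - 5 * L) * (3 * ∑ x : V, ∑ y : V, ∑ z : V,
        (g5 r u v x y z : ℝ))) := ?_
    _ ≤ _ := Finset.sum_le_sum fun u _ => Finset.sum_le_sum fun v _ => h1 u v
  simp only [Finset.sum_add_distrib, Finset.sum_const, Finset.card_univ, nsmul_eq_mul]
  simp only [← Finset.mul_sum]
  generalize (∑ u : V, ∑ v : V, ∑ x : V, ∑ y : V, ∑ z : V, (g5 r u v x y z : ℝ)) = G at hg' ⊢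
  generalize (Fintype.card V : ℝ) = n at hg' ⊢
  have h5 : 0 ≤ (5 * L - 2) * (n ^ 5 - 3 * G) := mul_nonneg (by linarith) (by linarith)
  nlinarith

lemma cls_lt (u v w z : V) : cls r u v w z < 8 := clsC_lt _ (cd_lt _ _ _ _ _ _)

lemma LP_eq (hr : ∀ u v, r v u = -r u v) (u v w z y : V) :
    (LP r u v w z y : ℝ) = if isP r u v w then
      3000000 * ((bb (cls r u v w z) (cls r u v w y) (r z y) : ℝ) +
        (bb (cls r u v w y) (cls r u v w z) (r y z) : ℝ) - 9000) + 15 * 51630700000000 else 0 := by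
  have h := lookB_spec _ (cls_lt (r := r) u v w z) _ (cls_lt (r := r) u v w y) (r z y)
  have h3 : ((lookB (cls r u v w z) (cls r u v w y) (r z y).val : ℤ) : ℝ) = _ :=
    congrArg (Int.cast : ℤ → ℝ) h
  rw [Int.cast_natCast] at h3
  rw [hr z y]
  have e : ∀ a : Fin 3, (Nat.beq a.val 1 = true ↔ a = 1) := by decide
  have e0 : ∀ a : Fin 3, (Nat.beq a.val 0 = true ↔ a = 0) := by decide
  by_cases hp : isP r u v w
  · rw [if_pos hp]
    obtain ⟨h1, h2, h4⟩ := hp
    have e1 : Nat.beq (c r u v) 1 = true := (e _).2 h1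
    have e2 : Nat.beq (c r v w) 1 = true := (e _).2 h2
    have e3 : Nat.beq (c r u w) 0 = true := (e0 _).2 h4
    unfold LP pterm
    rw [e1, e2, e3]
    simp only [cond_true]
    have : lookB (clsC (cd (c r u z) (c r v z) (c r w z)))
      (clsC (cd (c r u y) (c r v y) (c r w y))) (c r z y) =
      lookB (cls r u v w z) (cls r u v w y) (r z y).val := rfl
    rw [this, h3]
    push_cast
    ring
  · rw [if_neg hp]
    unfold LP pterm
    by_cases h1 : r u v = 1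
    · by_cases h2 : r v w = 1
      · have h4 : r u w ≠ 0 := fun h4 => hp ⟨h1, h2, h4⟩
        have e3 : Nat.beq (c r u w) 0 = false := by
          rw [Bool.eq_false_iff]; exact fun h => h4 ((e0 _).1 h)
        rw [e3]
        simp
      · have e2 : Nat.beq (c r v w) 1 = false := by
          rw [Bool.eq_false_iff]; exact fun h => h2 ((e _).1 h)
        rw [e2]
        simp
    · have e1 : Nat.beq (c r u v) 1 = false := by
        rw [Bool.eq_false_iff]; exact fun h => h1 ((e _).1 h)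
      rw [e1]
      simp

lemma sum3_perm [Fintype V] (F : V → V → V → ℝ) :
    (∑ x, ∑ y, ∑ z, F x z y = ∑ x, ∑ y, ∑ z, F x y z) ∧
    (∑ x, ∑ y, ∑ z, F y x z = ∑ x, ∑ y, ∑ z, F x y z) := by
  constructor
  · exact Finset.sum_congr rfl fun x _ => Finset.sum_comm
  · exact Finset.sum_comm

lemma tS_eq [Fintype V] (hr : ∀ u v, r v u = -r u v) :
    tS r univ = 6 * ∑ u, ∑ v, ∑ w, (if isP r u v w then (1 : ℝ) else 0) := by
  unfold tS
  simp_rw [P_eq hr, Finset.sum_add_distrib]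
  set F : V → V → V → ℝ := fun u v w => if isP r u v w then (1 : ℝ) else 0 with hF
  have a1 : ∑ x, ∑ y, ∑ z, F x z y = ∑ x, ∑ y, ∑ z, F x y z := (sum3_perm F).1
  have a2 : ∑ x, ∑ y, ∑ z, F y x z = ∑ x, ∑ y, ∑ z, F x y z := (sum3_perm F).2
  have a3 : ∑ x, ∑ y, ∑ z, F y z x = ∑ x, ∑ y, ∑ z, F x y z :=
    ((sum3_perm (fun x y z => F x z y)).2).trans a1
  have a4 : ∑ x, ∑ y, ∑ z, F z x y = ∑ x, ∑ y, ∑ z, F x y z :=
    ((sum3_perm (fun x y z => F y x z)).1).trans a2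
  have a5 : ∑ x, ∑ y, ∑ z, F z y x = ∑ x, ∑ y, ∑ z, F x y z :=
    ((sum3_perm (fun x y z => F z x y)).2).trans a4
  have : (∑ x, ∑ y, ∑ z, F x y z) + (∑ x, ∑ y, ∑ z, F x z y) + (∑ x, ∑ y, ∑ z, F y x z) +
      (∑ x, ∑ y, ∑ z, F y z x) + (∑ x, ∑ y, ∑ z, F z x y) + (∑ x, ∑ y, ∑ z, F z y x) =
      6 * ∑ x, ∑ y, ∑ z, F x y z := by
    rw [a1, a2, a3, a4, a5]; ring
  exact this

/-- The certificate. -/
theorem cert [Fintype V] [DecidableEq V] (hr : ∀ u v, r v u = -r u v) {L : ℝ}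
    (hL : 2 / 5 ≤ L) (hS : ∀ S : Finset V, tS r S ≤ L * (S.card : ℝ) ^ 3) :
    ∑ u, ∑ v, ∑ w, (if isP r u v w then ∑ z, ∑ y,
      (2 * (bb (cls r u v w z) (cls r u v w y) (r z y) : ℝ) - 9000) else 0) ≤
    43100000 * (Fintype.card V : ℝ) ^ 2 * (L * (Fintype.card V : ℝ) ^ 3 - tS r univ) := by
  have hs := summed (r := r) hr
  have h3 := L3_ge (r := r)
  have h1 := L1_ge (r := r)
  have hR := LR_sum hr hL hS
  have hs' : 30 * ((∑ x : Fin 5 → V, L3 r (x 0) (x 1) (x 2) (x 3) (x 4) : ℕ) : ℝ) +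
    60 * ((∑ x : Fin 5 → V, LP r (x 0) (x 1) (x 2) (x 3) (x 4) : ℕ) : ℝ) +
    10 * ((∑ x : Fin 5 → V, LR r (x 0) (x 1) (x 2) (x 3) (x 4) : ℕ) : ℝ) +
    30 * ((∑ x : Fin 5 → V, L1 r (x 0) (x 1) (x 2) (x 3) (x 4) : ℕ) : ℝ) ≤
      1097389617568919040 * (Fintype.card V : ℝ) ^ 5 := by
    unfold bnd at hs
    exact_mod_cast hs
  have h3' : 18014398509481984 * (Fintype.card V : ℝ) ^ 5 ≤
      ((∑ x : Fin 5 → V, L3 r (x 0) (x 1) (x 2) (x 3) (x 4) : ℕ) : ℝ) := by exact_mod_cast h3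
  have h1' : 18014398509481984 * (Fintype.card V : ℝ) ^ 5 ≤
      ((∑ x : Fin 5 → V, L1 r (x 0) (x 1) (x 2) (x 3) (x 4) : ℕ) : ℝ) := by exact_mod_cast h1
  have hP : ((∑ x : Fin 5 → V, LP r (x 0) (x 1) (x 2) (x 3) (x 4) : ℕ) : ℝ) =
      3000000 * (∑ u, ∑ v, ∑ w, (if isP r u v w then ∑ z, ∑ y,
      (2 * (bb (cls r u v w z) (cls r u v w y) (r z y) : ℝ) - 9000) else 0)) +
      15 * 51630700000000 * (Fintype.card V : ℝ) ^ 2 *
        ∑ u, ∑ v, ∑ w, (if isP r u v w then (1 : ℝ) else 0) := by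
    rw [sum5]
    push_cast
    simp_rw [Finset.mul_sum]
    simp_rw [← Finset.sum_add_distrib]
    refine Finset.sum_congr rfl fun u _ => Finset.sum_congr rfl fun v _ =>
      Finset.sum_congr rfl fun w _ => ?_
    simp_rw [LP_eq hr]
    split_ifs with h
    · have e : ∑ z, ∑ y, (bb (cls r u v w y) (cls r u v w z) (r y z) : ℝ) =
        ∑ z, ∑ y, (bb (cls r u v w z) (cls r u v w y) (r z y) : ℝ) := Finset.sum_comm
      have e2 : ∀ z y, (3000000 * ((bb (cls r u v w z) (cls r u v w y) (r z y) : ℝ) +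
        (bb (cls r u v w y) (cls r u v w z) (r y z) : ℝ) - 9000) + 15 * 51630700000000) =
        3000000 * (bb (cls r u v w z) (cls r u v w y) (r z y) : ℝ) +
        3000000 * (bb (cls r u v w y) (cls r u v w z) (r y z) : ℝ) +
        (15 * 51630700000000 - 27000000000) := by intro z y; ring
      simp_rw [e2, Finset.sum_add_distrib, ← Finset.mul_sum]
      rw [e]
      simp only [Finset.sum_sub_distrib, Finset.sum_const, Finset.card_univ, nsmul_eq_mul,
        ← Finset.mul_sum]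
      ring
    · simp
  have hT := tS_eq (r := r) hr
  rw [hP] at hs'
  rw [hT]
  generalize (∑ u, ∑ v, ∑ w, (if isP r u v w then ∑ z, ∑ y,
      (2 * (bb (cls r u v w z) (cls r u v w y) (r z y) : ℝ) - 9000) else 0)) = Z at hs' ⊢
  have ht0 : 0 ≤ ∑ u, ∑ v, ∑ w, (if isP r u v w then (1 : ℝ) else 0) :=
    Finset.sum_nonneg fun _ _ => Finset.sum_nonneg fun _ _ => Finset.sum_nonneg fun _ _ => by
      split_ifs <;> norm_num
  have htS := hS univ
  rw [hT, Finset.card_univ] at htS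
  generalize (∑ u, ∑ v, ∑ w, (if isP r u v w then (1 : ℝ) else 0)) = τ at hs' htS ht0 ⊢
  have hn0 : (0 : ℝ) ≤ (Fintype.card V : ℝ) := Nat.cast_nonneg _
  generalize (Fintype.card V : ℝ) = n at *
  have hn5 : 0 ≤ (5 * L - 2) * n ^ 5 := mul_nonneg (by linarith) (by positivity)
  have hd : 0 ≤ n ^ 2 * (L * n ^ 3 - 6 * τ) := mul_nonneg (by positivity) (by linarith)
  nlinarith

end main

end Pool.Agent.H73.Flag
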