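import Pool.Agent.H73.Flag.Tab

/-! Kernel checks of the certificate, part 1 (generated). -/

set_option maxRecDepth 100000
namespace Pool.Agent.H73.Flag

/-- All nine checks of this part, run one after the other (keeps the memory low). -/
theorem chkAll1 : (chk 1 2 0 0 0 0 = true) ∧
    (chk 1 2 0 0 1 2 = true) ∧
    (chk 1 2 0 0 2 1 = true) ∧
    (chk 1 2 1 2 0 0 = true) ∧
    (chk 1 2 1 2 1 2 = true) ∧
    (chk 1 2 1 2 2 1 = true) ∧
    (chk 1 2 2 1 0 0 = true) ∧
    (chk 1 2 2 1 1 2 = true) ∧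
    (chk 1 2 2 1 2 1 = true) :=
  ⟨by decide +kernel,
   by decide +kernel,
   by decide +kernel,
   by decide +kernel,
   by decide +kernel,
   by decide +kernel,
   by decide +kernel,
   by decide +kernel,
   by decide +kernel⟩

theorem chk_100 : chk 1 2 0 0 0 0 = true := chkAll1.1

theorem chk_101 : chk 1 2 0 0 1 2 = true := chkAll1.2.1

theorem chk_102 : chk 1 2 0 0 2 1 = true := chkAll1.2.2.1

theorem chk_110 : chk 1 2 1 2 0 0 = true := chkAll1.2.2.2.1

theorem chk_111 : chk 1 2 1 2 1 2 = true := chkAll1.2.2.2.2.1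

theorem chk_112 : chk 1 2 1 2 2 1 = true := chkAll1.2.2.2.2.2.1

theorem chk_120 : chk 1 2 2 1 0 0 = true := chkAll1.2.2.2.2.2.2.1

theorem chk_121 : chk 1 2 2 1 1 2 = true := chkAll1.2.2.2.2.2.2.2.1

theorem chk_122 : chk 1 2 2 1 2 1 = true := chkAll1.2.2.2.2.2.2.2.2

end Pool.Agent.H73.Flag
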