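import Pool.Agent.H73.Flag.Tab

/-! Kernel checks of the certificate, part 2 (generated). -/

set_option maxRecDepth 100000
namespace Pool.Agent.H73.Flag

/-- All nine checks of this part, run one after the other (keeps the memory low). -/
theorem chkAll2 : (chk 2 1 0 0 0 0 = true) ∧
    (chk 2 1 0 0 1 2 = true) ∧
    (chk 2 1 0 0 2 1 = true) ∧
    (chk 2 1 1 2 0 0 = true) ∧
    (chk 2 1 1 2 1 2 = true) ∧
    (chk 2 1 1 2 2 1 = true) ∧
    (chk 2 1 2 1 0 0 = true) ∧
    (chk 2 1 2 1 1 2 = true) ∧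
    (chk 2 1 2 1 2 1 = true) :=
  ⟨by decide +kernel,
   by decide +kernel,
   by decide +kernel,
   by decide +kernel,
   by decide +kernel,
   by decide +kernel,
   by decide +kernel,
   by decide +kernel,
   by decide +kernel⟩

theorem chk_200 : chk 2 1 0 0 0 0 = true := chkAll2.1

theorem chk_201 : chk 2 1 0 0 1 2 = true := chkAll2.2.1

theorem chk_202 : chk 2 1 0 0 2 1 = true := chkAll2.2.2.1

theorem chk_210 : chk 2 1 1 2 0 0 = true := chkAll2.2.2.2.1

theorem chk_211 : chk 2 1 1 2 1 2 = true := chkAll2.2.2.2.2.1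

theorem chk_212 : chk 2 1 1 2 2 1 = true := chkAll2.2.2.2.2.2.1

theorem chk_220 : chk 2 1 2 1 0 0 = true := chkAll2.2.2.2.2.2.2.1

theorem chk_221 : chk 2 1 2 1 1 2 = true := chkAll2.2.2.2.2.2.2.2.1

theorem chk_222 : chk 2 1 2 1 2 1 = true := chkAll2.2.2.2.2.2.2.2.2

end Pool.Agent.H73.Flag
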