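import Pool.Agent.H73.Flag.Stab1

/-! # The extremal constant is at most `2 / 5` -/

set_option autoImplicit false
set_option linter.unusedSectionVars false
namespace Pool.Agent.H73.Flag

open Finset

section
variable {V : Type*} {r : V → V → Fin 3}

lemma tS_nonneg (S : Finset V) : 0 ≤ tS r S :=
  Finset.sum_nonneg fun _ _ => Finset.sum_nonneg fun _ _ => Finset.sum_nonneg fun _ _ =>
    P_nonneg _ _ _

lemma tS_le_cube (S : Finset V) : tS r S ≤ (S.card : ℝ) ^ 3 := by
  calc tS r S ≤ ∑ x ∈ S, ∑ y ∈ S, ∑ z ∈ S, (1 : ℝ) :=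
        Finset.sum_le_sum fun _ _ => Finset.sum_le_sum fun _ _ => Finset.sum_le_sum fun _ _ =>
          P_le_one _ _ _
    _ = _ := by simp only [Finset.sum_const, nsmul_eq_mul, mul_one]; ring

/-- The set of densities of induced paths. -/
def LL : Set ℝ := {q | ∃ (n : ℕ) (r : Fin n → Fin n → Fin 3), 0 < n ∧ (∀ u v, r v u = -r u v) ∧
  q = tS r univ / (n : ℝ) ^ 3}

lemma LL_nonempty : LL.Nonempty :=
  ⟨_, 1, fun _ _ => 0, one_pos, fun _ _ => (show (0 : Fin 3) = -0 by decide), rfl⟩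

lemma LL_bdd : BddAbove LL := by
  refine ⟨1, ?_⟩
  rintro q ⟨n, r, hn, hr, rfl⟩
  have hn' : (0 : ℝ) < n := by exact_mod_cast hn
  rw [div_le_one (by positivity)]
  have := tS_le_cube (r := r) univ
  rwa [Finset.card_univ, Fintype.card_fin] at this

lemma tS_equiv {W : Type*} [Fintype V] [Fintype W] (e : W ≃ V) :
    tS (fun x y => r (e x) (e y)) univ = tS r univ := by
  unfold tS
  rw [← Equiv.sum_comp e]
  refine Finset.sum_congr rfl fun x _ => ?_
  rw [← Equiv.sum_comp e]
  refine Finset.sum_congr rfl fun y _ => ?_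
  rw [← Equiv.sum_comp e]
  rfl

lemma le_L [Fintype V] (hr : ∀ u v, r v u = -r u v) :
    tS r univ ≤ sSup LL * (Fintype.card V : ℝ) ^ 3 := by
  rcases isEmpty_or_nonempty V with hV | hV
  · have : tS r univ = 0 := by
      unfold tS
      simp
    rw [this]
    simp
  · have hn : 0 < Fintype.card V := Fintype.card_pos
    have hn' : (0 : ℝ) < Fintype.card V := by exact_mod_cast hn
    have e := (Fintype.equivFin V).symm
    have h := le_csSup LL_bdd (show tS (fun x y => r (e x) (e y)) univ /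
      ((Fintype.card V : ℕ) : ℝ) ^ 3 ∈ LL from
      ⟨Fintype.card V, _, hn, fun u v => hr _ _, rfl⟩)
    rwa [div_le_iff₀ (by positivity), tS_equiv] at h

lemma le_L_sub (hr : ∀ u v, r v u = -r u v) (S : Finset V) :
    tS r S ≤ sSup LL * (S.card : ℝ) ^ 3 := by
  have h := le_L (V := S) (r := fun x y => r x.1 y.1) (fun u v => hr _ _)
  have e : tS (fun (x y : S) => r x.1 y.1) univ = tS r S := by
    unfold tS
    rw [← Finset.sum_coe_sort S]
    refine Finset.sum_congr rfl fun x _ => ?_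
    rw [← Finset.sum_coe_sort S]
    refine Finset.sum_congr rfl fun y _ => ?_
    rw [← Finset.sum_coe_sort S]
    rfl
  rw [e, Fintype.card_coe] at h
  exact h

/-- blow-up -/
lemma tS_blow [Fintype V] (k : ℕ) :
    tS (fun (x y : V × Fin k) => r x.1 y.1) univ = (k : ℝ) ^ 3 * tS r univ := by
  unfold tS
  have h : ∀ (f : V → ℝ), ∑ x : V × Fin k, f x.1 = k * ∑ x, f x := by
    intro f
    rw [Fintype.sum_prod_type]
    simp only [Finset.sum_const, Finset.card_univ, Fintype.card_fin, nsmul_eq_mul,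
      ← Finset.mul_sum]
  have h1 : ∀ x y : V × Fin k, ∑ z : V × Fin k, P (fun (x y : V × Fin k) => r x.1 y.1) x y z =
      k * ∑ z, P r x.1 y.1 z := fun x y => h (fun z => P r x.1 y.1 z)
  simp_rw [h1]
  have h2 : ∀ x : V × Fin k, ∑ y : V × Fin k, (k : ℝ) * ∑ z, P r x.1 y.1 z =
      k * (k * ∑ y, ∑ z, P r x.1 y z) := by
    intro x
    rw [h (fun y => (k : ℝ) * ∑ z, P r x.1 y z), ← Finset.mul_sum]
  simp_rw [h2]
  rw [h (fun x => (k : ℝ) * (k * ∑ y, ∑ z, P r x y z)), ← Finset.mul_sum, ← Finset.mul_sum]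
  ring

lemma P_diag (hr : ∀ u v, r v u = -r u v) (v y : V) : P r v v y = 0 := by
  have h0 : r v v = 0 := by
    have key : ∀ a : Fin 3, a = -a → a = 0 := by decide
    exact key _ (hr v v)
  have key : ∀ a : Fin 3, pb 0 a (-a) = false := by decide
  unfold P
  rw [h0, hr v y, key]
  simp

lemma P_diag' (hr : ∀ u v, r v u = -r u v) (v y : V) : P r v y v = 0 := by
  rw [← P_swap hr]; exact P_diag hr v y

variable [Fintype V] [DecidableEq V]

lemma D_erase (hr : ∀ u v, r v u = -r u v) (v : V) :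
    D r v = ∑ y ∈ univ.erase v, ∑ z ∈ univ.erase v, P r v y z := by
  unfold D
  have h1 : ∀ y, ∑ z, P r v y z = ∑ z ∈ univ.erase v, P r v y z := by
    intro y
    rw [← Finset.add_sum_erase univ _ (Finset.mem_univ v), P_diag' hr, zero_add]
  simp_rw [h1]
  rw [← Finset.add_sum_erase univ _ (Finset.mem_univ v)]
  simp [P_diag hr]

lemma tS_erase (hr : ∀ u v, r v u = -r u v) (v : V) :
    tS r univ = tS r (univ.erase v) + 3 * D r v := by
  have h3 : ∀ (S : Finset V) (f : V → ℝ), v ∈ S → ∑ x ∈ S, f x = f v + ∑ x ∈ S.erase v, f x :=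
    fun S f hv => (Finset.add_sum_erase S f hv).symm
  have e1 : ∀ x y, ∑ z, P r x y z = P r x y v + ∑ z ∈ univ.erase v, P r x y z := fun x y =>
    h3 univ _ (Finset.mem_univ v)
  have e2 : ∀ x, ∑ y, ∑ z, P r x y z = ∑ z ∈ univ.erase v, P r x v z +
      ∑ y ∈ univ.erase v, P r x y v + ∑ y ∈ univ.erase v, ∑ z ∈ univ.erase v, P r x y z := by
    intro x
    simp_rw [e1 x]
    rw [Finset.sum_add_distrib, h3 univ (fun y => P r x y v) (Finset.mem_univ v),
      h3 univ (fun y => ∑ z ∈ univ.erase v, P r x y z) (Finset.mem_univ v)]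
    have : P r x v v = 0 := by rw [← P_rot]; exact P_diag hr v x
    rw [this]
    ring
  have e3 : tS r univ = D r v + (∑ x ∈ univ.erase v, (∑ z ∈ univ.erase v, P r x v z +
      ∑ y ∈ univ.erase v, P r x y v + ∑ y ∈ univ.erase v, ∑ z ∈ univ.erase v, P r x y z)) := by
    unfold tS D
    rw [h3 univ _ (Finset.mem_univ v)]
    congr 1
    exact Finset.sum_congr rfl fun x _ => e2 x
  rw [e3]
  simp_rw [Finset.sum_add_distrib]
  have f1 : ∑ x ∈ univ.erase v, ∑ z ∈ univ.erase v, P r x v z = D r v := by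
    rw [D_erase hr, Finset.sum_comm]
    refine Finset.sum_congr rfl fun z _ => Finset.sum_congr rfl fun x _ => ?_
    rw [← P_rot]
  have f2 : ∑ x ∈ univ.erase v, ∑ y ∈ univ.erase v, P r x y v = D r v := by
    rw [D_erase hr]
    refine Finset.sum_congr rfl fun x _ => Finset.sum_congr rfl fun y _ => ?_
    exact P_rot v x y
  rw [f1, f2]
  unfold tS
  ring

/-- replacing `v` by a copy of `u` -/
lemma clone (hr : ∀ u v, r v u = -r u v)
    (hmax : ∀ r' : V → V → Fin 3, (∀ u v, r' v u = -r' u v) → tS r' univ ≤ tS r univ) (u v : V) :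
    D r u ≤ D r v + 2 * Fintype.card V := by
  rcases eq_or_ne u v with rfl | huv
  · have : (0 : ℝ) ≤ Fintype.card V := Nat.cast_nonneg _
    linarith
  obtain ⟨σ, hσ⟩ : ∃ σ : V → V, σ = fun x => if x = v then u else x := ⟨_, rfl⟩
  have hσv : σ v = u := by rw [hσ]; simp
  have hσx : ∀ x ∈ univ.erase v, σ x = x := by
    intro x hx
    rw [hσ]
    simp [Finset.ne_of_mem_erase hx]
  have hr' : ∀ x y, (fun x y => r (σ x) (σ y)) y x = -(fun x y => r (σ x) (σ y)) x y :=
    fun x y => hr _ _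
  have h1 := hmax _ hr'
  rw [tS_erase hr' v, tS_erase hr v] at h1
  have h2 : tS (fun x y => r (σ x) (σ y)) (univ.erase v) = tS r (univ.erase v) := by
    unfold tS
    refine Finset.sum_congr rfl fun x hx => Finset.sum_congr rfl fun y hy =>
      Finset.sum_congr rfl fun z hz => ?_
    unfold P
    simp only [hσx x hx, hσx y hy, hσx z hz]
  rw [h2] at h1
  have h3 : D (fun x y => r (σ x) (σ y)) v =
      ∑ y ∈ univ.erase v, ∑ z ∈ univ.erase v, P r u y z := by
    rw [D_erase hr']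
    refine Finset.sum_congr rfl fun y hy => Finset.sum_congr rfl fun z hz => ?_
    unfold P
    simp only [hσx y hy, hσx z hz, hσv]
  rw [h3] at h1
  have h4 : D r u ≤ ∑ y ∈ univ.erase v, ∑ z ∈ univ.erase v, P r u y z + 2 * Fintype.card V := by
    unfold D
    have e1 : ∀ y, ∑ z, P r u y z = P r u y v + ∑ z ∈ univ.erase v, P r u y z := fun y =>
      (Finset.add_sum_erase univ _ (Finset.mem_univ v)).symm
    rw [← Finset.add_sum_erase univ _ (Finset.mem_univ v)]
    simp_rw [e1, Finset.sum_add_distrib]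
    have c1 : ∑ z ∈ univ.erase v, P r u v z ≤ (Fintype.card V : ℝ) - 1 := by
      calc _ ≤ ∑ z ∈ univ.erase v, (1 : ℝ) := Finset.sum_le_sum fun _ _ => P_le_one _ _ _
        _ = _ := by
          rw [Finset.sum_const, nsmul_eq_mul, mul_one, Finset.card_erase_of_mem (Finset.mem_univ v),
            Finset.card_univ, Nat.cast_sub (Fintype.card_pos_iff.2 ⟨v⟩)]
          simp
    have c2 : ∑ y ∈ univ.erase v, P r u y v ≤ (Fintype.card V : ℝ) - 1 := by
      calc _ ≤ ∑ z ∈ univ.erase v, (1 : ℝ) := Finset.sum_le_sum fun _ _ => P_le_one _ _ _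
        _ = _ := by
          rw [Finset.sum_const, nsmul_eq_mul, mul_one, Finset.card_erase_of_mem (Finset.mem_univ v),
            Finset.card_univ, Nat.cast_sub (Fintype.card_pos_iff.2 ⟨v⟩)]
          simp
    have c3 := P_le_one (r := r) u v v
    linarith
  linarith

lemma exists_max (V : Type*) [Fintype V] [DecidableEq V] :
    ∃ r : V → V → Fin 3, (∀ u v, r v u = -r u v) ∧
      ∀ r' : V → V → Fin 3, (∀ u v, r' v u = -r' u v) → tS r' univ ≤ tS r univ := by
  classical
  obtain ⟨r, hr, hmax⟩ := Finset.exists_max_image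
    (univ.filter (fun r : V → V → Fin 3 => ∀ u v, r v u = -r u v)) (fun r => tS r univ)
    ⟨fun _ _ => 0, by
      simp only [Finset.mem_filter, Finset.mem_univ, true_and]
      intro _ _; decide⟩
  refine ⟨r, (Finset.mem_filter.1 hr).2, fun r' hr' => hmax r' ?_⟩
  exact Finset.mem_filter.2 ⟨Finset.mem_univ _, hr'⟩

lemma sum_D : ∑ v, D r v = tS r univ := rfl

theorem sSup_le : sSup LL ≤ 2 / 5 := by
  by_contra hc
  push Not at hc
  obtain ⟨L, hLd⟩ : ∃ L, L = sSup LL := ⟨_, rfl⟩
  rw [← hLd] at hc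
  have key : ∀ e : ℝ, 0 < e → e ≤ 1 / 1000000000 → L - 2 / 5 ≤ 2 * e := by
    intro e he he'
    obtain ⟨q, ⟨n, r₀, hn, hr₀, rfl⟩, hq⟩ := exists_lt_of_lt_csSup LL_nonempty
      (show sSup LL - e / 2 < sSup LL by linarith)
    rw [← hLd] at hq
    obtain ⟨k, hk⟩ := exists_nat_gt (4 / e)
    have hk0 : (0 : ℝ) < k := lt_trans (by positivity) hk
    have hk1 : 0 < k := by exact_mod_cast hk0
    have hn' : (0 : ℝ) < n := by exact_mod_cast hn
    have hn1 : (1 : ℝ) ≤ n := by exact_mod_cast hn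
    obtain ⟨r, hr, hmax⟩ := exists_max (Fin n × Fin k)
    have hne : Nonempty (Fin n × Fin k) := ⟨(⟨0, hn⟩, ⟨0, hk1⟩)⟩
    have hcard : (Fintype.card (Fin n × Fin k) : ℝ) = n * k := by
      rw [Fintype.card_prod, Fintype.card_fin, Fintype.card_fin]; push_cast; rfl
    have hb := hmax (fun x y => r₀ x.1 y.1) (fun u v => hr₀ _ _)
    rw [tS_blow] at hb
    have hq2 : (L - e / 2) * (n : ℝ) ^ 3 ≤ tS r₀ univ := by
      have := hq.le
      rwa [le_div_iff₀ (by positivity)] at this
    have ht : (L - e / 2) * (Fintype.card (Fin n × Fin k) : ℝ) ^ 3 ≤ tS r univ := by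
      rw [hcard]
      calc (L - e / 2) * ((n : ℝ) * k) ^ 3 = (k : ℝ) ^ 3 * ((L - e / 2) * (n : ℝ) ^ 3) := by ring
        _ ≤ (k : ℝ) ^ 3 * tS r₀ univ := mul_le_mul_of_nonneg_left hq2 (by positivity)
        _ ≤ _ := hb
    have hN : 4 / e < (Fintype.card (Fin n × Fin k) : ℝ) := by
      rw [hcard]; nlinarith
    have hcl := clone hr hmax
    have hsum : ∑ v, D r v = tS r univ := sum_D
    have hLe : tS r univ ≤ L * (Fintype.card (Fin n × Fin k) : ℝ) ^ 3 := by
      rw [hLd]; exact le_L hr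
    have hS : ∀ S : Finset (Fin n × Fin k), tS r S ≤ L * (S.card : ℝ) ^ 3 := by
      rw [hLd]; exact le_L_sub hr
    have hNpos : (0 : ℝ) < Fintype.card (Fin n × Fin k) := lt_trans (by positivity) hN
    have h4 : 4 < Fintype.card (Fin n × Fin k) * e := by
      rwa [div_lt_iff₀ he] at hN
    have hup : ∀ v, D r v * Fintype.card (Fin n × Fin k) ≤ tS r univ +
        2 * (Fintype.card (Fin n × Fin k) : ℝ) ^ 2 := by
      intro v
      have : ∑ u : Fin n × Fin k, D r v ≤
          ∑ u, (D r u + 2 * (Fintype.card (Fin n × Fin k) : ℝ)) :=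
        Finset.sum_le_sum fun u _ => hcl v u
      rw [Finset.sum_add_distrib, hsum] at this
      simp only [Finset.sum_const, Finset.card_univ, nsmul_eq_mul] at this
      linarith
    have hlo : ∀ v, tS r univ ≤ D r v * Fintype.card (Fin n × Fin k) +
        2 * (Fintype.card (Fin n × Fin k) : ℝ) ^ 2 := by
      intro v
      have : ∑ u, D r u ≤ ∑ u : Fin n × Fin k,
          (D r v + 2 * (Fintype.card (Fin n × Fin k) : ℝ)) :=
        Finset.sum_le_sum fun u _ => hcl u v
      rw [Finset.sum_add_distrib, hsum] at this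
      simp only [Finset.sum_const, Finset.card_univ, nsmul_eq_mul] at this
      linarith
    obtain ⟨N, hNd⟩ : ∃ N, N = (Fintype.card (Fin n × Fin k) : ℝ) := ⟨_, rfl⟩
    rw [← hNd] at ht hN hLe hNpos h4
    have h5 : 4 * N ^ 2 ≤ e * N ^ 3 := by
      have : N ^ 2 * 4 ≤ N ^ 2 * (N * e) := mul_le_mul_of_nonneg_left h4.le (by positivity)
      nlinarith
    refine stab hr hc.le he.le he' hS ?_ ?_ ?_
    · rw [← hNd]
      have : 0 ≤ e * N ^ 3 := by positivity
      nlinarith
    · intro v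
      have h6 := hlo v
      rw [← hNd] at h6 ⊢
      have h7 : ((L - e) * N ^ 2) * N ≤ D r v * N := by nlinarith
      exact le_of_mul_le_mul_right h7 hNpos
    · intro v
      have h6 := hup v
      rw [← hNd] at h6 ⊢
      have h7 : D r v * N ≤ ((L + e) * N ^ 2) * N := by nlinarith
      exact le_of_mul_le_mul_right h7 hNpos
  have h1 := key ((L - 2 / 5) / 4 ⊓ 1 / 1000000000) (lt_inf_iff.2 ⟨by linarith, by norm_num⟩)
    inf_le_right
  have h2 : (L - 2 / 5) / 4 ⊓ 1 / 1000000000 ≤ (L - 2 / 5) / 4 := inf_le_left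
  linarith

/-- The upper bound. -/
theorem upper {V : Type*} [Fintype V] {r : V → V → Fin 3} (hr : ∀ u v, r v u = -r u v) :
    tS r univ ≤ 2 / 5 * (Fintype.card V : ℝ) ^ 3 :=
  (le_L hr).trans (mul_le_mul_of_nonneg_right sSup_le (by positivity))

end

end Pool.Agent.H73.Flag
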