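import Mathlib

/-! # Polynomial inequalities for the local structure at a vertex -/

set_option autoImplicit false
namespace Pool.Agent.H73.Flag

open Finset

/-- normal relation between the parts -/
def nm (i j : Fin 4) : Fin 3 := if j = i + 1 then 1 else if j = i + 3 then 2 else 0

/-- the part in which a vertex with relation `ρ` to a vertex of part `b` looks normal -/
def row (ρ : Fin 3) (b : Fin 4) : Fin 4 := if ρ = 1 then b + 3 else if ρ = 2 then b + 1 else b + 2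

def ph (b : Fin 4) (ρ : Fin 3) (b' : Fin 4) (ρ' : Fin 3) : ℤ :=
  if (b ≠ b' ∧ row ρ b = row ρ' b') ∨ (b = b' ∧ row ρ b ≠ row ρ' b') then 1 else 0

/-- twice the correction functional -/
def kk (a b : Fin 4) (ρ : Fin 3) (c : Fin 4) (ρ' : Fin 3) : ℤ :=
  (if b ≠ a ∧ row ρ b ≠ a then 1 else 0) * (1 - 2 * (if c = a then 1 else 0)
    - 2 * (if c = a ∧ row ρ b = row ρ' c then 1 else 0))
  - (if b ≠ a ∧ row ρ b ≠ a then 1 else 0) * (if c ≠ a ∧ row ρ' c ≠ a then 1 else 0) *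
    ((if b ≠ c then 1 else 0) + (if b ≠ c ∧ row ρ b = row ρ' c then 1 else 0)
      + (if b = c ∧ row ρ b ≠ row ρ' c then 1 else 0))

section
variable (m : Fin 4 → Fin 3 → ℝ)

def xm (b : Fin 4) : ℝ := ∑ ρ, m b ρ
def Em (a : Fin 4) : ℝ := ∑ b, ∑ ρ, (if b ≠ a ∧ row ρ b ≠ a then 1 else 0) * m b ρ
def sm (a : Fin 4) : ℝ := ∑ b, ∑ ρ, (if row ρ b = a then 1 else 0) * m b ρ
def Ym : ℝ := ∑ b, ∑ ρ, m b ρ
def f2 : ℝ := ∑ b, ∑ ρ, ∑ b', ∑ ρ', (ph b ρ b' ρ' : ℝ) * m b ρ * m b' ρ'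
def K2 (a : Fin 4) : ℝ := ∑ b, ∑ ρ, ∑ c, ∑ ρ', (kk a b ρ c ρ' : ℝ) * m b ρ * m c ρ'

end

lemma polyA {c1 c2 c3 o1 p21 p31 o2 p12 p32 o3 p23 p13 X : ℝ}
    (h21 : 0 ≤ p21) (h31 : 0 ≤ p31) (h12 : 0 ≤ p12) (h32 : 0 ≤ p32) (h23 : 0 ≤ p23)
    (h13 : 0 ≤ p13) (h1 : o1 + p21 + p31 ≤ X) (h2 : o2 + p12 + p32 ≤ X)
    (h3 : o3 + p23 + p13 ≤ X) :
    (o1 + o2 + o3) ^ 2 + (c1 + p12 + p13) ^ 2 + (c2 + p21 + p23) ^ 2 + (c3 + p31 + p32) ^ 2 +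
    (c1 + c2 + c3) ^ 2 + (o1 + p21 + p31) ^ 2 + (o2 + p12 + p32) ^ 2 + (o3 + p23 + p13) ^ 2 -
    2 * (c1 ^ 2 + c2 ^ 2 + c3 ^ 2 + o1 ^ 2 + o2 ^ 2 + o3 ^ 2 + p21 ^ 2 + p31 ^ 2 + p12 ^ 2 +
      p32 ^ 2 + p23 ^ 2 + p13 ^ 2) ≤
    2 / 3 * (o1 + p21 + p31 + o2 + p12 + p32 + o3 + p23 + p13) ^ 2 + 2 / 3 * (c1 + c2 + c3) ^ 2
    - 2 * (p21 + p31 + p12 + p32 + p23 + p13) *
      (o1 + p21 + p31 + o2 + p12 + p32 + o3 + p23 + p13 - (c1 + c2 + c3) / 3 - 2 * X)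
    + 2 / 3 * (p21 + p31 + p12 + p32 + p23 + p13) ^ 2 := by
  have e1 := mul_nonneg (sub_nonneg.2 h1) (add_nonneg h21 h31)
  have e2 := mul_nonneg (sub_nonneg.2 h2) (add_nonneg h12 h32)
  have e3 := mul_nonneg (sub_nonneg.2 h3) (add_nonneg h23 h13)
  have q1 := mul_nonneg h21 h31
  have q2 := mul_nonneg h12 h32
  have q3 := mul_nonneg h23 h13
  have r1 := sq_nonneg (p12 - p13)
  have r2 := sq_nonneg (p21 - p23)
  have r3 := sq_nonneg (p31 - p32)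
  have t1 := sq_nonneg ((c1 - (p12 + p13)) -
    (c1 + c2 + c3 - (p21 + p31 + p12 + p32 + p23 + p13)) / 3)
  have t2 := sq_nonneg ((c2 - (p21 + p23)) -
    (c1 + c2 + c3 - (p21 + p31 + p12 + p32 + p23 + p13)) / 3)
  have t3 := sq_nonneg ((c3 - (p31 + p32)) -
    (c1 + c2 + c3 - (p21 + p31 + p12 + p32 + p23 + p13)) / 3)
  have u1 := sq_nonneg (o1 + p21 + p31 - (o2 + p12 + p32))
  have u2 := sq_nonneg (o1 + p21 + p31 - (o3 + p23 + p13))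
  have u3 := sq_nonneg (o2 + p12 + p32 - (o3 + p23 + p13))
  linarith

lemma fin4 (a : Fin 4) : a = 0 ∨ a = 1 ∨ a = 2 ∨ a = 3 := by revert a; decide

lemma A_ii {m : Fin 4 → Fin 3 → ℝ} (hm : ∀ b ρ, 0 ≤ m b ρ) {X : ℝ} (hX : ∀ b, xm m b ≤ X)
    (a : Fin 4) :
    f2 m ≤ 2 / 3 * (Ym m - xm m a) ^ 2 + 2 / 3 * (xm m a) ^ 2 -
      2 * Em m a * (Ym m - xm m a * (4 / 3) - 2 * X) + 2 / 3 * (Em m a) ^ 2 := by
  have h := polyA (c1 := m a 2) (c2 := m a 0) (c3 := m a 1)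
    (o1 := m (a + 1) 1) (hm (a + 1) 2) (hm (a + 1) 0)
    (o2 := m (a + 2) 0) (hm (a + 2) 1) (hm (a + 2) 2)
    (o3 := m (a + 3) 2) (p23 := m (a + 3) 1) (p13 := m (a + 3) 0) (hm _ _) (hm _ _) (X := X)
    (by have := hX (a + 1); simp only [xm, Fin.sum_univ_three] at this; linarith)
    (by have := hX (a + 2); simp only [xm, Fin.sum_univ_three] at this; linarith)
    (by have := hX (a + 3); simp only [xm, Fin.sum_univ_three] at this; linarith)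
  rcases fin4 a with rfl | rfl | rfl | rfl <;>
  simp (decide := true) only [f2, xm, Em, Ym, Fin.sum_univ_four, Fin.sum_univ_three, ph, if_true,
    if_false, Int.cast_one, Int.cast_zero, one_mul, zero_mul, add_zero, zero_add,
    Fin.reduceAdd] at h ⊢ <;>
  linarith

lemma sx_sum (m : Fin 4 → Fin 3 → ℝ) (a : Fin 4) : sm m a + xm m a + Em m a = Ym m := by
  rcases fin4 a with rfl | rfl | rfl | rfl <;>
  simp (decide := true) only [sm, xm, Em, Ym, Fin.sum_univ_four, Fin.sum_univ_three, if_true,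
    if_false, one_mul, zero_mul, add_zero, zero_add] <;>
  ring

lemma s_sum (m : Fin 4 → Fin 3 → ℝ) : ∑ a, sm m a = Ym m := by
  simp (decide := true) only [sm, Ym, Fin.sum_univ_four, Fin.sum_univ_three, if_true,
    if_false, one_mul, zero_mul, add_zero, zero_add]
  ring

lemma x_sum (m : Fin 4 → Fin 3 → ℝ) : ∑ a, xm m a = Ym m := rfl

lemma A_iii (m : Fin 4 → Fin 3 → ℝ) :
    f2 m ≤ 1 / 3 * ∑ a, (sm m a) ^ 2 + ∑ a, (xm m a) ^ 2 := by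
  have c : ∀ x y z : ℝ, (x + y + z) ^ 2 ≤ 3 * (x ^ 2 + y ^ 2 + z ^ 2) := by
    intro x y z
    nlinarith [sq_nonneg (x - y), sq_nonneg (x - z), sq_nonneg (y - z)]
  have c0 := c (m 1 1) (m 2 0) (m 3 2)
  have c1 := c (m 2 1) (m 3 0) (m 0 2)
  have c2 := c (m 3 1) (m 0 0) (m 1 2)
  have c3 := c (m 0 1) (m 1 0) (m 2 2)
  simp (decide := true) only [f2, xm, sm, Fin.sum_univ_four, Fin.sum_univ_three, ph, if_true,
    if_false, Int.cast_one, Int.cast_zero, one_mul, zero_mul, add_zero, zero_add]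
  nlinarith

lemma Phi_nonneg {x p e : ℝ} (h1 : 242 / 1000 ≤ x) (h2 : x ≤ 258 / 1000) (he : 0 ≤ e)
    (he' : e ≤ 1 / 10) :
    0 ≤ (1 / 10 + e) * (1 / 2 - 2 * x + p - e / 2) - (1 - x) ^ 2 / 3 - p * x + 3 / 4 * p ^ 2
      + 198 / 1000 - 16 / 1000 * e + e ^ 2 / 3 := by
  have hA : 0 ≤ (1 / 10 + e) * (1 / 2 - 2 * (242 / 1000) + p - e / 2) -
      (1 - 242 / 1000) ^ 2 / 3 - p * (242 / 1000) +
      3 / 4 * p ^ 2 + 198 / 1000 - 16 / 1000 * e + e ^ 2 / 3 := by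
    have q1 := sq_nonneg (p - (142 / 1000 - e) / (3 / 2))
    have q2 := mul_nonneg he (sub_nonneg.2 he')
    linarith
  have hB : 0 ≤ (1 / 10 + e) * (1 / 2 - 2 * (258 / 1000) + p - e / 2) -
      (1 - 258 / 1000) ^ 2 / 3 - p * (258 / 1000) +
      3 / 4 * p ^ 2 + 198 / 1000 - 16 / 1000 * e + e ^ 2 / 3 := by
    have q1 := sq_nonneg (p - (158 / 1000 - e) / (3 / 2))
    have q2 := mul_nonneg he (sub_nonneg.2 he')
    linarith
  have h3 := mul_nonneg (sub_nonneg.2 h2) hA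
  have h4 := mul_nonneg (sub_nonneg.2 h1) hB
  have h5 := mul_nonneg (sub_nonneg.2 h1) (sub_nonneg.2 h2)
  linarith

lemma max_three {c1 c2 c3 : ℝ} (hc1 : 0 ≤ c1) (hc2 : 0 ≤ c2) (hc3 : 0 ≤ c3) :
    ∃ cm, c1 ≤ cm ∧ c2 ≤ cm ∧ c3 ≤ cm ∧
      cm ^ 2 + (c1 + c2 + c3 - cm) ^ 2 / 2 ≤ c1 ^ 2 + c2 ^ 2 + c3 ^ 2 ∧
      0 ≤ c1 + c2 + c3 - cm := by
  rcases le_total c1 c2 with h | h
  · rcases le_total c2 c3 with h' | h'
    · exact ⟨c3, by linarith, h', le_refl _, by nlinarith [sq_nonneg (c1 - c2)], by linarith⟩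
    · exact ⟨c2, h, le_refl _, h', by nlinarith [sq_nonneg (c1 - c3)], by linarith⟩
  · rcases le_total c1 c3 with h' | h'
    · exact ⟨c3, h', by linarith, le_refl _, by nlinarith [sq_nonneg (c1 - c2)], by linarith⟩
    · exact ⟨c1, le_refl _, h, h', by nlinarith [sq_nonneg (c2 - c3)], by linarith⟩

lemma polyB {c1 c2 c3 o1 p21 p31 o2 p12 p32 o3 p23 p13 : ℝ}
    (hc1 : 0 ≤ c1) (hc2 : 0 ≤ c2) (hc3 : 0 ≤ c3)
    (h21 : 0 ≤ p21) (h31 : 0 ≤ p31) (h12 : 0 ≤ p12) (h32 : 0 ≤ p32) (h23 : 0 ≤ p23)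
    (h13 : 0 ≤ p13) (h1 : o1 + p21 + p31 ≤ 258 / 1000) (h2 : o2 + p12 + p32 ≤ 258 / 1000)
    (h3 : o3 + p23 + p13 ≤ 258 / 1000) (h0 : c1 + c2 + c3 ≤ 258 / 1000)
    (h0' : 242 / 1000 ≤ c1 + c2 + c3)
    (hY : c1 + c2 + c3 + (o1 + p21 + p31) + (o2 + p12 + p32) + (o3 + p23 + p13) = 1)
    (he : p21 + p31 + p12 + p32 + p23 + p13 ≤ 1 / 10)
    (hf : 396 / 1000 ≤ (o1 + o2 + o3) ^ 2 + (c1 + p12 + p13) ^ 2 + (c2 + p21 + p23) ^ 2 +
      (c3 + p31 + p32) ^ 2 +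
    (c1 + c2 + c3) ^ 2 + (o1 + p21 + p31) ^ 2 + (o2 + p12 + p32) ^ 2 + (o3 + p23 + p13) ^ 2 -
    2 * (c1 ^ 2 + c2 ^ 2 + c3 ^ 2 + o1 ^ 2 + o2 ^ 2 + o3 ^ 2 + p21 ^ 2 + p31 ^ 2 + p12 ^ 2 +
      p32 ^ 2 + p23 ^ 2 + p13 ^ 2)) :
    0 ≤ (p21 + p31 + p12 + p32 + p23 + p13) -
      2 * (p21 + p31 + p12 + p32 + p23 + p13) * (c1 + c2 + c3) -
      2 * (c1 * (p12 + p13) + c2 * (p21 + p23) + c3 * (p31 + p32)) -
      (p21 + p31 + p12 + p32 + p23 + p13) ^ 2 -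
      ((p12 + p13) ^ 2 + (p21 + p23) ^ 2 + (p31 + p32) ^ 2) +
      2 * (p21 ^ 2 + p31 ^ 2 + p12 ^ 2 + p32 ^ 2 + p23 ^ 2 + p13 ^ 2) := by
  obtain ⟨cm, k1, k2, k3, kq, kp⟩ := max_three hc1 hc2 hc3
  obtain ⟨ε, hε⟩ : ∃ ε, ε = p21 + p31 + p12 + p32 + p23 + p13 := ⟨_, rfl⟩
  obtain ⟨x, hx⟩ : ∃ x, x = c1 + c2 + c3 := ⟨_, rfl⟩
  have he0 : 0 ≤ ε := by rw [hε]; positivity
  rw [← hε] at he
  rw [← hx] at h0 h0' kp
  have hPhi := Phi_nonneg (x := x) (p := x - cm) (e := ε) h0' h0 he0 he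
  have a1 := mul_nonneg (sub_nonneg.2 k1) (add_nonneg h12 h13)
  have a2 := mul_nonneg (sub_nonneg.2 k2) (add_nonneg h21 h23)
  have a3 := mul_nonneg (sub_nonneg.2 k3) (add_nonneg h31 h32)
  have r1 := sq_nonneg (p12 - p13)
  have r2 := sq_nonneg (p21 - p23)
  have r3 := sq_nonneg (p31 - p32)
  have hK : ε * (1 - 4 * x + 2 * (x - cm) - ε) ≤ ε -
      2 * ε * x -
      2 * (c1 * (p12 + p13) + c2 * (p21 + p23) + c3 * (p31 + p32)) -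
      ε ^ 2 -
      ((p12 + p13) ^ 2 + (p21 + p23) ^ 2 + (p31 + p32) ^ 2) +
      2 * (p21 ^ 2 + p31 ^ 2 + p12 ^ 2 + p32 ^ 2 + p23 ^ 2 + p13 ^ 2) := by
    have e1 : ε * (1 - 4 * x + 2 * (x - cm) - ε) = ε - 2 * ε * x - ε ^ 2 -
      2 * cm * (p21 + p31 + p12 + p32 + p23 + p13) := by rw [← hε]; ring
    rw [e1]
    linarith
  obtain ⟨K, hKd⟩ : ∃ K, K = ε - 2 * ε * x -
      2 * (c1 * (p12 + p13) + c2 * (p21 + p23) + c3 * (p31 + p32)) - ε ^ 2 -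
      ((p12 + p13) ^ 2 + (p21 + p23) ^ 2 + (p31 + p32) ^ 2) +
      2 * (p21 ^ 2 + p31 ^ 2 + p12 ^ 2 + p32 ^ 2 + p23 ^ 2 + p13 ^ 2) := ⟨_, rfl⟩
  rw [← hKd] at hK
  rw [← hε, ← hx, ← hKd]
  -- the sum of the two functionals
  have b1 := mul_nonneg (sub_nonneg.2 h1) (add_nonneg h21 h31)
  have b2 := mul_nonneg (sub_nonneg.2 h2) (add_nonneg h12 h32)
  have b3 := mul_nonneg (sub_nonneg.2 h3) (add_nonneg h23 h13)
  have u1 := sq_nonneg (o1 + p21 + p31 - (o2 + p12 + p32))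
  have u2 := sq_nonneg (o1 + p21 + p31 - (o3 + p23 + p13))
  have u3 := sq_nonneg (o2 + p12 + p32 - (o3 + p23 + p13))
  have v1 := sq_nonneg (p21 + p31 - (p12 + p32))
  have v2 := sq_nonneg (p21 + p31 - (p23 + p13))
  have v3 := sq_nonneg (p12 + p32 - (p23 + p13))
  have hS : 396 / 1000 + K ≤ 2 * ((1 - x) ^ 2 / 3 + x * (x - cm) - 3 / 4 * (x - cm) ^ 2 +
      16 / 1000 * ε - ε ^ 2 / 3) := by
    have hY' : o3 = 1 - (c1 + c2 + c3) - (o1 + p21 + p31) - (o2 + p12 + p32) - p23 - p13 := by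
      linarith
    subst hY'
    subst hε
    subst hx
    subst hKd
    linarith
  have c1' := mul_le_mul_of_nonneg_left hK (show 0 ≤ 1 / 10 + ε by linarith)
  have c2' := mul_le_mul_of_nonneg_left hS he0
  have c3' := mul_nonneg he0 hPhi
  nlinarith

lemma B_main {m : Fin 4 → Fin 3 → ℝ} (hm : ∀ b ρ, 0 ≤ m b ρ) (hX : ∀ b, xm m b ≤ 258 / 1000)
    (hX' : ∀ b, 242 / 1000 ≤ xm m b) (hY : Ym m = 1) (a : Fin 4) (hE : Em m a ≤ 1 / 10)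
    (hf : 396 / 1000 ≤ f2 m) : 0 ≤ K2 m a := by
  have hEY : Em m a * Ym m = Em m a := by rw [hY, mul_one]
  have g0 := hX a
  have g1 := hX (a + 1)
  have g2 := hX (a + 2)
  have g3 := hX (a + 3)
  have g0' := hX' a
  rcases fin4 a with rfl | rfl | rfl | rfl <;>
  simp (decide := true) only [f2, xm, Em, Ym, K2, Fin.sum_univ_four, Fin.sum_univ_three, ph, kk,
    if_true, if_false, Int.cast_one, Int.cast_zero, one_mul, zero_mul, add_zero, zero_add,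
    Fin.reduceAdd] at g0 g1 g2 g3 g0' hY hE hf hEY ⊢ <;>
  push_cast
  · have h := polyB (c1 := m 0 2) (c2 := m 0 0) (c3 := m 0 1) (o1 := m 1 1) (p21 := m 1 2) (p31 := m 1 0)
      (o2 := m 2 0) (p12 := m 2 1) (p32 := m 2 2) (o3 := m 3 2) (p23 := m 3 1) (p13 := m 3 0)
      (hm _ _) (hm _ _) (hm _ _) (hm _ _) (hm _ _) (hm _ _) (hm _ _) (hm _ _) (hm _ _)
      (by linarith) (by linarith) (by linarith) (by linarith) (by linarith) (by linarith)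
      (by linarith) (by linarith)
    linarith
  · have h := polyB (c1 := m 1 2) (c2 := m 1 0) (c3 := m 1 1) (o1 := m 2 1) (p21 := m 2 2) (p31 := m 2 0)
      (o2 := m 3 0) (p12 := m 3 1) (p32 := m 3 2) (o3 := m 0 2) (p23 := m 0 1) (p13 := m 0 0)
      (hm _ _) (hm _ _) (hm _ _) (hm _ _) (hm _ _) (hm _ _) (hm _ _) (hm _ _) (hm _ _)
      (by linarith) (by linarith) (by linarith) (by linarith) (by linarith) (by linarith)
      (by linarith) (by linarith)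
    linarith
  · have h := polyB (c1 := m 2 2) (c2 := m 2 0) (c3 := m 2 1) (o1 := m 3 1) (p21 := m 3 2) (p31 := m 3 0)
      (o2 := m 0 0) (p12 := m 0 1) (p32 := m 0 2) (o3 := m 1 2) (p23 := m 1 1) (p13 := m 1 0)
      (hm _ _) (hm _ _) (hm _ _) (hm _ _) (hm _ _) (hm _ _) (hm _ _) (hm _ _) (hm _ _)
      (by linarith) (by linarith) (by linarith) (by linarith) (by linarith) (by linarith)
      (by linarith) (by linarith)
    linarith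
  · have h := polyB (c1 := m 3 2) (c2 := m 3 0) (c3 := m 3 1) (o1 := m 0 1) (p21 := m 0 2) (p31 := m 0 0)
      (o2 := m 1 0) (p12 := m 1 1) (p32 := m 1 2) (o3 := m 2 2) (p23 := m 2 1) (p13 := m 2 0)
      (hm _ _) (hm _ _) (hm _ _) (hm _ _) (hm _ _) (hm _ _) (hm _ _) (hm _ _) (hm _ _)
      (by linarith) (by linarith) (by linarith) (by linarith) (by linarith) (by linarith)
      (by linarith) (by linarith)
    linarith

end Pool.Agent.H73.Flag
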