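import Pool.Agent.H73.Flag.Cert2
import Pool.Agent.H73.Flag.Poly

/-! # Local structure at a vertex, counted in a finite oriented graph -/

set_option autoImplicit false
set_option linter.unusedSectionVars false
namespace Pool.Agent.H73.Flag

open Finset

section
variable {V : Type*} [Fintype V] [DecidableEq V] {r : V → V → Fin 3}

lemma sgl (κ : V → Fin 4) (ρ : V → Fin 3) (M : Finset V) (g : Fin 4 → Fin 3 → ℝ) :
    ∑ z ∈ M, g (κ z) (ρ z) =
      ∑ b, ∑ α, g b α * ((M.filter (fun z => κ z = b ∧ ρ z = α)).card : ℝ) := by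
  have h1 : ∀ b α, g b α * ((M.filter (fun z => κ z = b ∧ ρ z = α)).card : ℝ) =
      ∑ z ∈ M, if κ z = b ∧ ρ z = α then g b α else 0 := by
    intro b α
    rw [← Finset.sum_filter, Finset.sum_const, nsmul_eq_mul, mul_comm]
  simp_rw [h1]
  have h2 : ∀ b, ∑ α, ∑ z ∈ M, (if κ z = b ∧ ρ z = α then g b α else 0) =
      ∑ z ∈ M, ∑ α, (if κ z = b ∧ ρ z = α then g b α else 0) := fun b => Finset.sum_comm
  simp_rw [h2]
  rw [Finset.sum_comm]
  refine Finset.sum_congr rfl fun z _ => ?_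
  rw [Finset.sum_eq_single (κ z), Finset.sum_eq_single (ρ z)]
  · simp
  · intro α _ h
    rw [if_neg]
    exact fun h' => h h'.2.symm
  · intro h; exact absurd (Finset.mem_univ _) h
  · intro b _ h
    refine Finset.sum_eq_zero fun α _ => ?_
    rw [if_neg]
    exact fun h' => h h'.1.symm
  · intro h; exact absurd (Finset.mem_univ _) h

/-- normalised counts -/
noncomputable def mv (r : V → V → Fin 3) (κ : V → Fin 4) (M : Finset V) (v : V) (b : Fin 4)
    (α : Fin 3) : ℝ :=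
  ((M.filter (fun z => κ z = b ∧ r v z = α)).card : ℝ) / (Fintype.card V : ℝ)

lemma mv_nonneg (κ : V → Fin 4) (M : Finset V) (v : V) (b : Fin 4) (α : Fin 3) :
    0 ≤ mv r κ M v b α := by
  unfold mv; positivity

lemma n_pos (v : V) : (0 : ℝ) < (Fintype.card V : ℝ) := by
  have : 0 < Fintype.card V := Fintype.card_pos_iff.2 ⟨v⟩
  exact_mod_cast this

lemma sgl' (κ : V → Fin 4) (M : Finset V) (v : V) (g : Fin 4 → Fin 3 → ℝ) :
    ∑ z ∈ M, g (κ z) (r v z) = (Fintype.card V : ℝ) * ∑ b, ∑ α, g b α * mv r κ M v b α := by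
  have hn := n_pos v
  rw [sgl κ (r v) M g, Finset.mul_sum]
  refine Finset.sum_congr rfl fun b _ => ?_
  rw [Finset.mul_sum]
  refine Finset.sum_congr rfl fun α _ => ?_
  unfold mv
  field_simp

lemma dbl (κ : V → Fin 4) (M : Finset V) (v : V) (G : Fin 4 → Fin 3 → Fin 4 → Fin 3 → ℝ) :
    ∑ z ∈ M, ∑ y ∈ M, G (κ z) (r v z) (κ y) (r v y) = (Fintype.card V : ℝ) ^ 2 *
      ∑ b, ∑ α, ∑ b', ∑ α', G b α b' α' * mv r κ M v b α * mv r κ M v b' α' := by
  have h1 : ∀ z, ∑ y ∈ M, G (κ z) (r v z) (κ y) (r v y) =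
      (Fintype.card V : ℝ) * ∑ b', ∑ α', G (κ z) (r v z) b' α' * mv r κ M v b' α' :=
    fun z => sgl' κ M v (G (κ z) (r v z))
  simp_rw [h1]
  rw [← Finset.mul_sum]
  rw [sgl' κ M v (fun b α => ∑ b', ∑ α', G b α b' α' * mv r κ M v b' α')]
  rw [← mul_assoc, ← sq]
  congr 1
  refine Finset.sum_congr rfl fun b _ => Finset.sum_congr rfl fun α _ => ?_
  rw [Finset.sum_mul]
  refine Finset.sum_congr rfl fun b' _ => ?_
  rw [Finset.sum_mul]
  refine Finset.sum_congr rfl fun α' _ => ?_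
  ring

/-- funky pairs -/
def fk (r : V → V → Fin 3) (κ : V → Fin 4) (z y : V) : Prop :=
  κ z ≠ κ y ∧ r z y ≠ nm (κ z) (κ y)

instance (κ : V → Fin 4) (z y : V) : Decidable (fk r κ z y) := by unfold fk; infer_instance

/-- number of ordered funky pairs inside `M` -/
noncomputable def Fo (r : V → V → Fin 3) (κ : V → Fin 4) (M : Finset V) : ℝ :=
  ∑ z ∈ M, ∑ y ∈ M, if fk r κ z y then 1 else 0

/-- number of induced paths through `v`, counted as ordered pairs -/
noncomputable def D (r : V → V → Fin 3) (v : V) : ℝ := ∑ z, ∑ y, P r v z y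

lemma xm_eq (κ : V → Fin 4) (M : Finset V) (v : V) (b : Fin 4) :
    xm (mv r κ M v) b = ((M.filter (fun z => κ z = b)).card : ℝ) / (Fintype.card V : ℝ) := by
  have h := sgl' (r := r) κ M v (fun b' _ => if b' = b then 1 else 0)
  have hn := n_pos v
  have h1 : ∑ z ∈ M, (if κ z = b then (1 : ℝ) else 0) =
      ((M.filter (fun z => κ z = b)).card : ℝ) := by
    rw [Finset.sum_boole]
  rw [h1] at h
  rw [h]
  simp only [ite_mul, one_mul, zero_mul]
  have h2 : ∀ b', ∑ α : Fin 3, (if b' = b then mv r κ M v b' α else 0) =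
      if b' = b then ∑ α : Fin 3, mv r κ M v b' α else 0 := by
    intro b'; split_ifs <;> simp
  simp_rw [h2]
  rw [Finset.sum_ite_eq' univ b]
  simp only [Finset.mem_univ, if_true]
  unfold xm
  field_simp

lemma Em_eq (κ : V → Fin 4) (M : Finset V) (v : V) (a : Fin 4) :
    (Fintype.card V : ℝ) * Em (mv r κ M v) a =
      ∑ z ∈ M, if κ z ≠ a ∧ row (r v z) (κ z) ≠ a then 1 else 0 := by
  rw [sgl' (r := r) κ M v (fun b ρ => if b ≠ a ∧ row ρ b ≠ a then 1 else 0)]
  rfl

lemma Ym_eq (κ : V → Fin 4) (M : Finset V) (v : V) :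
    Ym (mv r κ M v) = (M.card : ℝ) / (Fintype.card V : ℝ) := by
  have h := sgl' (r := r) κ M v (fun _ _ => 1)
  have hn := n_pos v
  simp only [Finset.sum_const, nsmul_eq_mul, mul_one, one_mul] at h
  rw [h]
  unfold Ym
  field_simp

lemma Em_fk (κ : V → Fin 4) (M : Finset V) (v : V) :
    (Fintype.card V : ℝ) * Em (mv r κ M v) (κ v) =
      ∑ z ∈ M, if fk r κ v z then 1 else 0 := by
  rw [Em_eq]
  refine Finset.sum_congr rfl fun z _ => ?_
  have key : ∀ (a b : Fin 4) (ρ : Fin 3), (b ≠ a ∧ row ρ b ≠ a) ↔ (a ≠ b ∧ ρ ≠ nm a b) := by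
    decide
  unfold fk
  simp only [key (κ v) (κ z) (r v z)]

lemma point1 (hr : ∀ u v, r v u = -r u v) (κ : V → Fin 4) (v z y : V) :
    P r v z y ≤ (ph (κ z) (r v z) (κ y) (r v y) : ℝ) + if fk r κ z y then 1 else 0 := by
  have key : ∀ (b b' : Fin 4) (α α' β : Fin 3), (if pb α β (-α') = true then 1 else 0 : ℤ) ≤
      ph b α b' α' + if (b ≠ b' ∧ β ≠ nm b b') then 1 else 0 := by
    decide +kernel
  have h := key (κ z) (κ y) (r v z) (r v y) (r z y)
  unfold P fk
  rw [hr v y]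
  exact_mod_cast h

lemma D_le (hr : ∀ u v, r v u = -r u v) (κ : V → Fin 4) (M : Finset V) (v : V) :
    D r v ≤ (Fintype.card V : ℝ) ^ 2 * f2 (mv r κ M v) + Fo r κ M +
      2 * ((Fintype.card V : ℝ) - M.card) * Fintype.card V := by
  have h1 : D r v ≤ ∑ z, ∑ y, ((if z ∈ M then (1 : ℝ) else 0) * ((if y ∈ M then (1 : ℝ) else 0) *
      ((ph (κ z) (r v z) (κ y) (r v y) : ℝ) + if fk r κ z y then 1 else 0)) +
      (if z ∈ Mᶜ then (1 : ℝ) else 0) + (if y ∈ Mᶜ then (1 : ℝ) else 0)) := by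
    refine Finset.sum_le_sum fun z _ => Finset.sum_le_sum fun y _ => ?_
    have h2 := point1 hr κ v z y
    have h3 := P_le_one (r := r) v z y
    by_cases hz : z ∈ M
    · by_cases hy : y ∈ M
      · simp only [hz, hy, if_true, one_mul, Finset.mem_compl, not_true_eq_false, if_false,
          add_zero]
        exact h2
      · simp only [hz, hy, if_true, one_mul, Finset.mem_compl, not_true_eq_false, if_false,
          add_zero, zero_mul, not_false_eq_true, zero_add]
        exact h3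
    · simp only [hz, if_true, Finset.mem_compl, if_false, zero_mul, not_false_eq_true, zero_add]
      have : (0 : ℝ) ≤ if y ∉ M then 1 else 0 := by split_ifs <;> norm_num
      linarith
  refine h1.trans (le_of_eq ?_)
  simp_rw [Finset.sum_add_distrib]
  have e1 : ∑ z, ∑ y, ((if z ∈ M then (1 : ℝ) else 0) * ((if y ∈ M then (1 : ℝ) else 0) *
      ((ph (κ z) (r v z) (κ y) (r v y) : ℝ) + if fk r κ z y then 1 else 0))) =
      (Fintype.card V : ℝ) ^ 2 * f2 (mv r κ M v) + Fo r κ M := by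
    have : ∀ z, ∑ y, ((if z ∈ M then (1 : ℝ) else 0) * ((if y ∈ M then (1 : ℝ) else 0) *
      ((ph (κ z) (r v z) (κ y) (r v y) : ℝ) + if fk r κ z y then 1 else 0))) =
      (if z ∈ M then (1 : ℝ) else 0) * ∑ y ∈ M,
        ((ph (κ z) (r v z) (κ y) (r v y) : ℝ) + if fk r κ z y then 1 else 0) := by
      intro z
      rw [← Finset.mul_sum, ind_sum]
    simp_rw [this]
    rw [ind_sum]
    simp_rw [Finset.sum_add_distrib]
    rw [dbl κ M v (fun b α b' α' => (ph b α b' α' : ℝ))]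
    rfl
  rw [e1]
  simp only [Finset.sum_const, Finset.card_univ, nsmul_eq_mul]
  rw [← Finset.mul_sum]
  have e2 : ∑ z, (if z ∈ Mᶜ then (1 : ℝ) else 0) = (Fintype.card V : ℝ) - M.card := by
    rw [Finset.sum_boole]
    simp only [Finset.filter_mem_eq_inter, Finset.univ_inter]
    rw [Finset.card_compl, Nat.cast_sub (Finset.card_le_univ _)]
  rw [e2]
  ring

lemma fib3 (κ : V → Fin 4) (G : V → V → V → ℝ) :
    ∑ x, ∑ y, ∑ z, (if κ x = κ y ∧ κ y = κ z then (1 : ℝ) else 0) * G x y z =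
      ∑ a, ∑ x ∈ univ.filter (fun z => κ z = a), ∑ y ∈ univ.filter (fun z => κ z = a),
        ∑ z ∈ univ.filter (fun z => κ z = a), G x y z := by
  have hg : ∀ x y z : V, (if κ x = κ y ∧ κ y = κ z then (1 : ℝ) else 0) =
      ∑ a, (if x ∈ univ.filter (fun z => κ z = a) then (1 : ℝ) else 0) *
        ((if y ∈ univ.filter (fun z => κ z = a) then 1 else 0) *
        (if z ∈ univ.filter (fun z => κ z = a) then 1 else 0)) := by
    intro x y z
    rw [Finset.sum_eq_single (κ x)]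
    · simp only [Finset.mem_filter, Finset.mem_univ, true_and, if_true, one_mul]
      by_cases h2 : κ y = κ x
      · by_cases h3 : κ z = κ x
        · simp [h2, h3]
        · have : ¬ (κ x = κ z) := fun h => h3 h.symm
          simp [h2, h3, this]
      · have : ¬ (κ x = κ y) := fun h => h2 h.symm
        simp [h2, this]
    · intro a _ hne
      have : ¬ (κ x = a) := fun h => hne h.symm
      simp [this]
    · intro h
      exact absurd (Finset.mem_univ _) h
  simp_rw [hg, Finset.sum_mul]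
  rw [comm4]
  refine Finset.sum_congr rfl fun a _ => ?_
  set S := univ.filter (fun z => κ z = a) with hS
  rw [← ind_sum S]
  refine Finset.sum_congr rfl fun x _ => ?_
  rw [← ind_sum S (fun y => ∑ z ∈ S, G x y z), Finset.mul_sum]
  refine Finset.sum_congr rfl fun y _ => ?_
  rw [← ind_sum S (fun z => G x y z), Finset.mul_sum, Finset.mul_sum]
  refine Finset.sum_congr rfl fun z _ => ?_
  ring

lemma fib2 (κ : V → Fin 4) :
    ∑ x, ∑ y, (if κ x = κ y then (1 : ℝ) else 0) =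
      ∑ a, ((univ.filter (fun z => κ z = a)).card : ℝ) ^ 2 := by
  have h1 : ∀ x, ∑ y, (if κ x = κ y then (1 : ℝ) else 0) =
      ((univ.filter (fun z => κ z = κ x)).card : ℝ) := by
    intro x
    rw [Finset.sum_boole]
    simp only [eq_comm]
  simp_rw [h1]
  rw [← Finset.sum_fiberwise univ κ]
  refine Finset.sum_congr rfl fun a _ => ?_
  rw [Finset.sum_congr rfl (fun x hx => by rw [(Finset.mem_filter.1 hx).2])]
  rw [Finset.sum_const, nsmul_eq_mul, sq]

lemma point2 (hr : ∀ u v, r v u = -r u v) (κ : V → Fin 4) (x y z : V) :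
    2 * P r x y z ≤ 2 * (1 - (if κ x = κ y then (1 : ℝ) else 0) -
      (if κ x = κ z then (1 : ℝ) else 0) - (if κ y = κ z then (1 : ℝ) else 0) +
      2 * (if κ x = κ y ∧ κ y = κ z then (1 : ℝ) else 0)) +
      2 * ((if κ x = κ y ∧ κ y = κ z then (1 : ℝ) else 0) * P r x y z) -
      ((kk (κ x) (κ y) (r x y) (κ z) (r x z) : ℝ) + kk (κ x) (κ z) (r x z) (κ y) (r x y) +
      kk (κ y) (κ x) (r y x) (κ z) (r y z) + kk (κ y) (κ z) (r y z) (κ x) (r y x) +
      kk (κ z) (κ x) (r z x) (κ y) (r z y) + kk (κ z) (κ y) (r z y) (κ x) (r z x)) := by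
  have key : ∀ (a b c : Fin 4) (α β γ : Fin 3), 2 * (if pb α β (-γ) = true then (1 : ℤ) else 0) ≤
      2 * (1 - (if a = b then (1 : ℤ) else 0) -
      (if a = c then (1 : ℤ) else 0) - (if b = c then (1 : ℤ) else 0) +
      2 * (if a = b ∧ b = c then (1 : ℤ) else 0)) +
      2 * ((if a = b ∧ b = c then (1 : ℤ) else 0) * (if pb α β (-γ) = true then (1 : ℤ) else 0)) -
      (kk a b α c γ + kk a c γ b α +
      kk b a (-α) c β + kk b c β a (-α) +
      kk c a (-γ) b (-β) + kk c b (-β) a (-γ)) := by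
    decide +kernel
  have h := key (κ x) (κ y) (κ z) (r x y) (r y z) (r x z)
  unfold P
  rw [hr x y, hr x z, hr y z]
  exact_mod_cast h

lemma total_le (hr : ∀ u v, r v u = -r u v) (κ : V → Fin 4)
    (hK : ∀ v, 0 ≤ K2 (mv r κ univ v) (κ v)) :
    tS r univ ≤ (Fintype.card V : ℝ) ^ 3 -
      3 * (Fintype.card V : ℝ) * ∑ a, ((univ.filter (fun z => κ z = a)).card : ℝ) ^ 2 +
      2 * ∑ a, ((univ.filter (fun z => κ z = a)).card : ℝ) ^ 3 +
      ∑ a, tS r (univ.filter (fun z => κ z = a)) := by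
  set F : V → V → V → ℝ := fun x y z => (kk (κ x) (κ y) (r x y) (κ z) (r x z) : ℝ) with hF
  have hS : 0 ≤ ∑ x, ∑ y, ∑ z, F x y z := by
    refine Finset.sum_nonneg fun x _ => ?_
    rw [dbl κ univ x (fun b α b' α' => (kk (κ x) b α b' α' : ℝ))]
    exact mul_nonneg (by positivity) (hK x)
  have a1 : ∑ x, ∑ y, ∑ z, F x z y = ∑ x, ∑ y, ∑ z, F x y z := (sum3_perm F).1
  have a2 : ∑ x, ∑ y, ∑ z, F y x z = ∑ x, ∑ y, ∑ z, F x y z := (sum3_perm F).2
  have a3 : ∑ x, ∑ y, ∑ z, F y z x = ∑ x, ∑ y, ∑ z, F x y z :=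
    ((sum3_perm (fun x y z => F x z y)).2).trans a1
  have a4 : ∑ x, ∑ y, ∑ z, F z x y = ∑ x, ∑ y, ∑ z, F x y z :=
    ((sum3_perm (fun x y z => F y x z)).1).trans a2
  have a5 : ∑ x, ∑ y, ∑ z, F z y x = ∑ x, ∑ y, ∑ z, F x y z :=
    ((sum3_perm (fun x y z => F z x y)).2).trans a4
  have h := Finset.sum_le_sum (s := univ) fun x _ => Finset.sum_le_sum (s := univ) fun y _ =>
    Finset.sum_le_sum (s := univ) fun z _ => point2 hr κ x y z
  simp only [Finset.sum_add_distrib, Finset.sum_sub_distrib, ← Finset.mul_sum] at h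
  have b1 : ∑ x : V, ∑ y : V, ∑ z : V, (if κ x = κ y then (1 : ℝ) else 0) =
      (Fintype.card V : ℝ) * ∑ a, ((univ.filter (fun z => κ z = a)).card : ℝ) ^ 2 := by
    simp only [Finset.sum_const, Finset.card_univ, nsmul_eq_mul, ← Finset.mul_sum]
    rw [fib2]
  have b2 : ∑ x : V, ∑ y : V, ∑ z : V, (if κ x = κ z then (1 : ℝ) else 0) =
      (Fintype.card V : ℝ) * ∑ a, ((univ.filter (fun z => κ z = a)).card : ℝ) ^ 2 := by
    rw [← b1]
    exact (sum3_perm (fun x y z => if κ x = κ y then (1 : ℝ) else 0)).1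
  have b3 : ∑ x : V, ∑ y : V, ∑ z : V, (if κ y = κ z then (1 : ℝ) else 0) =
      (Fintype.card V : ℝ) * ∑ a, ((univ.filter (fun z => κ z = a)).card : ℝ) ^ 2 := by
    simp only [Finset.sum_const, Finset.card_univ, nsmul_eq_mul]
    rw [fib2]
  have c1 := fib3 κ (fun _ _ _ => 1)
  simp only [mul_one, Finset.sum_const, nsmul_eq_mul] at c1
  have c1' : ∑ x, ∑ y, ∑ z, (if κ x = κ y ∧ κ y = κ z then (1 : ℝ) else 0) =
      ∑ a, ((univ.filter (fun z => κ z = a)).card : ℝ) ^ 3 := by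
    rw [c1]
    refine Finset.sum_congr rfl fun a _ => ?_
    ring
  have c2 := fib3 κ (P r)
  have c3 : ∑ x : V, ∑ _y : V, ∑ _z : V, (1 : ℝ) = (Fintype.card V : ℝ) ^ 3 := by
    simp only [Finset.sum_const, Finset.card_univ, nsmul_eq_mul, mul_one]
    ring
  have d : ∀ S : Finset V, tS r S = ∑ x ∈ S, ∑ y ∈ S, ∑ z ∈ S, P r x y z := fun _ => rfl
  simp_rw [d]
  rw [← c2, ← c1']
  simp only [hF] at a1 a2 a3 a4 a5 hS
  rw [b1, b2, b3, c3] at h
  linarith

end

end Pool.Agent.H73.Flag
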