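import Pool.Agent.H73.Flag.Ext

/-! # The iterated blow-up of a directed 4-cycle -/

set_option autoImplicit false
set_option linter.unusedSectionVars false
namespace Pool.Agent.H73.Flag

open Finset

/-- The relation of the residues modulo 4. -/
def nq (i j : ℕ) : Fin 3 :=
  if (j + 4 - i) % 4 = 1 then 1 else if (j + 4 - i) % 4 = 3 then 2 else 0

/-- The iterated construction on `ℕ` (with `k` levels). -/
def RR : ℕ → ℕ → ℕ → Fin 3
  | 0, _, _ => 0
  | k + 1, i, j => if i % 4 = j % 4 then RR k (i / 4) (j / 4) else nq (i % 4) (j % 4)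

lemma RR_anti (k : ℕ) : ∀ i j, RR k j i = -RR k i j := by
  induction k with
  | zero => intro i j; show (0 : Fin 3) = -0; decide
  | succ k ih =>
    intro i j
    unfold RR
    by_cases h : i % 4 = j % 4
    · rw [if_pos h, if_pos h.symm]; exact ih _ _
    · rw [if_neg h, if_neg (Ne.symm h)]
      have key : ∀ a < 4, ∀ b < 4, a ≠ b → nq b a = -nq a b := by decide
      exact key _ (Nat.mod_lt _ (by norm_num)) _ (Nat.mod_lt _ (by norm_num)) h

/-- Number of induced paths on `{0, …, n - 1}`. -/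
def TT4 (k n : ℕ) : ℕ :=
  ∑ x ∈ range n, ∑ y ∈ range n, ∑ z ∈ range n, if isP (RR k) x y z then 1 else 0

lemma split4 (m : ℕ) (f : ℕ → ℕ) : ∑ x ∈ range (4 * m), f x =
    ∑ i ∈ range m, ∑ c ∈ range 4, f (4 * i + c) := by
  induction m with
  | zero => simp
  | succ m ih =>
    rw [Finset.sum_range_succ, ← ih]
    rw [show 4 * (m + 1) = 4 * m + 1 + 1 + 1 + 1 by ring]
    simp only [Finset.sum_range_succ, Finset.sum_range_zero]
    ring_nf

lemma RR_succ (k i j : ℕ) : RR (k + 1) i j =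
    if i % 4 = j % 4 then RR k (i / 4) (j / 4) else nq (i % 4) (j % 4) := rfl

lemma RR_same (k i j c : ℕ) (hc : c < 4) : RR (k + 1) (4 * i + c) (4 * j + c) = RR k i j := by
  rw [RR_succ, if_pos (by omega)]
  have h1 : (4 * i + c) / 4 = i := by omega
  have h2 : (4 * j + c) / 4 = j := by omega
  rw [h1, h2]

lemma RR_diff (k i j c d : ℕ) (hc : c < 4) (hd : d < 4) (h : c ≠ d) :
    RR (k + 1) (4 * i + c) (4 * j + d) = nq c d := by
  rw [RR_succ, if_neg (by omega)]
  have h1 : (4 * i + c) % 4 = c := by omega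
  have h2 : (4 * j + d) % 4 = d := by omega
  rw [h1, h2]

lemma block (k i j l : ℕ) : 4 + 4 * (if isP (RR k) i j l then 1 else 0) ≤
    ∑ a ∈ range 4, ∑ b ∈ range 4, ∑ c ∈ range 4,
      if isP (RR (k + 1)) (4 * i + a) (4 * j + b) (4 * l + c) then 1 else 0 := by
  simp only [Finset.sum_range_succ, Finset.sum_range_zero, zero_add]
  have s0 : (isP (RR (k + 1)) (4 * i + 0) (4 * j + 0) (4 * l + 0)) ↔ isP (RR k) i j l := by
    unfold isP
    rw [RR_same _ _ _ _ (by norm_num), RR_same _ _ _ _ (by norm_num),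
      RR_same _ _ _ _ (by norm_num)]
  have s1 : (isP (RR (k + 1)) (4 * i + 1) (4 * j + 1) (4 * l + 1)) ↔ isP (RR k) i j l := by
    unfold isP
    rw [RR_same _ _ _ _ (by norm_num), RR_same _ _ _ _ (by norm_num),
      RR_same _ _ _ _ (by norm_num)]
  have s2 : (isP (RR (k + 1)) (4 * i + 2) (4 * j + 2) (4 * l + 2)) ↔ isP (RR k) i j l := by
    unfold isP
    rw [RR_same _ _ _ _ (by norm_num), RR_same _ _ _ _ (by norm_num),
      RR_same _ _ _ _ (by norm_num)]
  have s3 : (isP (RR (k + 1)) (4 * i + 3) (4 * j + 3) (4 * l + 3)) ↔ isP (RR k) i j l := by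
    unfold isP
    rw [RR_same _ _ _ _ (by norm_num), RR_same _ _ _ _ (by norm_num),
      RR_same _ _ _ _ (by norm_num)]
  have t0 : isP (RR (k + 1)) (4 * i + 0) (4 * j + 1) (4 * l + 2) := by
    unfold isP
    rw [RR_diff _ _ _ _ _ (by norm_num) (by norm_num) (by norm_num),
      RR_diff _ _ _ _ _ (by norm_num) (by norm_num) (by norm_num),
      RR_diff _ _ _ _ _ (by norm_num) (by norm_num) (by norm_num)]
    decide
  have t1 : isP (RR (k + 1)) (4 * i + 1) (4 * j + 2) (4 * l + 3) := by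
    unfold isP
    rw [RR_diff _ _ _ _ _ (by norm_num) (by norm_num) (by norm_num),
      RR_diff _ _ _ _ _ (by norm_num) (by norm_num) (by norm_num),
      RR_diff _ _ _ _ _ (by norm_num) (by norm_num) (by norm_num)]
    decide
  have t2 : isP (RR (k + 1)) (4 * i + 2) (4 * j + 3) (4 * l + 0) := by
    unfold isP
    rw [RR_diff _ _ _ _ _ (by norm_num) (by norm_num) (by norm_num),
      RR_diff _ _ _ _ _ (by norm_num) (by norm_num) (by norm_num),
      RR_diff _ _ _ _ _ (by norm_num) (by norm_num) (by norm_num)]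
    decide
  have t3 : isP (RR (k + 1)) (4 * i + 3) (4 * j + 0) (4 * l + 1) := by
    unfold isP
    rw [RR_diff _ _ _ _ _ (by norm_num) (by norm_num) (by norm_num),
      RR_diff _ _ _ _ _ (by norm_num) (by norm_num) (by norm_num),
      RR_diff _ _ _ _ _ (by norm_num) (by norm_num) (by norm_num)]
    decide
  simp only [s0, s1, s2, s3, t0, t1, t2, t3, if_true]
  omega

lemma TT4_four (k m : ℕ) : 4 * m ^ 3 + 4 * TT4 k m ≤ TT4 (k + 1) (4 * m) := by
  unfold TT4
  have e : ∑ x ∈ range (4 * m), ∑ y ∈ range (4 * m), ∑ z ∈ range (4 * m),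
      (if isP (RR (k + 1)) x y z then 1 else 0) =
      ∑ i ∈ range m, ∑ j ∈ range m, ∑ l ∈ range m, ∑ a ∈ range 4, ∑ b ∈ range 4, ∑ c ∈ range 4,
      if isP (RR (k + 1)) (4 * i + a) (4 * j + b) (4 * l + c) then 1 else 0 := by
    rw [split4 m]
    refine Finset.sum_congr rfl fun i _ => ?_
    have h1 : ∀ x, ∑ y ∈ range (4 * m), ∑ z ∈ range (4 * m),
        (if isP (RR (k + 1)) x y z then 1 else 0) =
        ∑ j ∈ range m, ∑ l ∈ range m, ∑ b ∈ range 4, ∑ c ∈ range 4,
        if isP (RR (k + 1)) x (4 * j + b) (4 * l + c) then 1 else 0 := by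
      intro x
      rw [split4 m]
      refine Finset.sum_congr rfl fun j _ => ?_
      have h2 : ∀ y, ∑ z ∈ range (4 * m), (if isP (RR (k + 1)) x y z then 1 else 0) =
        ∑ l ∈ range m, ∑ c ∈ range 4, if isP (RR (k + 1)) x y (4 * l + c) then 1 else 0 :=
        fun y => split4 m _
      simp_rw [h2]
      exact Finset.sum_comm
    simp_rw [h1]
    rw [Finset.sum_comm]
    refine Finset.sum_congr rfl fun j _ => ?_
    exact Finset.sum_comm
  rw [e]
  have h : ∑ i ∈ range m, ∑ j ∈ range m, ∑ l ∈ range m,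
      (4 + 4 * (if isP (RR k) i j l then 1 else 0)) ≤ _ :=
    Finset.sum_le_sum fun i _ => Finset.sum_le_sum fun j _ => Finset.sum_le_sum fun l _ =>
      block k i j l
  refine le_trans (le_of_eq ?_) h
  simp only [Finset.sum_add_distrib, Finset.sum_const, Finset.card_range, smul_eq_mul,
    Finset.mul_sum]
  ring

lemma TT4_mono (k : ℕ) {m n : ℕ} (h : m ≤ n) : TT4 k m ≤ TT4 k n := by
  unfold TT4
  have hs : range m ⊆ range n := Finset.range_subset_range.2 h
  calc _ ≤ ∑ x ∈ range m, ∑ y ∈ range m, ∑ z ∈ range n, (if isP (RR k) x y z then 1 else 0) :=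
        Finset.sum_le_sum fun _ _ => Finset.sum_le_sum fun _ _ => Finset.sum_le_sum_of_subset hs
    _ ≤ ∑ x ∈ range m, ∑ y ∈ range n, ∑ z ∈ range n, (if isP (RR k) x y z then 1 else 0) :=
        Finset.sum_le_sum fun _ _ => Finset.sum_le_sum_of_subset hs
    _ ≤ _ := Finset.sum_le_sum_of_subset hs

lemma TT4_ge (k : ℕ) : ∀ n : ℕ, n ≤ 4 ^ k → (n : ℝ) ^ 3 / 15 - (n : ℝ) ^ 2 ≤ TT4 k n := by
  induction k with
  | zero =>
    intro n hn
    have h1 : (n : ℝ) ≤ 1 := by exact_mod_cast hn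
    have h0 : (0 : ℝ) ≤ n := Nat.cast_nonneg _
    have h2 : (0 : ℝ) ≤ TT4 0 n := Nat.cast_nonneg _
    nlinarith [mul_nonneg h0 h0, mul_nonneg (mul_nonneg h0 h0) (sub_nonneg.2 h1)]
  | succ k ih =>
    intro n hn
    obtain ⟨m, hm⟩ : ∃ m, m = n / 4 := ⟨_, rfl⟩
    have hm1 : 4 * m ≤ n := by omega
    have hm2 : n ≤ 4 * m + 3 := by omega
    have hm3 : m ≤ 4 ^ k := by
      have : (4 : ℕ) ^ (k + 1) = 4 * 4 ^ k := by ring
      omega
    have h1 := ih m hm3
    have h2 := TT4_four k m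
    have h3 := TT4_mono (k + 1) hm1
    have h4 : 4 * (m : ℝ) ^ 3 + 4 * (TT4 k m : ℝ) ≤ TT4 (k + 1) n := by
      exact_mod_cast h2.trans h3
    have h5 : 4 * (m : ℝ) ≤ n := by exact_mod_cast hm1
    have h6 : (n : ℝ) ≤ 4 * m + 3 := by exact_mod_cast hm2
    have hm0 : (0 : ℝ) ≤ m := Nat.cast_nonneg _
    have hn0 : (0 : ℝ) ≤ n := Nat.cast_nonneg _
    have h7 : (0 : ℝ) ≤ TT4 (k + 1) n := Nat.cast_nonneg _
    rcases le_total (n : ℝ) 15 with h | h
    · have : (n : ℝ) ^ 3 / 15 - (n : ℝ) ^ 2 = (n : ℝ) ^ 2 * (n - 15) / 15 := by ring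
      rw [this]
      have : (n : ℝ) ^ 2 * (n - 15) ≤ 0 := mul_nonpos_of_nonneg_of_nonpos (by positivity) (by linarith)
      linarith
    · have h8 : ((n : ℝ) - 3) ^ 3 ≤ (4 * (m : ℝ)) ^ 3 := pow_le_pow_left₀ (by linarith) (by linarith) 3
      have h9 : (4 * (m : ℝ)) ^ 2 ≤ (n : ℝ) ^ 2 := pow_le_pow_left₀ (by linarith) h5 2
      nlinarith

end Pool.Agent.H73.Flag
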