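import Mathlib

/-! # Numerical estimates -/

set_option autoImplicit false
namespace Pool.Agent.H73.Flag

lemma S2num {ρ u y F fU I L e : ℝ} (hρ : 0 ≤ ρ) (hu : 0 ≤ u) (hF : 0 ≤ F) (hfU : 0 ≤ fU)
    (hI : 0 ≤ I) (hy : y = 1 - ρ - u) (hy0 : 0 ≤ y)
    (hB : ρ + 7 / 1000 * u + 6 * F + 60 * I + 10 * fU ≤ 45005 / 10000000) (hL : 2 / 5 ≤ L)
    (he : 0 ≤ e) (he' : e ≤ 1 / 1000000000)
    (hd : (L - e) * y ≤ L * y ^ 3 + 2 * ρ * (L + e) + 4 * fU * y + 2 / 3 * y * (1 - y) ^ 2) :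
    (1 - y) + 6 * F + 60 * I ≤ 464 / 100000 := by
  obtain ⟨x, hx⟩ : ∃ x, x = ρ + u := ⟨_, rfl⟩
  have hyx : y = 1 - x := by linarith
  have hx0 : 0 ≤ x := by linarith
  have hy1 : y ≤ 1 := by linarith
  have hx1 : x ≤ 6475 / 10000 := by linarith
  -- step 1
  have h1 : (2 : ℝ) / 5 * (y - y ^ 3 - 2 * ρ) ≤
      e * (y + 2 * ρ) + 4 * fU * y + 2 / 3 * y * (1 - y) ^ 2 := by
    rcases le_total 0 (y - y ^ 3 - 2 * ρ) with h | h
    · have := mul_le_mul_of_nonneg_right hL h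
      linarith
    · have h2 : 0 ≤ e * (y + 2 * ρ) + 4 * fU * y + 2 / 3 * y * (1 - y) ^ 2 := by positivity
      linarith
  have h2 : e * (y + 2 * ρ) ≤ 2 * e := by
    have : e * (y + 2 * ρ) ≤ e * 2 := mul_le_mul_of_nonneg_left (by linarith) he
    linarith
  have h3 : fU * y ≤ fU := by
    have : fU * y ≤ fU * 1 := mul_le_mul_of_nonneg_left hy1 hfU
    linarith
  have h4 : y * x * (2 / 5 * (1 + y) - 2 / 3 * x) ≤ 4 / 5 * ρ + 4 * fU + 2 * e := by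
    have : y * x * (2 / 5 * (1 + y) - 2 / 3 * x) =
        2 / 5 * (y - y ^ 3) - 2 / 3 * y * (1 - y) ^ 2 := by rw [hyx]; ring
    rw [this]
    linarith
  -- step 2
  have h5 : x < 6 / 1000 := by
    by_contra hc
    push Not at hc
    have h6 : 4 / 5 * ρ + 4 * fU + 2 * e ≤ 361 / 100000 := by linarith
    have h7 : (2 / 5 * (1 + y) - 2 / 3 * x) = 4 / 5 - 16 / 15 * x := by rw [hyx]; ring
    rw [h7, hyx] at h4
    rcases le_total x (1 / 10) with h | h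
    · have a1 : 9 / 10 * (6 / 1000) ≤ (1 - x) * x :=
        mul_le_mul (by linarith) hc (by norm_num) (by linarith)
      have a2 : 9 / 10 * (6 / 1000) * (69 / 100) ≤ (1 - x) * x * (4 / 5 - 16 / 15 * x) :=
        mul_le_mul a1 (by linarith) (by norm_num) (by linarith)
      norm_num at a2
      linarith
    · have a1 : 3525 / 10000 * (1 / 10) ≤ (1 - x) * x :=
        mul_le_mul (by linarith) h (by norm_num) (by linarith)
      have a2 : 3525 / 10000 * (1 / 10) * (1093 / 10000) ≤ (1 - x) * x * (4 / 5 - 16 / 15 * x) :=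
        mul_le_mul a1 (by linarith) (by norm_num) (by linarith)
      norm_num at a2
      linarith
  -- step 3
  have h8 : x * (788 / 1000) ≤ 4 / 5 * ρ + 4 * fU + 2 * e := by
    have a1 : (788 : ℝ) / 1000 ≤ y * (2 / 5 * (1 + y) - 2 / 3 * x) := by
      have b1 : (994 : ℝ) / 1000 * (793 / 1000) ≤ y * (2 / 5 * (1 + y) - 2 / 3 * x) :=
        mul_le_mul (by linarith) (by linarith) (by norm_num) hy0
      norm_num at b1 ⊢
      linarith
    have a2 := mul_le_mul_of_nonneg_left a1 hx0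
    have a3 : x * (y * (2 / 5 * (1 + y) - 2 / 3 * x)) =
      y * x * (2 / 5 * (1 + y) - 2 / 3 * x) := by ring
    linarith
  rw [hyx]
  linarith

lemma dichA {x0 F h d y : ℝ} (hx0 : 0 ≤ x0) (hF : 0 ≤ F) (hd1 : d ≤ h) (hd2 : -h ≤ d)
    (hy : y = 1 - x0) (hB : x0 + 6 * F + 80 * h ^ 2 ≤ 464 / 100000) :
    5 / 24 * y ^ 2 + y * d / 3 + 2 / 3 * d ^ 2 - 9 / 100 * (y / 6 + 4 / 3 * d - 2 * h) +
      (9 / 100) ^ 2 / 3 - (1 / 5 - 5 / 1000000000 - F - x0) < 0 := by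
  have hh : 0 ≤ h := by linarith
  have hx1 : x0 ≤ 464 / 100000 := by nlinarith [sq_nonneg h]
  have t1 : x0 ^ 2 ≤ x0 * (464 / 100000) := by
    rw [sq]; exact mul_le_mul_of_nonneg_left hx1 hx0
  have t2 : (h - d) * (y / 3 - 12 / 100) ≥ 0 := mul_nonneg (by linarith) (by linarith)
  have t3 : 0 ≤ h * (1 - y) := mul_nonneg hh (by linarith)
  have t4 : d ^ 2 ≤ h ^ 2 := sq_le_sq' hd2 hd1
  have t5 := sq_nonneg (h - 416 / 100000)
  subst hy
  nlinarith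

lemma dichB {x0 F h d y : ℝ} (hx0 : 0 ≤ x0) (hF : 0 ≤ F) (hd1 : d ≤ h) (hd2 : -h ≤ d)
    (hy : y = 1 - x0) (hB : x0 + 6 * F + 80 * h ^ 2 ≤ 464 / 100000) :
    5 / 24 * y ^ 2 + y * d / 3 + 2 / 3 * d ^ 2 - 37 / 100 * (y / 6 + 4 / 3 * d - 2 * h) +
      (37 / 100) ^ 2 / 3 - (1 / 5 - 5 / 1000000000 - F - x0) < 0 := by
  have hh : 0 ≤ h := by linarith
  have hx1 : x0 ≤ 464 / 100000 := by nlinarith [sq_nonneg h]
  have t1 : x0 ^ 2 ≤ x0 * (464 / 100000) := by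
    rw [sq]; exact mul_le_mul_of_nonneg_left hx1 hx0
  have t2 : (h + d) * (37 / 75 - y / 3) ≥ 0 := mul_nonneg (by linarith) (by linarith)
  have t3 : 0 ≤ h * (1 - y) := mul_nonneg hh (by linarith)
  have t6 : 0 ≤ h * (464 / 100000 - (1 - y)) := mul_nonneg hh (by linarith)
  have t4 : d ^ 2 ≤ h ^ 2 := sq_le_sq' hd2 hd1
  have t5 := sq_nonneg (h - 884 / 100000)
  subst hy
  nlinarith

lemma dich {x0 F h d y E xa X f : ℝ} (hx0 : 0 ≤ x0) (hF : 0 ≤ F) (hd1 : d ≤ h) (hd2 : -h ≤ d)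
    (hy : y = 1 - x0) (hB : x0 + 6 * F + 80 * h ^ 2 ≤ 464 / 100000)
    (hxa : xa = y / 4 - d) (hX : X = y / 4 + h)
    (hf1 : f ≤ 2 / 3 * (y - xa) ^ 2 + 2 / 3 * xa ^ 2 - 2 * E * (y - xa * (4 / 3) - 2 * X) +
      2 / 3 * E ^ 2)
    (hf2 : 2 / 5 - 1 / 100000000 - 2 * F - 2 * x0 ≤ f) : E ≤ 9 / 100 ∨ 37 / 100 ≤ E := by
  by_contra hc
  push Not at hc
  obtain ⟨h1, h2⟩ := hc
  have gA := dichA hx0 hF hd1 hd2 hy hB
  have gB := dichB hx0 hF hd1 hd2 hy hB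
  have q1 := mul_neg_of_pos_of_neg (sub_pos.2 h2) gA
  have q2 := mul_neg_of_pos_of_neg (sub_pos.2 h1) gB
  have q3 := mul_pos (sub_pos.2 h1) (sub_pos.2 h2)
  subst hxa
  subst hX
  nlinarith

end Pool.Agent.H73.Flag
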