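import Pool.Agent.H73.Flag.Chk0
import Pool.Agent.H73.Flag.Chk1
import Pool.Agent.H73.Flag.Chk2

/-! # The certificate as a pointwise inequality and its sum over all 5-tuples (generated) -/

set_option maxRecDepth 100000
set_option autoImplicit false
namespace Pool.Agent.H73.Flag

open Finset

lemma al_spec {f : ℕ → ℕ → Bool} (h : al f = true) (a : Fin 3) :
    f a.val (-a).val = true := by
  unfold al at h
  have h0 : f 0 0 = true := by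
    by_contra hc
    simp [hc] at h
  have h1 : f 1 2 = true := by
    by_contra hc
    simp [hc, h0] at h
  have h2 : f 2 1 = true := by
    by_contra hc
    simp [hc, h0, h1] at h
  fin_cases a
  · exact h0
  · exact h1
  · exact h2

lemma chk_all (a01 a02 a03 : Fin 3) :
    chk a01.val (-a01).val a02.val (-a02).val a03.val (-a03).val = true := by
  fin_cases a01 <;> fin_cases a02 <;> fin_cases a03
  · exact chk_000
  · exact chk_001
  · exact chk_002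
  · exact chk_010
  · exact chk_011
  · exact chk_012
  · exact chk_020
  · exact chk_021
  · exact chk_022
  · exact chk_100
  · exact chk_101
  · exact chk_102
  · exact chk_110
  · exact chk_111
  · exact chk_112
  · exact chk_120
  · exact chk_121
  · exact chk_122
  · exact chk_200
  · exact chk_201
  · exact chk_202
  · exact chk_210
  · exact chk_211
  · exact chk_212
  · exact chk_220
  · exact chk_221
  · exact chk_222

lemma TT_le (a01 a02 a03 a04 a12 a13 a14 a23 a24 a34 : Fin 3) :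
    TT a01.val (-a01).val a02.val (-a02).val a03.val (-a03).val a04.val (-a04).val a12.val (-a12).val a13.val (-a13).val a14.val (-a14).val a23.val (-a23).val a24.val (-a24).val a34.val (-a34).val ≤ bnd := by
  have h := chk_all a01 a02 a03
  unfold chk at h
  replace h := al_spec h a04
  replace h := al_spec h a12
  replace h := al_spec h a13
  replace h := al_spec h a14
  replace h := al_spec h a23
  replace h := al_spec h a24
  replace h := al_spec h a34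
  exact Nat.le_of_ble_eq_true h

variable {V : Type*} (r : V → V → Fin 3)

/-- Code of the relation between two vertices. -/
def c (u v : V) : ℕ := (r u v).val

noncomputable def L3 (u v w z y : V) : ℕ :=
  look3 (cd (c r u v) (c r u w) (c r v w)) (cd (c r u z) (c r v z) (c r w z))
    (cd (c r u y) (c r v y) (c r w y))

noncomputable def LP (u v w z y : V) : ℕ :=
  pterm (c r u v) (c r v w) (c r u w) (cd (c r u z) (c r v z) (c r w z))
    (cd (c r u y) (c r v y) (c r w y)) (c r z y)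

noncomputable def LR (u v x y z : V) : ℕ :=
  rterm (c r u v) (Nat.add (Nat.mul 3 (c r u x)) (c r v x))
    (Nat.add (Nat.mul 3 (c r u y)) (c r v y)) (Nat.add (Nat.mul 3 (c r u z)) (c r v z))
    (cd (c r x y) (c r x z) (c r y z))

noncomputable def L1 (u p q s t : V) : ℕ :=
  look1 (cd (c r u p) (c r u q) (c r p q)) (cd (c r u s) (c r u t) (c r s t))

variable {r}

lemma point (hr : ∀ u v, r v u = -r u v) (x0 x1 x2 x3 x4 : V) :
    Nat.add (Nat.add (Nat.mul 3 (Nat.add (Nat.add (Nat.add (L3 r x0 x1 x2 x3 x4) (L3 r x0 x1 x3 x2 x4)) (Nat.add (L3 r x0 x1 x4 x2 x3) (Nat.add (L3 r x0 x2 x3 x1 x4) (L3 r x0 x2 x4 x1 x3)))) (Nat.add (Nat.add (L3 r x0 x3 x4 x1 x2) (L3 r x1 x2 x3 x0 x4)) (Nat.add (L3 r x1 x2 x4 x0 x3) (Nat.add (L3 r x1 x3 x4 x0 x2) (L3 r x2 x3 x4 x0 x1))))))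
      (Nat.add (Nat.add (Nat.add (Nat.add (Nat.add (LP r x0 x1 x2 x3 x4) (Nat.add (LP r x0 x1 x3 x2 x4) (LP r x0 x1 x4 x2 x3))) (Nat.add (Nat.add (LP r x0 x2 x1 x3 x4) (LP r x0 x2 x3 x1 x4)) (Nat.add (LP r x0 x2 x4 x1 x3) (LP r x0 x3 x1 x2 x4)))) (Nat.add (Nat.add (Nat.add (LP r x0 x3 x2 x1 x4) (LP r x0 x3 x4 x1 x2)) (Nat.add (LP r x0 x4 x1 x2 x3) (LP r x0 x4 x2 x1 x3))) (Nat.add (Nat.add (LP r x0 x4 x3 x1 x2) (LP r x1 x0 x2 x3 x4)) (Nat.add (LP r x1 x0 x3 x2 x4) (LP r x1 x0 x4 x2 x3))))) (Nat.add (Nat.add (Nat.add (LP r x1 x2 x0 x3 x4) (Nat.add (LP r x1 x2 x3 x0 x4) (LP r x1 x2 x4 x0 x3))) (Nat.add (Nat.add (LP r x1 x3 x0 x2 x4) (LP r x1 x3 x2 x0 x4)) (Nat.add (LP r x1 x3 x4 x0 x2) (LP r x1 x4 x0 x2 x3)))) (Nat.add (Nat.add (Nat.add (LP r x1 x4 x2 x0 x3) (LP r x1 x4 x3 x0 x2)) (Nat.add (LP r x2 x0 x1 x3 x4) (LP r x2 x0 x3 x1 x4))) (Nat.add (Nat.add (LP r x2 x0 x4 x1 x3)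 (LP r x2 x1 x0 x3 x4)) (Nat.add (LP r x2 x1 x3 x0 x4) (LP r x2 x1 x4 x0 x3)))))) (Nat.add (Nat.add (Nat.add (Nat.add (LP r x2 x3 x0 x1 x4) (Nat.add (LP r x2 x3 x1 x0 x4) (LP r x2 x3 x4 x0 x1))) (Nat.add (Nat.add (LP r x2 x4 x0 x1 x3) (LP r x2 x4 x1 x0 x3)) (Nat.add (LP r x2 x4 x3 x0 x1) (LP r x3 x0 x1 x2 x4)))) (Nat.add (Nat.add (Nat.add (LP r x3 x0 x2 x1 x4) (LP r x3 x0 x4 x1 x2)) (Nat.add (LP r x3 x1 x0 x2 x4) (LP r x3 x1 x2 x0 x4))) (Nat.add (Nat.add (LP r x3 x1 x4 x0 x2) (LP r x3 x2 x0 x1 x4)) (Nat.add (LP r x3 x2 x1 x0 x4) (LP r x3 x2 x4 x0 x1))))) (Nat.add (Nat.add (Nat.add (LP r x3 x4 x0 x1 x2) (Nat.add (LP r x3 x4 x1 x0 x2) (LP r x3 x4 x2 x0 x1))) (Nat.add (Nat.add (LP r x4 x0 x1 x2 x3) (LP r x4 x0 x2 x1 x3)) (Nat.add (LP r x4 x0 x3 x1 x2) (LP r x4 x1 x0 x2 x3)))) (Nat.add (Nat.add (Nat.add (LP r x4 x1 x2 x0 x3) (LP r x4 x1 x3 x0 x2)) (Nat.add (LP r x4 x2 x0 x1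 x3) (LP r x4 x2 x1 x0 x3))) (Nat.add (Nat.add (LP r x4 x2 x3 x0 x1) (LP r x4 x3 x0 x1 x2)) (Nat.add (LP r x4 x3 x1 x0 x2) (LP r x4 x3 x2 x0 x1))))))))
      (Nat.add (Nat.add (Nat.add (Nat.add (LR r x0 x1 x2 x3 x4) (LR r x0 x2 x1 x3 x4)) (Nat.add (LR r x0 x3 x1 x2 x4) (Nat.add (LR r x0 x4 x1 x2 x3) (LR r x1 x2 x0 x3 x4)))) (Nat.add (Nat.add (LR r x1 x3 x0 x2 x4) (LR r x1 x4 x0 x2 x3)) (Nat.add (LR r x2 x3 x0 x1 x4) (Nat.add (LR r x2 x4 x0 x1 x3) (LR r x3 x4 x0 x1 x2)))))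
      (Nat.mul 2 (Nat.add (Nat.add (Nat.add (L1 r x0 x1 x2 x3 x4) (Nat.add (L1 r x0 x1 x3 x2 x4) (L1 r x0 x1 x4 x2 x3))) (Nat.add (Nat.add (L1 r x1 x0 x2 x3 x4) (L1 r x1 x0 x3 x2 x4)) (Nat.add (L1 r x1 x0 x4 x2 x3) (L1 r x2 x0 x1 x3 x4)))) (Nat.add (Nat.add (Nat.add (L1 r x2 x0 x3 x1 x4) (L1 r x2 x0 x4 x1 x3)) (Nat.add (L1 r x3 x0 x1 x2 x4) (L1 r x3 x0 x2 x1 x4))) (Nat.add (Nat.add (L1 r x3 x0 x4 x1 x2) (L1 r x4 x0 x1 x2 x3)) (Nat.add (L1 r x4 x0 x2 x1 x3) (L1 r x4 x0 x3 x1 x2))))))) ≤ bnd := by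
  have h := TT_le (r x0 x1) (r x0 x2) (r x0 x3) (r x0 x4) (r x1 x2) (r x1 x3) (r x1 x4) (r x2 x3) (r x2 x4) (r x3 x4)
  rw [← hr x0 x1, ← hr x0 x2, ← hr x0 x3, ← hr x0 x4, ← hr x1 x2, ← hr x1 x3, ← hr x1 x4, ← hr x2 x3, ← hr x2 x4, ← hr x3 x4] at h
  exact h


lemma perm_sum [Fintype V] [DecidableEq V] (G : V → V → V → V → V → ℕ) (i j k l m : Fin 5)
    (h : Function.Injective ![i, j, k, l, m]) :
    ∑ x : Fin 5 → V, G (x i) (x j) (x k) (x l) (x m) =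
      ∑ x : Fin 5 → V, G (x 0) (x 1) (x 2) (x 3) (x 4) := by
  have hb : Function.Bijective ![i, j, k, l, m] := (Finite.injective_iff_bijective).1 h
  let e : Fin 5 ≃ Fin 5 := Equiv.ofBijective _ hb
  have := Equiv.sum_comp (e.symm.arrowCongr (Equiv.refl V))
    (fun x : Fin 5 → V => G (x 0) (x 1) (x 2) (x 3) (x 4))
  rw [← this]
  refine Finset.sum_congr rfl fun x _ => ?_
  simp [e, Equiv.arrowCongr]

/-- The summed certificate. -/
theorem summed [Fintype V] [DecidableEq V] (hr : ∀ u v, r v u = -r u v) :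
    30 * (∑ x : Fin 5 → V, L3 r (x 0) (x 1) (x 2) (x 3) (x 4)) +
    60 * (∑ x : Fin 5 → V, LP r (x 0) (x 1) (x 2) (x 3) (x 4)) +
    10 * (∑ x : Fin 5 → V, LR r (x 0) (x 1) (x 2) (x 3) (x 4)) +
    30 * (∑ x : Fin 5 → V, L1 r (x 0) (x 1) (x 2) (x 3) (x 4)) ≤ bnd * Fintype.card V ^ 5 := by
  have h := Finset.sum_le_sum (s := Finset.univ) (fun (x : Fin 5 → V) _ =>
    point hr (x 0) (x 1) (x 2) (x 3) (x 4))
  simp only [Nat.add_eq, Nat.mul_eq, Finset.sum_add_distrib, ← Finset.mul_sum, Finset.sum_const,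
    Finset.card_univ, Fintype.card_pi, Finset.prod_const, Fintype.card_fin, smul_eq_mul] at h
  rw [perm_sum (L3 r) 0 1 3 2 4 (by decide)] at h
  rw [perm_sum (L3 r) 0 1 4 2 3 (by decide)] at h
  rw [perm_sum (L3 r) 0 2 3 1 4 (by decide)] at h
  rw [perm_sum (L3 r) 0 2 4 1 3 (by decide)] at h
  rw [perm_sum (L3 r) 0 3 4 1 2 (by decide)] at h
  rw [perm_sum (L3 r) 1 2 3 0 4 (by decide)] at h
  rw [perm_sum (L3 r) 1 2 4 0 3 (by decide)] at h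
  rw [perm_sum (L3 r) 1 3 4 0 2 (by decide)] at h
  rw [perm_sum (L3 r) 2 3 4 0 1 (by decide)] at h
  rw [perm_sum (LP r) 0 1 3 2 4 (by decide)] at h
  rw [perm_sum (LP r) 0 1 4 2 3 (by decide)] at h
  rw [perm_sum (LP r) 0 2 1 3 4 (by decide)] at h
  rw [perm_sum (LP r) 0 2 3 1 4 (by decide)] at h
  rw [perm_sum (LP r) 0 2 4 1 3 (by decide)] at h
  rw [perm_sum (LP r) 0 3 1 2 4 (by decide)] at h
  rw [perm_sum (LP r) 0 3 2 1 4 (by decide)] at h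
  rw [perm_sum (LP r) 0 3 4 1 2 (by decide)] at h
  rw [perm_sum (LP r) 0 4 1 2 3 (by decide)] at h
  rw [perm_sum (LP r) 0 4 2 1 3 (by decide)] at h
  rw [perm_sum (LP r) 0 4 3 1 2 (by decide)] at h
  rw [perm_sum (LP r) 1 0 2 3 4 (by decide)] at h
  rw [perm_sum (LP r) 1 0 3 2 4 (by decide)] at h
  rw [perm_sum (LP r) 1 0 4 2 3 (by decide)] at h
  rw [perm_sum (LP r) 1 2 0 3 4 (by decide)] at h
  rw [perm_sum (LP r) 1 2 3 0 4 (by decide)] at h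
  rw [perm_sum (LP r) 1 2 4 0 3 (by decide)] at h
  rw [perm_sum (LP r) 1 3 0 2 4 (by decide)] at h
  rw [perm_sum (LP r) 1 3 2 0 4 (by decide)] at h
  rw [perm_sum (LP r) 1 3 4 0 2 (by decide)] at h
  rw [perm_sum (LP r) 1 4 0 2 3 (by decide)] at h
  rw [perm_sum (LP r) 1 4 2 0 3 (by decide)] at h
  rw [perm_sum (LP r) 1 4 3 0 2 (by decide)] at h
  rw [perm_sum (LP r) 2 0 1 3 4 (by decide)] at h
  rw [perm_sum (LP r) 2 0 3 1 4 (by decide)] at h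
  rw [perm_sum (LP r) 2 0 4 1 3 (by decide)] at h
  rw [perm_sum (LP r) 2 1 0 3 4 (by decide)] at h
  rw [perm_sum (LP r) 2 1 3 0 4 (by decide)] at h
  rw [perm_sum (LP r) 2 1 4 0 3 (by decide)] at h
  rw [perm_sum (LP r) 2 3 0 1 4 (by decide)] at h
  rw [perm_sum (LP r) 2 3 1 0 4 (by decide)] at h
  rw [perm_sum (LP r) 2 3 4 0 1 (by decide)] at h
  rw [perm_sum (LP r) 2 4 0 1 3 (by decide)] at h
  rw [perm_sum (LP r) 2 4 1 0 3 (by decide)] at h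
  rw [perm_sum (LP r) 2 4 3 0 1 (by decide)] at h
  rw [perm_sum (LP r) 3 0 1 2 4 (by decide)] at h
  rw [perm_sum (LP r) 3 0 2 1 4 (by decide)] at h
  rw [perm_sum (LP r) 3 0 4 1 2 (by decide)] at h
  rw [perm_sum (LP r) 3 1 0 2 4 (by decide)] at h
  rw [perm_sum (LP r) 3 1 2 0 4 (by decide)] at h
  rw [perm_sum (LP r) 3 1 4 0 2 (by decide)] at h
  rw [perm_sum (LP r) 3 2 0 1 4 (by decide)] at h
  rw [perm_sum (LP r) 3 2 1 0 4 (by decide)] at h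
  rw [perm_sum (LP r) 3 2 4 0 1 (by decide)] at h
  rw [perm_sum (LP r) 3 4 0 1 2 (by decide)] at h
  rw [perm_sum (LP r) 3 4 1 0 2 (by decide)] at h
  rw [perm_sum (LP r) 3 4 2 0 1 (by decide)] at h
  rw [perm_sum (LP r) 4 0 1 2 3 (by decide)] at h
  rw [perm_sum (LP r) 4 0 2 1 3 (by decide)] at h
  rw [perm_sum (LP r) 4 0 3 1 2 (by decide)] at h
  rw [perm_sum (LP r) 4 1 0 2 3 (by decide)] at h
  rw [perm_sum (LP r) 4 1 2 0 3 (by decide)] at h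
  rw [perm_sum (LP r) 4 1 3 0 2 (by decide)] at h
  rw [perm_sum (LP r) 4 2 0 1 3 (by decide)] at h
  rw [perm_sum (LP r) 4 2 1 0 3 (by decide)] at h
  rw [perm_sum (LP r) 4 2 3 0 1 (by decide)] at h
  rw [perm_sum (LP r) 4 3 0 1 2 (by decide)] at h
  rw [perm_sum (LP r) 4 3 1 0 2 (by decide)] at h
  rw [perm_sum (LP r) 4 3 2 0 1 (by decide)] at h
  rw [perm_sum (LR r) 0 2 1 3 4 (by decide)] at h
  rw [perm_sum (LR r) 0 3 1 2 4 (by decide)] at h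
  rw [perm_sum (LR r) 0 4 1 2 3 (by decide)] at h
  rw [perm_sum (LR r) 1 2 0 3 4 (by decide)] at h
  rw [perm_sum (LR r) 1 3 0 2 4 (by decide)] at h
  rw [perm_sum (LR r) 1 4 0 2 3 (by decide)] at h
  rw [perm_sum (LR r) 2 3 0 1 4 (by decide)] at h
  rw [perm_sum (LR r) 2 4 0 1 3 (by decide)] at h
  rw [perm_sum (LR r) 3 4 0 1 2 (by decide)] at h
  rw [perm_sum (L1 r) 0 1 3 2 4 (by decide)] at h
  rw [perm_sum (L1 r) 0 1 4 2 3 (by decide)] at h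
  rw [perm_sum (L1 r) 1 0 2 3 4 (by decide)] at h
  rw [perm_sum (L1 r) 1 0 3 2 4 (by decide)] at h
  rw [perm_sum (L1 r) 1 0 4 2 3 (by decide)] at h
  rw [perm_sum (L1 r) 2 0 1 3 4 (by decide)] at h
  rw [perm_sum (L1 r) 2 0 3 1 4 (by decide)] at h
  rw [perm_sum (L1 r) 2 0 4 1 3 (by decide)] at h
  rw [perm_sum (L1 r) 3 0 1 2 4 (by decide)] at h
  rw [perm_sum (L1 r) 3 0 2 1 4 (by decide)] at h
  rw [perm_sum (L1 r) 3 0 4 1 2 (by decide)] at h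
  rw [perm_sum (L1 r) 4 0 1 2 3 (by decide)] at h
  rw [perm_sum (L1 r) 4 0 2 1 3 (by decide)] at h
  rw [perm_sum (L1 r) 4 0 3 1 2 (by decide)] at h
  rw [Nat.mul_comm (Fintype.card V ^ 5)] at h
  linarith

end Pool.Agent.H73.Flag
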