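import Pool.Agent.H73.Flag.Stab2

/-! # From the certificate to an approximate partition -/

set_option autoImplicit false
set_option linter.unusedSectionVars false
namespace Pool.Agent.H73.Flag

open Finset

/-- translation of the class numbers -/
def kp (i : ℕ) : Fin 4 := if i = 1 then 0 else if i = 2 then 1 else if i = 3 then 2 else 3

lemma bb_pt : ∀ i < 8, ∀ j < 8, ∀ ρ : Fin 3, bb i j ρ =
    1000000 * (if i = 0 then 1 else 0) + 7000 * (if 5 ≤ i then 1 else 0) +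
    (if 1 ≤ i ∧ i ≤ 4 then 1 else 0) * ((if 1 ≤ j ∧ j ≤ 4 then 1 else 0) *
      (3000000 * (if kp i ≠ kp j ∧ ρ ≠ nm (kp i) (kp j) then 1 else 0) +
        60000000 * (if kp i = kp j then 1 else 0) - 15000000)) +
    (if 1 ≤ i ∧ i ≤ 4 then 1 else 0) * ((if 5 ≤ j then 1 else 0) *
      (10000000 * (if ρ ≠ un j then 1 else 0))) := by
  decide +kernel

section
variable {V : Type*} [Fintype V] [DecidableEq V] {r : V → V → Fin 3}

lemma fibS {ι : Type*} [Fintype ι] [DecidableEq ι] (f : V → ι) (S : Finset V) :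
    ∑ x ∈ S, ∑ y ∈ S, (if f x = f y then (1 : ℝ) else 0) =
      ∑ a, ((S.filter (fun z => f z = a)).card : ℝ) ^ 2 := by
  have h1 : ∀ x, ∑ y ∈ S, (if f x = f y then (1 : ℝ) else 0) =
      ((S.filter (fun z => f z = f x)).card : ℝ) := by
    intro x
    rw [Finset.sum_boole]
    simp only [eq_comm]
  simp_rw [h1]
  rw [← Finset.sum_fiberwise S f]
  refine Finset.sum_congr rfl fun a _ => ?_
  rw [Finset.sum_congr rfl (fun x hx => by rw [(Finset.mem_filter.1 hx).2])]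
  rw [Finset.sum_const, nsmul_eq_mul, sq]

lemma card_fibS {ι : Type*} [Fintype ι] [DecidableEq ι] (f : V → ι) (S : Finset V) :
    ∑ a, ((S.filter (fun z => f z = a)).card : ℝ) = S.card := by
  have := Finset.card_eq_sum_card_fiberwise (f := f) (s := S) (t := univ)
    (fun _ _ => by simp)
  rw [this]
  push_cast
  rfl

/-- two vertices with the same relation to `v` are not on a common path with `v` -/
lemma P_same (hr : ∀ u v, r v u = -r u v) (v x y : V) :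
    P r v x y ≤ 1 - if r v x = r v y then (1 : ℝ) else 0 := by
  have key : ∀ a b c : Fin 3, (if pb a b (-c) = true then 1 else 0 : ℤ) ≤
      1 - if a = c then 1 else 0 := by decide
  have h := key (r v x) (r x y) (r v y)
  unfold P
  rw [hr v y]
  exact_mod_cast h

lemma third (hr : ∀ u v, r v u = -r u v) (S : Finset V) (v : V) :
    ∑ x ∈ S, ∑ y ∈ S, P r v x y ≤ 2 / 3 * (S.card : ℝ) ^ 2 := by
  have h1 : ∑ x ∈ S, ∑ y ∈ S, P r v x y ≤
      ∑ x ∈ S, ∑ y ∈ S, (1 - if r v x = r v y then (1 : ℝ) else 0) :=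
    Finset.sum_le_sum fun x _ => Finset.sum_le_sum fun y _ => P_same hr v x y
  have h2 := fibS (r v) S
  have h3 := card_fibS (r v) S
  simp only [Finset.sum_sub_distrib, h2, Finset.sum_const, nsmul_eq_mul, mul_one] at h1
  simp only [Fin.sum_univ_three] at h1 h3
  rw [← h3] at h1 ⊢
  generalize ((S.filter (fun z => r v z = 0)).card : ℝ) = a at *
  generalize ((S.filter (fun z => r v z = 1)).card : ℝ) = b at *
  generalize ((S.filter (fun z => r v z = 2)).card : ℝ) = c at *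
  nlinarith [sq_nonneg (a - b), sq_nonneg (a - c), sq_nonneg (b - c)]

/-- splitting a double sum over `univ` along `M` -/
lemma split2 (M : Finset V) (G : V → V → ℝ) :
    ∑ x, ∑ y, G x y = ∑ x ∈ M, ∑ y ∈ M, G x y + ∑ x ∈ M, ∑ y ∈ Mᶜ, G x y +
      ∑ x ∈ Mᶜ, ∑ y ∈ M, G x y + ∑ x ∈ Mᶜ, ∑ y ∈ Mᶜ, G x y := by
  rw [← Finset.sum_add_sum_compl M (fun x => ∑ y, G x y)]
  have h : ∀ x, ∑ y, G x y = ∑ y ∈ M, G x y + ∑ y ∈ Mᶜ, G x y := fun x =>
    (Finset.sum_add_sum_compl M _).symm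
  simp_rw [h, Finset.sum_add_distrib]
  ring

/-- The degree sum over `M`. -/
lemma degM (hr : ∀ u v, r v u = -r u v) (M R U : Finset V) (hMRU : Mᶜ = R ∪ U)
    (hRU : Disjoint R U) (nu : V → Fin 3) {d L : ℝ}
    (hS : tS r M ≤ L * (M.card : ℝ) ^ 3) (hD : ∀ v, D r v ≤ d) :
    ∑ v ∈ M, D r v ≤ L * (M.card : ℝ) ^ 3 + 2 * ((R.card : ℝ) * d +
      2 * M.card * ∑ z ∈ M, ∑ y ∈ U, (if r z y ≠ nu y then (1 : ℝ) else 0)) +
      M.card * (2 / 3 * (Mᶜ.card : ℝ) ^ 2) := by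
  have e1 : ∑ v ∈ M, ∑ x ∈ M, ∑ y ∈ Mᶜ, P r v x y =
      ∑ y ∈ Mᶜ, ∑ v ∈ M, ∑ x ∈ M, P r y v x := by
    have h1 : ∀ v, ∑ x ∈ M, ∑ y ∈ Mᶜ, P r v x y = ∑ y ∈ Mᶜ, ∑ x ∈ M, P r v x y :=
      fun v => Finset.sum_comm
    simp_rw [h1]
    rw [Finset.sum_comm]
    refine Finset.sum_congr rfl fun y _ => Finset.sum_congr rfl fun v _ =>
      Finset.sum_congr rfl fun x _ => ?_
    exact P_rot y v x
  have e2 : ∑ v ∈ M, ∑ x ∈ Mᶜ, ∑ y ∈ M, P r v x y =
      ∑ v ∈ M, ∑ x ∈ M, ∑ y ∈ Mᶜ, P r v x y := by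
    refine Finset.sum_congr rfl fun v _ => ?_
    rw [Finset.sum_comm]
    refine Finset.sum_congr rfl fun x _ => Finset.sum_congr rfl fun y _ => ?_
    exact P_swap hr v x y
  have h1 : ∑ v ∈ M, D r v = tS r M + 2 * ∑ y ∈ Mᶜ, ∑ v ∈ M, ∑ x ∈ M, P r y v x +
      ∑ v ∈ M, ∑ x ∈ Mᶜ, ∑ y ∈ Mᶜ, P r v x y := by
    unfold D
    simp_rw [split2 M]
    simp_rw [Finset.sum_add_distrib]
    rw [e2, e1]
    unfold tS
    ring
  have hR : ∀ y ∈ R, ∑ v ∈ M, ∑ x ∈ M, P r y v x ≤ d := by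
    intro y _
    refine le_trans ?_ (hD y)
    unfold D
    calc _ ≤ ∑ v ∈ M, ∑ x, P r y v x := Finset.sum_le_sum fun v _ =>
          Finset.sum_le_sum_of_subset_of_nonneg (Finset.subset_univ _)
            fun _ _ _ => P_nonneg _ _ _
      _ ≤ _ := Finset.sum_le_sum_of_subset_of_nonneg (Finset.subset_univ _)
            fun _ _ _ => Finset.sum_nonneg fun _ _ => P_nonneg _ _ _
  have hU : ∀ y ∈ U, ∑ v ∈ M, ∑ x ∈ M, P r y v x ≤
      2 * M.card * ∑ z ∈ M, (if r z y ≠ nu y then (1 : ℝ) else 0) := by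
    intro y _
    have h2 : ∀ v x, P r y v x ≤ (if r v y ≠ nu y then (1 : ℝ) else 0) +
        (if r x y ≠ nu y then (1 : ℝ) else 0) := by
      intro v x
      have key : ∀ a b c d : Fin 3, (if pb (-a) b c = true then 1 else 0 : ℤ) ≤
        (if a ≠ d then 1 else 0) + (if c ≠ d then 1 else 0) := by decide
      have h := key (r v y) (r v x) (r x y) (nu y)
      unfold P
      rw [hr v y]
      exact_mod_cast h
    calc _ ≤ ∑ v ∈ M, ∑ x ∈ M, ((if r v y ≠ nu y then (1 : ℝ) else 0) +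
        (if r x y ≠ nu y then (1 : ℝ) else 0)) :=
          Finset.sum_le_sum fun v _ => Finset.sum_le_sum fun x _ => h2 v x
      _ = _ := by
          simp_rw [Finset.sum_add_distrib]
          simp only [Finset.sum_const, nsmul_eq_mul]
          rw [← Finset.mul_sum]
          ring
  have h3 : ∑ y ∈ Mᶜ, ∑ v ∈ M, ∑ x ∈ M, P r y v x ≤ (R.card : ℝ) * d +
      2 * M.card * ∑ z ∈ M, ∑ y ∈ U, (if r z y ≠ nu y then (1 : ℝ) else 0) := by
    rw [hMRU, Finset.sum_union hRU]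
    refine add_le_add ?_ ?_
    · calc _ ≤ ∑ y ∈ R, d := Finset.sum_le_sum hR
        _ = _ := by rw [Finset.sum_const, nsmul_eq_mul]
    · calc _ ≤ ∑ y ∈ U, 2 * M.card * ∑ z ∈ M, (if r z y ≠ nu y then (1 : ℝ) else 0) :=
            Finset.sum_le_sum hU
        _ = _ := by rw [← Finset.mul_sum, Finset.sum_comm]
  have h4 : ∑ v ∈ M, ∑ x ∈ Mᶜ, ∑ y ∈ Mᶜ, P r v x y ≤
      M.card * (2 / 3 * (Mᶜ.card : ℝ) ^ 2) := by
    calc _ ≤ ∑ v ∈ M, 2 / 3 * (Mᶜ.card : ℝ) ^ 2 := Finset.sum_le_sum fun v _ => third hr _ v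
      _ = _ := by rw [Finset.sum_const, nsmul_eq_mul]
  rw [h1]
  linarith

/-- a good induced path -/
lemma exists_path (hr : ∀ u v, r v u = -r u v) {L e : ℝ} [Nonempty V]
    (hL : 2 / 5 ≤ L) (he' : e ≤ 1 / 1000000000)
    (hS : ∀ S : Finset V, tS r S ≤ L * (S.card : ℝ) ^ 3)
    (ht : (L - e) * (Fintype.card V : ℝ) ^ 3 ≤ tS r univ) :
    ∃ u v w : V, ∑ z, ∑ y, (2 * (bb (cls r u v w z) (cls r u v w y) (r z y) : ℝ) - 9000) ≤
      (Fintype.card V : ℝ) ^ 2 := by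
  by_contra hc
  push Not at hc
  obtain ⟨v0⟩ := ‹Nonempty V›
  have hn := n_pos v0
  have h1 := cert hr hL hS
  have h2 : (Fintype.card V : ℝ) ^ 2 * ∑ u, ∑ v, ∑ w, (if isP r u v w then (1 : ℝ) else 0) ≤
      ∑ u, ∑ v, ∑ w, (if isP r u v w then ∑ z, ∑ y,
      (2 * (bb (cls r u v w z) (cls r u v w y) (r z y) : ℝ) - 9000) else 0) := by
    simp_rw [Finset.mul_sum]
    refine Finset.sum_le_sum fun u _ => Finset.sum_le_sum fun v _ =>
      Finset.sum_le_sum fun w _ => ?_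
    split_ifs
    · rw [mul_one]; exact (hc u v w).le
    · simp
  have h3 := tS_eq (r := r) hr
  have h4 := h2.trans h1
  have h5 : ∑ u, ∑ v, ∑ w, (if isP r u v w then (1 : ℝ) else 0) = tS r univ / 6 := by
    rw [h3]; ring
  rw [h5] at h4
  generalize (Fintype.card V : ℝ) = n at *
  generalize tS r univ = t at *
  have h6 : n ^ 2 * (t / 6 - 43100000 * (L * n ^ 3 - t)) ≤ n ^ 2 * 0 := by linarith
  have h7 := le_of_mul_le_mul_left h6 (by positivity)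
  have h8 : 0 < n ^ 3 := by positivity
  have h9 : L * n ^ 3 - t ≤ e * n ^ 3 := by linarith
  have h10 : e * n ^ 3 ≤ 1 / 1000000000 * n ^ 3 := mul_le_mul_of_nonneg_right he' h8.le
  have h11 : 2 / 5 * n ^ 3 ≤ L * n ^ 3 := mul_le_mul_of_nonneg_right hL h8.le
  linarith

/-- The defect of a path, summed. -/
lemma bb_sum (cl : V → ℕ) (hcl : ∀ z, cl z < 8) (M R U : Finset V)
    (hM : M = univ.filter (fun z => 1 ≤ cl z ∧ cl z ≤ 4))
    (hR : R = univ.filter (fun z => cl z = 0)) (hU : U = univ.filter (fun z => 5 ≤ cl z)) :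
    ∑ z, ∑ y, (bb (cl z) (cl y) (r z y) : ℝ) =
      1000000 * R.card * Fintype.card V + 7000 * U.card * Fintype.card V +
      3000000 * Fo r (fun z => kp (cl z)) M +
      60000000 * ∑ a, ((M.filter (fun z => kp (cl z) = a)).card : ℝ) ^ 2 -
      15000000 * (M.card : ℝ) ^ 2 +
      10000000 * ∑ z ∈ M, ∑ y ∈ U, (if r z y ≠ un (cl y) then (1 : ℝ) else 0) := by
  have h1 : ∀ z y, (bb (cl z) (cl y) (r z y) : ℝ) =
      1000000 * (if z ∈ R then (1 : ℝ) else 0) + 7000 * (if z ∈ U then (1 : ℝ) else 0) +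
      (if z ∈ M then (1 : ℝ) else 0) * ((if y ∈ M then (1 : ℝ) else 0) *
        (3000000 * (if fk r (fun z => kp (cl z)) z y then (1 : ℝ) else 0) +
          60000000 * (if kp (cl z) = kp (cl y) then (1 : ℝ) else 0) - 15000000)) +
      (if z ∈ M then (1 : ℝ) else 0) * ((if y ∈ U then (1 : ℝ) else 0) *
        (10000000 * (if r z y ≠ un (cl y) then (1 : ℝ) else 0))) := by
    intro z y
    have h := bb_pt (cl z) (hcl z) (cl y) (hcl y) (r z y)
    have h' : ((bb (cl z) (cl y) (r z y) : ℤ) : ℝ) = _ := congrArg (Int.cast : ℤ → ℝ) h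
    rw [h']
    unfold fk
    rw [hM, hR, hU]
    simp only [Finset.mem_filter, Finset.mem_univ, true_and]
    push_cast
    rfl
  simp_rw [h1, Finset.sum_add_distrib, ← Finset.mul_sum]
  simp only [Finset.sum_const, Finset.card_univ, nsmul_eq_mul]
  have e1 : ∀ S : Finset V, ∑ z, (if z ∈ S then (1 : ℝ) else 0) = S.card := by
    intro S
    rw [Finset.sum_boole]
    simp
  simp_rw [← Finset.mul_sum, e1, ind_sum]
  simp_rw [Finset.sum_sub_distrib, Finset.sum_add_distrib, ← Finset.mul_sum]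
  rw [fibS (fun z => kp (cl z)) M]
  simp only [Finset.sum_const, nsmul_eq_mul]
  unfold Fo
  ring

lemma dev_le {x : Fin 4 → ℝ} {y : ℝ} (hs : ∑ a, x a = y) (a : Fin 4) :
    (x a - y / 4) ^ 2 ≤ 3 / 4 * (∑ b, x b ^ 2 - y ^ 2 / 4) := by
  have c : ∀ p q s : ℝ, (p + q + s) ^ 2 ≤ 3 * (p ^ 2 + q ^ 2 + s ^ 2) := by
    intro x y z
    nlinarith [sq_nonneg (x - y), sq_nonneg (x - z), sq_nonneg (y - z)]
  subst hs
  rcases fin4 a with rfl | rfl | rfl | rfl <;> simp only [Fin.sum_univ_four]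
  · have := c (x 1 - (x 0 + x 1 + x 2 + x 3) / 4) (x 2 - (x 0 + x 1 + x 2 + x 3) / 4)
      (x 3 - (x 0 + x 1 + x 2 + x 3) / 4)
    nlinarith
  · have := c (x 0 - (x 0 + x 1 + x 2 + x 3) / 4) (x 2 - (x 0 + x 1 + x 2 + x 3) / 4)
      (x 3 - (x 0 + x 1 + x 2 + x 3) / 4)
    nlinarith
  · have := c (x 0 - (x 0 + x 1 + x 2 + x 3) / 4) (x 1 - (x 0 + x 1 + x 2 + x 3) / 4)
      (x 3 - (x 0 + x 1 + x 2 + x 3) / 4)
    nlinarith
  · have := c (x 0 - (x 0 + x 1 + x 2 + x 3) / 4) (x 1 - (x 0 + x 1 + x 2 + x 3) / 4)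
      (x 2 - (x 0 + x 1 + x 2 + x 3) / 4)
    nlinarith

lemma norm_step {n R U FF FU L e : ℝ} {X : Fin 4 → ℝ} (hn : 0 < n) (hR : 0 ≤ R) (hU : 0 ≤ U)
    (hM : 0 ≤ (∑ a, X a) * n) (hF : 0 ≤ FF) (hFU : 0 ≤ FU)
    (hc : R + U = n - (∑ a, X a) * n)
    (hdev : ∀ a, (X a - (∑ a, X a) / 4) ^ 2 ≤ 3 / 4 * (∑ b, X b ^ 2 - (∑ a, X a) ^ 2 / 4))
    (hL : 2 / 5 ≤ L) (he : 0 ≤ e) (he' : e ≤ 1 / 1000000000)
    (hdeg : (∑ a, X a) * n * ((L - e) * n ^ 2) ≤ L * ((∑ a, X a) * n) ^ 3 +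
      2 * (R * ((L + e) * n ^ 2) + 2 * ((∑ a, X a) * n) * FU) +
      (∑ a, X a) * n * (2 / 3 * (n - (∑ a, X a) * n) ^ 2))
    (hb : 2 * (1000000 * R * n + 7000 * U * n + 3000000 * FF + 60000000 *
      ((∑ a, X a ^ 2) * n ^ 2) - 15000000 * ((∑ a, X a) * n) ^ 2 + 10000000 * FU) -
      9000 * n ^ 2 ≤ n ^ 2) :
    ∃ x0 F h y : ℝ, y = 1 - x0 ∧ y = ∑ a, X a ∧ FF = 2 * F * n ^ 2 ∧ 0 ≤ x0 ∧ 0 ≤ F ∧ 0 ≤ h ∧
      (∀ a, y / 4 - h ≤ X a ∧ X a ≤ y / 4 + h) ∧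
      x0 + 6 * F + 80 * h ^ 2 ≤ 464 / 100000 := by
  generalize (∑ a, X a) = y at *
  generalize (∑ a, X a ^ 2) = Q at *
  obtain ⟨ρ, rfl⟩ : ∃ ρ, R = ρ * n := ⟨R / n, by field_simp⟩
  obtain ⟨u, rfl⟩ : ∃ u, U = u * n := ⟨U / n, by field_simp⟩
  obtain ⟨F, rfl⟩ : ∃ F, FF = 2 * F * n ^ 2 := ⟨FF / (2 * n ^ 2), by field_simp⟩
  obtain ⟨fU, rfl⟩ : ∃ f, FU = f * n ^ 2 := ⟨FU / n ^ 2, by field_simp⟩
  have hn2 : 0 < n ^ 2 := by positivity
  have hn3 : 0 < n ^ 3 := by positivity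
  have hρ : 0 ≤ ρ := nonneg_of_mul_nonneg_left hR hn
  have hu : 0 ≤ u := nonneg_of_mul_nonneg_left hU hn
  have hy0 : 0 ≤ y := nonneg_of_mul_nonneg_left hM hn
  have hF0 : 0 ≤ F := by
    have := nonneg_of_mul_nonneg_left hF hn2
    linarith
  have hf0 : 0 ≤ fU := nonneg_of_mul_nonneg_left hFU hn2
  have hyr : y = 1 - ρ - u := by
    have : y * n = (1 - ρ - u) * n := by linarith
    exact mul_right_cancel₀ hn.ne' this
  have hI : 0 ≤ Q - y ^ 2 / 4 := by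
    have := hdev 0
    nlinarith [sq_nonneg (X 0 - y / 4)]
  have hb' : ρ + 7 / 1000 * u + 6 * F + 60 * (Q - y ^ 2 / 4) + 10 * fU ≤ 45005 / 10000000 := by
    have : (ρ + 7 / 1000 * u + 6 * F + 60 * (Q - y ^ 2 / 4) + 10 * fU) * n ^ 2 ≤
      45005 / 10000000 * n ^ 2 := by nlinarith
    exact le_of_mul_le_mul_right this hn2
  have hd' : (L - e) * y ≤ L * y ^ 3 + 2 * ρ * (L + e) + 4 * fU * y +
      2 / 3 * y * (1 - y) ^ 2 := by
    have : ((L - e) * y) * n ^ 3 ≤ (L * y ^ 3 + 2 * ρ * (L + e) + 4 * fU * y +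
      2 / 3 * y * (1 - y) ^ 2) * n ^ 3 := by nlinarith
    exact le_of_mul_le_mul_right this hn3
  have key := S2num hρ hu hF0 hf0 hI hyr hy0 hb' hL he he' hd'
  refine ⟨1 - y, F, Real.sqrt (3 / 4 * (Q - y ^ 2 / 4)), y, by ring, rfl, rfl, by linarith, hF0,
    Real.sqrt_nonneg _, ?_, ?_⟩
  · intro a
    have := Real.abs_le_sqrt (hdev a)
    rw [abs_le] at this
    constructor <;> linarith [this.1, this.2]
  · rw [Real.sq_sqrt (by positivity)]
    linarith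

theorem stab [Nonempty V] (hr : ∀ u v, r v u = -r u v) {L e : ℝ}
    (hL : 2 / 5 ≤ L) (he : 0 ≤ e) (he' : e ≤ 1 / 1000000000)
    (hS : ∀ S : Finset V, tS r S ≤ L * (S.card : ℝ) ^ 3)
    (ht : (L - e) * (Fintype.card V : ℝ) ^ 3 ≤ tS r univ)
    (hD : ∀ v, (L - e) * (Fintype.card V : ℝ) ^ 2 ≤ D r v)
    (hD' : ∀ v, D r v ≤ (L + e) * (Fintype.card V : ℝ) ^ 2) : L - 2 / 5 ≤ 2 * e := by
  obtain ⟨u, v, w, hp⟩ := exists_path hr hL he' hS ht
  obtain ⟨v0⟩ := ‹Nonempty V›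
  have hn := n_pos v0
  obtain ⟨cl, hcl⟩ : ∃ cl : V → ℕ, cl = cls r u v w := ⟨_, rfl⟩
  have hcl8 : ∀ z, cl z < 8 := fun z => by rw [hcl]; exact cls_lt u v w z
  rw [← hcl] at hp
  obtain ⟨M, hM⟩ : ∃ M : Finset V, M = univ.filter (fun z => 1 ≤ cl z ∧ cl z ≤ 4) := ⟨_, rfl⟩
  obtain ⟨R, hR⟩ : ∃ R : Finset V, R = univ.filter (fun z => cl z = 0) := ⟨_, rfl⟩
  obtain ⟨U, hU⟩ : ∃ U : Finset V, U = univ.filter (fun z => 5 ≤ cl z) := ⟨_, rfl⟩
  have hMRU : Mᶜ = R ∪ U := by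
    ext z
    have := hcl8 z
    simp only [hM, hR, hU, Finset.mem_compl, Finset.mem_union, Finset.mem_filter,
      Finset.mem_univ, true_and]
    omega
  have hRU : Disjoint R U := by
    rw [Finset.disjoint_left]
    intro z hz hz'
    simp only [hR, hU, Finset.mem_filter, Finset.mem_univ, true_and] at hz hz'
    omega
  have hcard : (R.card : ℝ) + U.card = (Fintype.card V : ℝ) - M.card := by
    have h1 : Mᶜ.card = R.card + U.card := by rw [hMRU, Finset.card_union_of_disjoint hRU]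
    have h2 := Finset.card_compl M
    have h3 : M.card ≤ Fintype.card V := Finset.card_le_univ _
    have h4 : R.card + U.card + M.card = Fintype.card V := by omega
    have h5 : (R.card : ℝ) + U.card + M.card = Fintype.card V := by exact_mod_cast h4
    linarith
  have hMc : (Mᶜ.card : ℝ) = (Fintype.card V : ℝ) - M.card := by
    rw [hMRU, Finset.card_union_of_disjoint hRU]; push_cast; exact hcard
  have hb := bb_sum (r := r) cl hcl8 M R U hM hR hU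
  have hdeg := degM hr M R U hMRU hRU (fun y => un (cl y)) (hS M) hD'
  have hdeg' : (M.card : ℝ) * ((L - e) * (Fintype.card V : ℝ) ^ 2) ≤ ∑ v ∈ M, D r v := by
    calc _ = ∑ v ∈ M, (L - e) * (Fintype.card V : ℝ) ^ 2 := by
          rw [Finset.sum_const, nsmul_eq_mul]
      _ ≤ _ := Finset.sum_le_sum fun v _ => hD v
  have hsum := card_fibS (fun z => kp (cl z)) M
  have hp' : 2 * ∑ z, ∑ y, (bb (cl z) (cl y) (r z y) : ℝ) - 9000 * (Fintype.card V : ℝ) ^ 2 ≤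
      (Fintype.card V : ℝ) ^ 2 := by
    refine le_trans (le_of_eq ?_) hp
    simp only [Finset.sum_sub_distrib, Finset.sum_const, Finset.card_univ, nsmul_eq_mul,
      ← Finset.mul_sum]
    ring
  have hF0 : 0 ≤ Fo r (fun z => kp (cl z)) M :=
    Finset.sum_nonneg fun _ _ => Finset.sum_nonneg fun _ _ => by split_ifs <;> norm_num
  have hU0 : 0 ≤ ∑ z ∈ M, ∑ y ∈ U, (if r z y ≠ un (cl y) then (1 : ℝ) else 0) :=
    Finset.sum_nonneg fun _ _ => Finset.sum_nonneg fun _ _ => by split_ifs <;> norm_num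
  rw [hb] at hp'
  rw [hMc] at hdeg
  obtain ⟨X, hX⟩ : ∃ X : Fin 4 → ℝ, ∀ a,
    ((M.filter (fun z => kp (cl z) = a)).card : ℝ) = X a * Fintype.card V :=
    ⟨fun a => ((M.filter (fun z => kp (cl z) = a)).card : ℝ) / Fintype.card V, fun a =>
      (div_mul_cancel₀ _ hn.ne').symm⟩
  have hX2 : ∑ a, ((M.filter (fun z => kp (cl z) = a)).card : ℝ) ^ 2 =
      (∑ a, X a ^ 2) * (Fintype.card V : ℝ) ^ 2 := by
    simp_rw [hX, mul_pow, ← Finset.sum_mul]
  have hX1 : (M.card : ℝ) = (∑ a, X a) * Fintype.card V := by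
    rw [← hsum]; simp_rw [hX, ← Finset.sum_mul]
  rw [hX2, hX1] at hp'
  have hR0 : (0 : ℝ) ≤ R.card := Nat.cast_nonneg _
  have hUU : (0 : ℝ) ≤ U.card := Nat.cast_nonneg _
  have hMM : (0 : ℝ) ≤ M.card := Nat.cast_nonneg _
  rw [hX1] at hdeg hdeg' hcard hMM
  have hdev := dev_le (x := X) rfl
  have key := norm_step hn hR0 hUU hMM hF0 hU0 hcard hdev hL he he' (hdeg'.trans hdeg) hp'
  obtain ⟨x0, F, h, y, hy, hyX, hFe, hx0, hF', hh, hdd, hB⟩ := key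
  refine stab2 (q := L - e) (e := e) (x0 := x0) (F := F) (h := h) (y := y) (by linarith) hL hr hS ht
    hD (fun z => kp (cl z)) M hy ?_ (le_of_eq hFe) hx0 hF' hh ?_ ?_ hB
  · rw [hX1, hyX]
  · intro b
    rw [hX]
    exact mul_le_mul_of_nonneg_right (hdd b).2 hn.le
  · intro b
    rw [hX]
    exact mul_le_mul_of_nonneg_right (hdd b).1 hn.le

end

end Pool.Agent.H73.Flag
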