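import Pool.Agent.H73.Flag.Local
import Pool.Agent.H73.Flag.Num

/-! # From an approximate partition to the bound -/

set_option autoImplicit false
set_option linter.unusedSectionVars false
namespace Pool.Agent.H73.Flag

open Finset

section
variable {V : Type*} [Fintype V] [DecidableEq V] {r : V → V → Fin 3}

lemma sm_nonneg {m : Fin 4 → Fin 3 → ℝ} (hm : ∀ b ρ, 0 ≤ m b ρ) (a : Fin 4) : 0 ≤ sm m a :=
  Finset.sum_nonneg fun b _ => Finset.sum_nonneg fun ρ _ =>
    mul_nonneg (by split_ifs <;> norm_num) (hm b ρ)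

lemma Em_nonneg {m : Fin 4 → Fin 3 → ℝ} (hm : ∀ b ρ, 0 ≤ m b ρ) (a : Fin 4) : 0 ≤ Em m a :=
  Finset.sum_nonneg fun b _ => Finset.sum_nonneg fun ρ _ =>
    mul_nonneg (by split_ifs <;> norm_num) (hm b ρ)

lemma sm_pair {m : Fin 4 → Fin 3 → ℝ} (hm : ∀ b ρ, 0 ≤ m b ρ) {a b : Fin 4} (hab : a ≠ b) :
    sm m a + sm m b ≤ Ym m := by
  rw [← s_sum m, ← Finset.sum_pair hab]
  exact Finset.sum_le_sum_of_subset_of_nonneg (Finset.subset_univ _)
    fun c _ _ => sm_nonneg hm c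

lemma fk_symm (hr : ∀ u v, r v u = -r u v) (κ : V → Fin 4) (z y : V) :
    fk r κ z y ↔ fk r κ y z := by
  have key : ∀ (a b : Fin 4) (ρ : Fin 3), (a ≠ b ∧ ρ ≠ nm a b) ↔ (b ≠ a ∧ -ρ ≠ nm b a) := by
    decide
  unfold fk
  rw [hr z y]
  exact key _ _ _

/-- the local estimate on `f2` -/
lemma f2_ge (hr : ∀ u v, r v u = -r u v) (κ : V → Fin 4) (M : Finset V) (v : V)
    {q x0 F : ℝ} (hD : q * (Fintype.card V : ℝ) ^ 2 ≤ D r v)
    (hM : (Fintype.card V : ℝ) - M.card = x0 * Fintype.card V)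
    (hF : Fo r κ M ≤ 2 * F * (Fintype.card V : ℝ) ^ 2) :
    q - 2 * F - 2 * x0 ≤ f2 (mv r κ M v) := by
  have h1 := D_le hr κ M v
  have hn := n_pos v
  rw [hM] at h1
  have h2 : (q - 2 * F - 2 * x0) * (Fintype.card V : ℝ) ^ 2 ≤
      f2 (mv r κ M v) * (Fintype.card V : ℝ) ^ 2 := by nlinarith
  exact le_of_mul_le_mul_right h2 (by positivity)

theorem types {q x0 F h y : ℝ} (hq : 2 / 5 - 1 / 100000000 ≤ q)
    (hr : ∀ u v, r v u = -r u v)
    (hD : ∀ v, q * (Fintype.card V : ℝ) ^ 2 ≤ D r v)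
    (κ : V → Fin 4) (M : Finset V)
    (hy : y = 1 - x0) (hM : (M.card : ℝ) = y * Fintype.card V)
    (hFo : Fo r κ M ≤ 2 * F * (Fintype.card V : ℝ) ^ 2)
    (hx0 : 0 ≤ x0) (hF : 0 ≤ F) (hh : 0 ≤ h)
    (hx1 : ∀ b, ((M.filter (fun z => κ z = b)).card : ℝ) ≤ (y / 4 + h) * Fintype.card V)
    (hx2 : ∀ b, (y / 4 - h) * Fintype.card V ≤ ((M.filter (fun z => κ z = b)).card : ℝ))
    (hB : x0 + 6 * F + 80 * h ^ 2 ≤ 464 / 100000) (v : V) :
    ∃ a, Em (mv r κ M v) a ≤ 9 / 100 ∧ ∀ b, b ≠ a → 39 / 100 ≤ Em (mv r κ M v) b := by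
  have hn := n_pos v
  have hm := mv_nonneg (r := r) κ M v
  have hY : Ym (mv r κ M v) = y := by
    rw [Ym_eq, hM]; field_simp
  have hX1 : ∀ b, xm (mv r κ M v) b ≤ y / 4 + h := by
    intro b; rw [xm_eq, div_le_iff₀ hn]; exact hx1 b
  have hX2 : ∀ b, y / 4 - h ≤ xm (mv r κ M v) b := by
    intro b; rw [xm_eq, le_div_iff₀ hn]; exact hx2 b
  have hf := f2_ge hr κ M v (hD v) (x0 := x0) (by rw [hM, hy]; ring) hFo
  have hd : ∀ a, Em (mv r κ M v) a ≤ 9 / 100 ∨ 37 / 100 ≤ Em (mv r κ M v) a := by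
    intro a
    have h1 := A_ii hm hX1 a
    rw [hY] at h1
    exact dich (d := y / 4 - xm (mv r κ M v) a) (h := h) hx0 hF (by linarith [hX2 a])
      (by linarith [hX1 a]) hy hB (by ring) rfl h1 (by linarith)
  have hh1 : h ≤ 77 / 10000 := by nlinarith
  have h8 : x0 ≤ 464 / 100000 := by nlinarith [sq_nonneg h]
  have hss := s_sum (mv r κ M v)
  rw [hY] at hss
  have hsx := fun a => sx_sum (mv r κ M v) a
  rw [hY] at hsx
  have hxx := x_sum (mv r κ M v)
  rw [hY] at hxx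
  have hex : ∃ a, Em (mv r κ M v) a ≤ 9 / 100 := by
    by_contra hc
    push Not at hc
    have hE : ∀ a, 37 / 100 ≤ Em (mv r κ M v) a := fun a =>
      (hd a).resolve_left (not_le.2 (hc a))
    have h3 := A_iii (mv r κ M v)
    have h4 : ∀ a, (sm (mv r κ M v) a) ^ 2 ≤ 388 / 1000 * sm (mv r κ M v) a := by
      intro a
      rw [sq]
      refine mul_le_mul_of_nonneg_right ?_ (sm_nonneg hm a)
      linarith [hsx a, hE a, hX2 a]
    have h5 : ∑ a, (sm (mv r κ M v) a) ^ 2 ≤ 388 / 1000 * y := by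
      calc _ ≤ ∑ a, 388 / 1000 * sm (mv r κ M v) a := Finset.sum_le_sum fun a _ => h4 a
        _ = _ := by rw [← Finset.mul_sum, hss]
    have h6 : ∀ a, (xm (mv r κ M v) a) ^ 2 ≤ 258 / 1000 * xm (mv r κ M v) a := by
      intro a
      rw [sq]
      refine mul_le_mul_of_nonneg_right ?_ ?_
      · linarith [hX1 a]
      · linarith [hX2 a]
    have h7 : ∑ a, (xm (mv r κ M v) a) ^ 2 ≤ 258 / 1000 * y := by
      calc _ ≤ ∑ a, 258 / 1000 * xm (mv r κ M v) a := Finset.sum_le_sum fun a _ => h6 a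
        _ = _ := by rw [← Finset.mul_sum, hxx]
    have h10 : 2 * F + 2 * x0 ≤ 928 / 100000 := by nlinarith [sq_nonneg h]
    linarith
  obtain ⟨a, ha⟩ := hex
  refine ⟨a, ha, fun b hb => ?_⟩
  have h1 := sm_pair hm (Ne.symm hb)
  rw [hY] at h1
  linarith [hsx a, hsx b, hX1 a, hX1 b]

/-- summing the local estimate: the vertices in the wrong part -/
lemma moved_le {F : ℝ} (κ τ : V → Fin 4) (M : Finset V)
    (hFo : Fo r κ M ≤ 2 * F * (Fintype.card V : ℝ) ^ 2)
    (hτ : ∀ v b, b ≠ τ v → 39 / 100 ≤ Em (mv r κ M v) b) :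
    39 / 100 * ((M.filter (fun z => κ z ≠ τ z)).card : ℝ) ≤ 2 * F * Fintype.card V := by
  rcases isEmpty_or_nonempty V with hV | ⟨⟨v0⟩⟩
  · have h1 : (M.filter (fun z => κ z ≠ τ z)) = ∅ := by
      ext x; exact (hV.false x).elim
    simp [h1]
  · have hn := n_pos v0
    have h1 : (Fintype.card V : ℝ) * (39 / 100 * ((M.filter (fun z => κ z ≠ τ z)).card : ℝ)) ≤
        Fo r κ M := by
      unfold Fo
      have h2 : ∀ z, ∑ y ∈ M, (if fk r κ z y then (1 : ℝ) else 0) =
          (Fintype.card V : ℝ) * Em (mv r κ M z) (κ z) := fun z => (Em_fk κ M z).symm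
      simp_rw [h2]
      rw [← Finset.mul_sum]
      refine mul_le_mul_of_nonneg_left ?_ hn.le
      calc 39 / 100 * ((M.filter (fun z => κ z ≠ τ z)).card : ℝ) =
          ∑ z ∈ M.filter (fun z => κ z ≠ τ z), (39 / 100 : ℝ) := by
            rw [Finset.sum_const, nsmul_eq_mul]; ring
        _ ≤ ∑ z ∈ M.filter (fun z => κ z ≠ τ z), Em (mv r κ M z) (κ z) :=
            Finset.sum_le_sum fun z hz => hτ z (κ z) (Finset.mem_filter.1 hz).2
        _ ≤ ∑ z ∈ M, Em (mv r κ M z) (κ z) :=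
            Finset.sum_le_sum_of_subset_of_nonneg (Finset.filter_subset _ _)
              fun z _ _ => Em_nonneg (mv_nonneg κ M z) _
    have h3 := h1.trans hFo
    have h4 : 39 / 100 * ((M.filter (fun z => κ z ≠ τ z)).card : ℝ) * (Fintype.card V : ℝ) ≤
        2 * F * Fintype.card V * (Fintype.card V : ℝ) := by nlinarith
    exact le_of_mul_le_mul_right h4 hn

/-- The changed vertices. -/
def Ch (κ τ : V → Fin 4) (M : Finset V) : Finset V := univ.filter (fun z => ¬ (z ∈ M ∧ κ z = τ z))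

lemma Ch_card (κ τ : V → Fin 4) (M : Finset V) :
    ((Ch κ τ M).card : ℝ) = (Fintype.card V : ℝ) - M.card +
      ((M.filter (fun z => κ z ≠ τ z)).card : ℝ) := by
  have h1 : (M.filter (fun z => κ z = τ z)).card + (M.filter (fun z => κ z ≠ τ z)).card =
      M.card := Finset.card_filter_add_card_filter_not _
  have h2 : (univ.filter (fun z => (z ∈ M ∧ κ z = τ z))).card + (Ch κ τ M).card =
      Fintype.card V := by
    rw [← Finset.card_univ]; exact Finset.card_filter_add_card_filter_not _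
  have h3 : (univ.filter (fun z => (z ∈ M ∧ κ z = τ z))) = M.filter (fun z => κ z = τ z) := by
    ext z; simp
  rw [h3] at h2
  have h1' : ((M.filter (fun z => κ z = τ z)).card : ℝ) +
    ((M.filter (fun z => κ z ≠ τ z)).card : ℝ) = M.card := by exact_mod_cast h1
  have h2' : ((M.filter (fun z => κ z = τ z)).card : ℝ) + ((Ch κ τ M).card : ℝ) =
    Fintype.card V := by exact_mod_cast h2
  linarith

lemma Em_new (κ τ : V → Fin 4) (M : Finset V) (v : V) (a : Fin 4) :
    (Fintype.card V : ℝ) * Em (mv r τ univ v) a ≤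
      (Fintype.card V : ℝ) * Em (mv r κ M v) a + (Ch κ τ M).card := by
  rw [Em_eq, Em_eq]
  have h1 : ∑ z, (if τ z ≠ a ∧ row (r v z) (τ z) ≠ a then (1 : ℝ) else 0) ≤
      ∑ z, ((if z ∈ M then (1 : ℝ) else 0) *
        (if κ z ≠ a ∧ row (r v z) (κ z) ≠ a then (1 : ℝ) else 0) +
        (if z ∈ Ch κ τ M then (1 : ℝ) else 0)) := by
    refine Finset.sum_le_sum fun z _ => ?_
    by_cases h : z ∈ M ∧ κ z = τ z
    · have hc : z ∉ Ch κ τ M := by simp [Ch, h.1, h.2]
      simp only [h.1, h.2, hc, if_true, if_false, one_mul, add_zero]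
      exact le_refl _
    · have hc : z ∈ Ch κ τ M := by
        simp only [Ch, Finset.mem_filter, Finset.mem_univ, true_and]; exact h
      simp only [hc, if_true]
      have h2 : (if τ z ≠ a ∧ row (r v z) (τ z) ≠ a then (1 : ℝ) else 0) ≤ 1 := by
        split_ifs <;> norm_num
      have h3 : (0 : ℝ) ≤ (if z ∈ M then (1 : ℝ) else 0) *
        (if κ z ≠ a ∧ row (r v z) (κ z) ≠ a then (1 : ℝ) else 0) :=
        mul_nonneg (by split_ifs <;> norm_num) (by split_ifs <;> norm_num)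
      linarith
  refine h1.trans (le_of_eq ?_)
  rw [Finset.sum_add_distrib, ind_sum, Finset.sum_boole]
  simp

lemma Fo_new (hr : ∀ u v, r v u = -r u v) (κ τ : V → Fin 4) (M : Finset V) :
    Fo r τ univ ≤ Fo r κ M +
      2 * ∑ z ∈ Ch κ τ M, (Fintype.card V : ℝ) * Em (mv r τ univ z) (τ z) := by
  have e1 : ∑ z ∈ Ch κ τ M, (Fintype.card V : ℝ) * Em (mv r τ univ z) (τ z) =
      ∑ z ∈ Ch κ τ M, ∑ y, if fk r τ z y then (1 : ℝ) else 0 :=
    Finset.sum_congr rfl fun z _ => Em_fk τ univ z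
  have h1 : Fo r τ univ ≤ ∑ z, ∑ y, ((if z ∈ M then (1 : ℝ) else 0) *
      ((if y ∈ M then (1 : ℝ) else 0) * (if fk r κ z y then (1 : ℝ) else 0)) +
      (if z ∈ Ch κ τ M then (1 : ℝ) else 0) * (if fk r τ z y then (1 : ℝ) else 0) +
      (if y ∈ Ch κ τ M then (1 : ℝ) else 0) * (if fk r τ y z then (1 : ℝ) else 0)) := by
    refine Finset.sum_le_sum fun z _ => Finset.sum_le_sum fun y _ => ?_
    have p0 : ∀ (p : Prop) [Decidable p], (0 : ℝ) ≤ if p then (1 : ℝ) else 0 := by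
      intro p _; split_ifs <;> norm_num
    by_cases hz : z ∈ M ∧ κ z = τ z
    · by_cases hy : y ∈ M ∧ κ y = τ y
      · have hc : z ∉ Ch κ τ M := by simp [Ch, hz.1, hz.2]
        have hc' : y ∉ Ch κ τ M := by simp [Ch, hy.1, hy.2]
        simp only [hz.1, hy.1, hc, hc', if_true, if_false, one_mul, add_zero, zero_mul]
        have hiff : fk r τ z y ↔ fk r κ z y := by unfold fk; rw [hz.2, hy.2]
        simp only [hiff]
        exact le_refl _
      · have hc : y ∈ Ch κ τ M := by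
          simp only [Ch, Finset.mem_filter, Finset.mem_univ, true_and]; exact hy
        simp only [hc, if_true, one_mul]
        have q1 := mul_nonneg (p0 (z ∈ M)) (mul_nonneg (p0 (y ∈ M)) (p0 (fk r κ z y)))
        have q2 := mul_nonneg (p0 (z ∈ Ch κ τ M)) (p0 (fk r τ z y))
        have q3 : (if fk r τ z y then (1 : ℝ) else 0) = if fk r τ y z then (1 : ℝ) else 0 := by
          simp only [fk_symm hr τ z y]
        linarith
    · have hc : z ∈ Ch κ τ M := by
        simp only [Ch, Finset.mem_filter, Finset.mem_univ, true_and]; exact hz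
      simp only [hc, if_true, one_mul]
      have q1 := mul_nonneg (p0 (z ∈ M)) (mul_nonneg (p0 (y ∈ M)) (p0 (fk r κ z y)))
      have q2 := mul_nonneg (p0 (y ∈ Ch κ τ M)) (p0 (fk r τ y z))
      linarith
  refine h1.trans (le_of_eq ?_)
  rw [e1]
  simp_rw [Finset.sum_add_distrib]
  have e2 : ∑ z, ∑ y, (if y ∈ Ch κ τ M then (1 : ℝ) else 0) *
      (if fk r τ y z then (1 : ℝ) else 0) =
      ∑ z ∈ Ch κ τ M, ∑ y, if fk r τ z y then (1 : ℝ) else 0 := by
    rw [Finset.sum_comm, ← ind_sum (Ch κ τ M) (fun z => ∑ y, if fk r τ z y then (1 : ℝ) else 0)]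
    simp_rw [Finset.mul_sum]
  have e3 : ∑ z, ∑ y, (if z ∈ Ch κ τ M then (1 : ℝ) else 0) *
      (if fk r τ z y then (1 : ℝ) else 0) =
      ∑ z ∈ Ch κ τ M, ∑ y, if fk r τ z y then (1 : ℝ) else 0 := by
    rw [← ind_sum (Ch κ τ M) (fun z => ∑ y, if fk r τ z y then (1 : ℝ) else 0)]
    simp_rw [Finset.mul_sum]
  have e4 : ∑ z, ∑ y, (if z ∈ M then (1 : ℝ) else 0) *
      ((if y ∈ M then (1 : ℝ) else 0) * (if fk r κ z y then (1 : ℝ) else 0)) = Fo r κ M := by
    unfold Fo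
    rw [← ind_sum M (fun z => ∑ y ∈ M, if fk r κ z y then (1 : ℝ) else 0)]
    refine Finset.sum_congr rfl fun z _ => ?_
    rw [← ind_sum M (fun y => if fk r κ z y then (1 : ℝ) else 0), Finset.mul_sum]
  rw [e2, e3, e4]
  ring

lemma size_le (κ τ : V → Fin 4) (M : Finset V) (a : Fin 4) :
    ((univ.filter (fun z => τ z = a)).card : ℝ) ≤
      ((M.filter (fun z => κ z = a)).card : ℝ) + (Ch κ τ M).card := by
  have : (univ.filter (fun z => τ z = a)) ⊆ (M.filter (fun z => κ z = a)) ∪ Ch κ τ M := by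
    intro z hz
    have hz' : τ z = a := (Finset.mem_filter.1 hz).2
    rw [Finset.mem_union]
    by_cases h : z ∈ M ∧ κ z = τ z
    · left; exact Finset.mem_filter.2 ⟨h.1, h.2.trans hz'⟩
    · right; simp only [Ch, Finset.mem_filter, Finset.mem_univ, true_and]; exact h
  exact_mod_cast (Finset.card_le_card this).trans (Finset.card_union_le _ _)

lemma size_ge (κ τ : V → Fin 4) (M : Finset V) (a : Fin 4) :
    ((M.filter (fun z => κ z = a)).card : ℝ) ≤
      ((univ.filter (fun z => τ z = a)).card : ℝ) +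
      ((M.filter (fun z => κ z ≠ τ z)).card : ℝ) := by
  have : (M.filter (fun z => κ z = a)) ⊆ (univ.filter (fun z => τ z = a)) ∪
      M.filter (fun z => κ z ≠ τ z) := by
    intro z hz
    obtain ⟨hz1, hz2⟩ := Finset.mem_filter.1 hz
    rw [Finset.mem_union]
    by_cases h : κ z = τ z
    · left; exact Finset.mem_filter.2 ⟨Finset.mem_univ _, h.symm.trans hz2⟩
    · right; exact Finset.mem_filter.2 ⟨hz1, h⟩
  exact_mod_cast (Finset.card_le_card this).trans (Finset.card_union_le _ _)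

lemma S6num {x : Fin 4 → ℝ} {L e : ℝ} (hL : 2 / 5 ≤ L) (h1 : ∀ a, 242 / 1000 ≤ x a)
    (h2 : ∀ a, x a ≤ 258 / 1000) (hs : ∑ a, x a = 1)
    (h : L - e ≤ 1 - 3 * ∑ a, x a ^ 2 + 2 * ∑ a, x a ^ 3 + L * ∑ a, x a ^ 3) :
    L - 2 / 5 ≤ 2 * e := by
  have g : ∀ a, 15 / 100 + 105 / 100 * (x a - 1 / 4) ≤ 3 * x a ^ 2 - 24 / 10 * x a ^ 3 := by
    intro a
    have := mul_nonneg (sq_nonneg (x a - 1 / 4))
      (show 0 ≤ 18 / 10 - 24 / 10 * x a by linarith [h2 a])
    nlinarith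
  have g2 := Finset.sum_le_sum (s := univ) fun a _ => g a
  have k : ∀ a, x a ^ 3 ≤ 1 / 2 * x a := by
    intro a
    have h3 : x a ^ 2 ≤ 1 / 2 := by nlinarith [h1 a, h2 a]
    have h4 : x a ^ 3 = x a ^ 2 * x a := by ring
    rw [h4]
    exact mul_le_mul_of_nonneg_right h3 (by linarith [h1 a])
  have k2 := Finset.sum_le_sum (s := univ) fun a _ => k a
  rw [← Finset.mul_sum, hs] at k2
  simp only [Fin.sum_univ_four] at *
  have h5 := mul_le_mul_of_nonneg_left k2 (sub_nonneg.2 hL)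
  nlinarith

theorem stab2 [Nonempty V] {q L e x0 F h y : ℝ} (hq : 2 / 5 - 1 / 100000000 ≤ q)
    (hL : 2 / 5 ≤ L)
    (hr : ∀ u v, r v u = -r u v)
    (hS : ∀ S : Finset V, tS r S ≤ L * (S.card : ℝ) ^ 3)
    (ht : (L - e) * (Fintype.card V : ℝ) ^ 3 ≤ tS r univ)
    (hD : ∀ v, q * (Fintype.card V : ℝ) ^ 2 ≤ D r v)
    (κ : V → Fin 4) (M : Finset V)
    (hy : y = 1 - x0) (hM : (M.card : ℝ) = y * Fintype.card V)
    (hFo : Fo r κ M ≤ 2 * F * (Fintype.card V : ℝ) ^ 2)
    (hx0 : 0 ≤ x0) (hF : 0 ≤ F) (hh : 0 ≤ h)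
    (hx1 : ∀ b, ((M.filter (fun z => κ z = b)).card : ℝ) ≤ (y / 4 + h) * Fintype.card V)
    (hx2 : ∀ b, (y / 4 - h) * Fintype.card V ≤ ((M.filter (fun z => κ z = b)).card : ℝ))
    (hB : x0 + 6 * F + 80 * h ^ 2 ≤ 464 / 100000) : L - 2 / 5 ≤ 2 * e := by
  obtain ⟨v0⟩ := ‹Nonempty V›
  have hn := n_pos v0
  choose τ hτ1 hτ2 using types hq hr hD κ M hy hM hFo hx0 hF hh hx1 hx2 hB
  have hmov := moved_le κ τ M hFo hτ2
  have hCh := Ch_card κ τ M
  generalize hm' : ((M.filter (fun z => κ z ≠ τ z)).card : ℝ) = m' at hmov hCh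
  have hsq : 0 ≤ h ^ 2 := sq_nonneg h
  have hm1 : m' ≤ 52 / 10 * F * Fintype.card V := by
    have : 0 ≤ F * (Fintype.card V : ℝ) := by positivity
    linarith
  have hc : ((Ch κ τ M).card : ℝ) ≤ (x0 + 52 / 10 * F) * Fintype.card V := by
    rw [hCh, hM, hy]; nlinarith
  have hE : ∀ v, Em (mv r τ univ v) (τ v) ≤ 95 / 1000 := by
    intro v
    have h1 := Em_new (r := r) κ τ M v (τ v)
    have h2 := hτ1 v
    have h3 : (Fintype.card V : ℝ) * Em (mv r τ univ v) (τ v) ≤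
        (Fintype.card V : ℝ) * (95 / 1000) := by
      have h4 := mul_le_mul_of_nonneg_left h2 hn.le
      have h5 : (x0 + 52 / 10 * F) * (Fintype.card V : ℝ) ≤ 464 / 100000 * Fintype.card V :=
        mul_le_mul_of_nonneg_right (by linarith) hn.le
      linarith
    exact le_of_mul_le_mul_left h3 hn
  have hFo' : Fo r τ univ ≤ 2 * (F + 95 / 1000 * (x0 + 52 / 10 * F)) *
      (Fintype.card V : ℝ) ^ 2 := by
    have h1 := Fo_new hr κ τ M
    have h2 : ∑ z ∈ Ch κ τ M, (Fintype.card V : ℝ) * Em (mv r τ univ z) (τ z) ≤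
        ((Ch κ τ M).card : ℝ) * ((Fintype.card V : ℝ) * (95 / 1000)) := by
      rw [← nsmul_eq_mul, ← Finset.sum_const]
      exact Finset.sum_le_sum fun z _ => mul_le_mul_of_nonneg_left (hE z) hn.le
    have h3 : ((Ch κ τ M).card : ℝ) * ((Fintype.card V : ℝ) * (95 / 1000)) ≤
        (x0 + 52 / 10 * F) * Fintype.card V * ((Fintype.card V : ℝ) * (95 / 1000)) :=
      mul_le_mul_of_nonneg_right hc (by positivity)
    nlinarith
  have hf : ∀ v, 396 / 1000 ≤ f2 (mv r τ univ v) := by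
    intro v
    have h1 := f2_ge hr τ univ v (hD v) (x0 := 0) (by rw [Finset.card_univ]; ring) hFo'
    linarith
  have hN : ∀ a, ((univ.filter (fun z => τ z = a)).card : ℝ) ≤ 258 / 1000 * Fintype.card V := by
    intro a
    have h1 := size_le κ τ M a
    have h2 := hx1 a
    have h3 : (y / 4 + h + (x0 + 52 / 10 * F)) * (Fintype.card V : ℝ) ≤
        258 / 1000 * Fintype.card V := by
      refine mul_le_mul_of_nonneg_right ?_ hn.le
      rw [hy]
      nlinarith [sq_nonneg (h - 721 / 100000)]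
    linarith
  have hN' : ∀ a, 242 / 1000 * (Fintype.card V : ℝ) ≤
      ((univ.filter (fun z => τ z = a)).card : ℝ) := by
    intro a
    have h1 := size_ge κ τ M a
    rw [hm'] at h1
    have h2 := hx2 a
    have h3 : 242 / 1000 * (Fintype.card V : ℝ) ≤
        (y / 4 - h - 52 / 10 * F) * (Fintype.card V : ℝ) := by
      refine mul_le_mul_of_nonneg_right ?_ hn.le
      rw [hy]
      nlinarith [sq_nonneg (h - 721 / 100000)]
    linarith
  have hK : ∀ v, 0 ≤ K2 (mv r τ univ v) (τ v) := by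
    intro v
    refine B_main (mv_nonneg τ univ v) ?_ ?_ ?_ (τ v) ((hE v).trans (by norm_num)) (hf v)
    · intro b; rw [xm_eq, div_le_iff₀ hn]; exact hN b
    · intro b; rw [xm_eq, le_div_iff₀ hn]; exact hN' b
    · rw [Ym_eq, Finset.card_univ]; exact div_self hn.ne'
  have hT := total_le hr τ hK
  have hT2 : ∑ a, tS r (univ.filter (fun z => τ z = a)) ≤
      L * ∑ a, ((univ.filter (fun z => τ z = a)).card : ℝ) ^ 3 := by
    rw [Finset.mul_sum]
    exact Finset.sum_le_sum fun a _ => hS _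
  have hsum : ∑ a, ((univ.filter (fun z => τ z = a)).card : ℝ) = Fintype.card V := by
    have := Finset.card_eq_sum_card_fiberwise (f := τ) (s := univ) (t := univ)
      (fun _ _ => by simp)
    rw [Finset.card_univ] at this
    rw [this]
    push_cast
    rfl
  refine S6num (x := fun a => ((univ.filter (fun z => τ z = a)).card : ℝ) / Fintype.card V)
    hL ?_ ?_ ?_ ?_
  · intro a; rw [le_div_iff₀ hn]; exact hN' a
  · intro a; rw [div_le_iff₀ hn]; exact hN a
  · rw [← Finset.sum_div, hsum]; exact div_self hn.ne'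
  · simp only [div_pow]
    rw [← Finset.sum_div, ← Finset.sum_div]
    generalize (∑ a, tS r (univ.filter (fun z => τ z = a))) = A at hT hT2
    generalize (∑ a, ((univ.filter (fun z => τ z = a)).card : ℝ) ^ 3) = B at hT hT2 ⊢
    generalize (∑ a, ((univ.filter (fun z => τ z = a)).card : ℝ) ^ 2) = C at hT ⊢
    have h1 : (L - e) * (Fintype.card V : ℝ) ^ 3 ≤ (Fintype.card V : ℝ) ^ 3 -
      3 * (Fintype.card V : ℝ) * C + 2 * B + L * B := by linarith
    have h2 : (1 - 3 * (C / (Fintype.card V : ℝ) ^ 2) + 2 * (B / (Fintype.card V : ℝ) ^ 3) +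
        L * (B / (Fintype.card V : ℝ) ^ 3)) * (Fintype.card V : ℝ) ^ 3 =
        (Fintype.card V : ℝ) ^ 3 - 3 * (Fintype.card V : ℝ) * C + 2 * B + L * B := by
      field_simp
    exact le_of_mul_le_mul_right (h1.trans_eq h2.symm) (by positivity)

end

end Pool.Agent.H73.Flag
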